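import Pool.Agent.Helper438.Oval.Radon

set_option autoImplicit false

open Set

namespace Pool.Agent.Helper438.Oval

theorem line_int {K : Set (ℝ × ℝ)} (hs : StrictConvex ℝ K) (c d : ℝ × ℝ) (hd : d ≠ 0)
    {s r t : ℝ} (h1 : c + s • d ∈ K) (h2 : c + t • d ∈ K) (hsr : s < r) (hrt : r < t) :
    c + r • d ∈ interior K := by
  have hne : c + s • d ≠ c + t • d := by
    intro h
    have h' : (s - t) • d = 0 := by rw [sub_smul]; exact sub_eq_zero.2 (add_left_cancel h)
    rcases smul_eq_zero.1 h' with h'' | h''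
    · linarith
    · exact hd h''
  have hst : 0 < t - s := by linarith
  have h3 := hs h1 h2 hne (a := (t - r) / (t - s)) (b := (r - s) / (t - s))
    (div_pos (by linarith) hst) (div_pos (by linarith) hst) (by field_simp; ring)
  have e : c + r • d = ((t - r) / (t - s)) • (c + s • d) + ((r - s) / (t - s)) • (c + t • d) := by
    ext
    · simp only [Prod.fst_add, Prod.smul_fst, smul_eq_mul]; field_simp; ring
    · simp only [Prod.snd_add, Prod.smul_snd, smul_eq_mul]; field_simp; ring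
  rw [e]; exact h3

theorem int_extend {K : Set (ℝ × ℝ)} {z : ℝ × ℝ} (hz : z ∈ interior K) (d : ℝ × ℝ) :
    ∃ ε : ℝ, 0 < ε ∧ z + ε • d ∈ K ∧ z + (-ε) • d ∈ K := by
  have hc : Continuous fun t : ℝ => z + t • d := by fun_prop
  have h0 : (fun t : ℝ => z + t • d) 0 ∈ interior K := by simpa using hz
  have ho : (fun t : ℝ => z + t • d) ⁻¹' interior K ∈ nhds (0 : ℝ) :=
    (isOpen_interior.preimage hc).mem_nhds h0
  obtain ⟨ε, hε, hb⟩ := Metric.mem_nhds_iff.1 ho
  refine ⟨ε / 2, by positivity, ?_, ?_⟩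
  · apply interior_subset
    apply hb
    rw [Metric.mem_ball, dist_zero_right, Real.norm_eq_abs, abs_of_pos (by positivity)]
    linarith
  · apply interior_subset
    apply hb
    rw [Metric.mem_ball, dist_zero_right, Real.norm_eq_abs, abs_neg, abs_of_pos (by positivity)]
    linarith

/-- three equal parallel chords are impossible: sorted version -/
theorem three_sorted {K : Set (ℝ × ℝ)} (hK : IsCompact K) (hs : StrictConvex ℝ K) (m l : ℝ)
    (hl : 0 < l) (x y z : ℝ × ℝ) (hx : x ∈ frontier K) (hx' : x + l • ((1, m) : ℝ × ℝ) ∈ frontier K)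
    (hy : y ∈ frontier K) (hy' : y + l • ((1, m) : ℝ × ℝ) ∈ frontier K)
    (hz : z ∈ frontier K) (hz' : z + l • ((1, m) : ℝ × ℝ) ∈ frontier K)
    (hxy : x.2 - m * x.1 < y.2 - m * y.1) (hyz : y.2 - m * y.1 < z.2 - m * z.1) : False := by
  have hfr : frontier K = K \ interior K := hK.isClosed.frontier_eq
  rw [hfr] at hx hx' hy hy' hz hz'
  set B : ℝ × ℝ → ℝ := fun z => z.2 - m * z.1 with hB
  have hD : 0 < B z - B x := by simp only [hB]; linarith
  set lam : ℝ := (B y - B x) / (B z - B x) with hlam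
  have hl0 : 0 < lam := div_pos (by simp only [hB]; linarith) hD
  have hl1 : lam < 1 := by rw [hlam, div_lt_one hD]; simp only [hB]; linarith
  have hzx : z - x ≠ 0 := by
    intro h
    have : z = x := sub_eq_zero.1 h
    rw [this] at hD; simp at hD
  -- the two points of the parallelogram
  have h1 : x + lam • (z - x) ∈ interior K := by
    refine line_int hs x (z - x) hzx (s := 0) (t := 1) ?_ ?_ hl0 hl1
    · simpa using hx.1
    · simpa using hz.1
  have h2 : (x + l • ((1, m) : ℝ × ℝ)) + lam • (z - x) ∈ interior K := by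
    refine line_int hs _ (z - x) hzx (s := 0) (t := 1) ?_ ?_ hl0 hl1
    · simpa using hx'.1
    · have : x + l • ((1, m) : ℝ × ℝ) + (1 : ℝ) • (z - x) = z + l • ((1, m) : ℝ × ℝ) := by
        rw [one_smul]; abel
      rw [this]; exact hz'.1
  set c : ℝ × ℝ := x + lam • (z - x) with hc
  set s : ℝ := y.1 - c.1 with hsdef
  have hBc : c.2 - m * c.1 = y.2 - m * y.1 := by
    have e1 : lam * (B z - B x) = B y - B x := by rw [hlam]; field_simp
    simp only [hc, Prod.snd_add, Prod.fst_add, Prod.smul_snd, Prod.smul_fst, Prod.snd_sub,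
      Prod.fst_sub, smul_eq_mul]
    simp only [hB] at e1
    linarith
  have hyc : y = c + s • ((1, m) : ℝ × ℝ) := by
    ext
    · simp [hsdef]
    · simp only [hsdef, Prod.snd_add, Prod.smul_snd, smul_eq_mul]; linarith
  have hu : ((1, m) : ℝ × ℝ) ≠ 0 := by
    intro h; have := congrArg Prod.fst h; simp at this
  have hy'' : y + l • ((1, m) : ℝ × ℝ) = c + (s + l) • ((1, m) : ℝ × ℝ) := by
    rw [hyc, add_smul]; abel
  have h2' : c + l • ((1, m) : ℝ × ℝ) ∈ K := by
    have : x + l • ((1, m) : ℝ × ℝ) + lam • (z - x) = c + l • ((1, m) : ℝ × ℝ) := by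
      rw [hc]; abel
    rw [← this]; exact interior_subset h2
  have h1' : c + (0 : ℝ) • ((1, m) : ℝ × ℝ) ∈ K := by simpa using interior_subset h1
  rcases lt_trichotomy s 0 with h | h | h
  · apply hy'.2
    rw [hy'']
    refine line_int hs c _ hu (s := s) (t := l) ?_ h2' (by linarith) (by linarith)
    rw [← hyc]; exact hy.1
  · apply hy.2
    rw [hyc, h]; simpa using h1
  · apply hy.2
    rw [hyc]
    refine line_int hs c _ hu (s := 0) (t := s + l) h1' ?_ h (by linarith)
    rw [← hy'']; exact hy'.1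

theorem collinear_three {K : Set (ℝ × ℝ)} (hK : IsCompact K) (hs : StrictConvex ℝ K)
    (c d : ℝ × ℝ) (hd : d ≠ 0) {a b : ℝ} (h0 : c ∈ frontier K) (h1 : c + a • d ∈ frontier K)
    (h2 : c + b • d ∈ frontier K) (ha : a ≠ 0) (hb : b ≠ 0) : a = b := by
  have hfr : frontier K = K \ interior K := hK.isClosed.frontier_eq
  rw [hfr] at h0 h1 h2
  have h0' : c + (0 : ℝ) • d ∈ K := by simpa using h0.1
  have h0'' : c + (0 : ℝ) • d ∉ interior K := by simpa using h0.2
  have key : ∀ s r t : ℝ, c + s • d ∈ K → c + r • d ∉ interior K → c + t • d ∈ K →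
      s < r → r < t → False := fun s r t hs1 hr ht h3 h4 => hr (line_int hs c d hd hs1 ht h3 h4)
  by_contra hab
  rcases lt_or_gt_of_ne ha with ha' | ha' <;> rcases lt_or_gt_of_ne hb with hb' | hb' <;>
    rcases lt_or_gt_of_ne hab with hab' | hab'
  · exact key a b 0 h1.1 h2.2 h0' hab' hb'
  · exact key b a 0 h2.1 h1.2 h0' hab' ha'
  · exact key a 0 b h1.1 h0'' h2.1 ha' hb'
  · linarith
  · linarith
  · exact key b 0 a h2.1 h0'' h1.1 hb' ha'
  · exact key 0 a b h0' h1.2 h2.1 ha' hab'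
  · exact key 0 b a h0' h2.2 h1.1 hb' hab'

/-- two equal chords on the same line coincide -/
theorem same_height {K : Set (ℝ × ℝ)} (hK : IsCompact K) (hs : StrictConvex ℝ K) (m l : ℝ)
    (hl : l ≠ 0) (x y : ℝ × ℝ) (hx : x ∈ frontier K) (hx' : x + l • ((1, m) : ℝ × ℝ) ∈ frontier K)
    (hy : y ∈ frontier K) (hy' : y + l • ((1, m) : ℝ × ℝ) ∈ frontier K)
    (hxy : x.2 - m * x.1 = y.2 - m * y.1) : x = y := by
  have hu : ((1, m) : ℝ × ℝ) ≠ 0 := by
    intro h; have := congrArg Prod.fst h; simp at this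
  set s : ℝ := y.1 - x.1 with hsdef
  have hyx : y = x + s • ((1, m) : ℝ × ℝ) := by
    ext
    · simp [hsdef]
    · simp only [hsdef, Prod.snd_add, Prod.smul_snd, smul_eq_mul]; linarith
  by_contra hne
  have hs0 : s ≠ 0 := by
    intro h; apply hne; rw [hyx, h]; simp
  have e1 : l = s := collinear_three hK hs x _ hu hx hx' (hyx ▸ hy) hl hs0
  have hy2 : x + (s + l) • ((1, m) : ℝ × ℝ) ∈ frontier K := by
    rw [add_smul, ← add_assoc, ← hyx]; exact hy'
  have hsl : s + l ≠ 0 := by rw [e1]; intro h; apply hs0; linarith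
  have e2 : s = s + l := collinear_three hK hs x _ hu hx (hyx ▸ hy) hy2 hs0 hsl
  apply hl; linarith

theorem three_chords {K : Set (ℝ × ℝ)} (hK : IsCompact K) (hs : StrictConvex ℝ K) (m l : ℝ)
    (hl : 0 < l) (x y z : ℝ × ℝ) (hx : x ∈ frontier K) (hx' : x + l • ((1, m) : ℝ × ℝ) ∈ frontier K)
    (hy : y ∈ frontier K) (hy' : y + l • ((1, m) : ℝ × ℝ) ∈ frontier K)
    (hz : z ∈ frontier K) (hz' : z + l • ((1, m) : ℝ × ℝ) ∈ frontier K)
    (hxy : x ≠ y) (hyz : y ≠ z) (hxz : x ≠ z) : False := by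
  have nxy : x.2 - m * x.1 ≠ y.2 - m * y.1 := fun h => hxy (same_height hK hs m l hl.ne' x y hx hx' hy hy' h)
  have nyz : y.2 - m * y.1 ≠ z.2 - m * z.1 := fun h => hyz (same_height hK hs m l hl.ne' y z hy hy' hz hz' h)
  have nxz : x.2 - m * x.1 ≠ z.2 - m * z.1 := fun h => hxz (same_height hK hs m l hl.ne' x z hx hx' hz hz' h)
  rcases lt_or_gt_of_ne nxy with h1 | h1 <;> rcases lt_or_gt_of_ne nyz with h2 | h2 <;>
    rcases lt_or_gt_of_ne nxz with h3 | h3
  · exact three_sorted hK hs m l hl x y z hx hx' hy hy' hz hz' h1 h2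
  · linarith
  · exact three_sorted hK hs m l hl x z y hx hx' hz hz' hy hy' h3 h2
  · exact three_sorted hK hs m l hl z x y hz hz' hx hx' hy hy' h3 h1
  · exact three_sorted hK hs m l hl y x z hy hy' hx hx' hz hz' h1 h3
  · exact three_sorted hK hs m l hl y z x hy hy' hz hz' hx hx' h2 h3
  · linarith
  · exact three_sorted hK hs m l hl z y x hz hz' hy hy' hx hx' h2 h1

/-- strip statement for a chord satisfying the second alternative -/
theorem strip {K : Set (ℝ × ℝ)} (hK : IsCompact K) (hs : StrictConvex ℝ K) (m l w : ℝ)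
    (hl : 0 < l) (v : ℝ × ℝ) (hw : det2 (1, m) v = w) (hw0 : 0 < w) (x : ℝ × ℝ)
    (hx : x ∈ frontier K) (hx' : x + l • ((1, m) : ℝ × ℝ) ∈ frontier K)
    (hb : ∀ t : ℝ, x + t • v ∈ frontier K → t = 0)
    (hb' : ∀ t : ℝ, x + l • ((1, m) : ℝ × ℝ) + t • v ∈ frontier K → t = 0) :
    ∀ z ∈ K, 0 ≤ det2 (z - x) v ∧ det2 (z - x) v ≤ l * w ∧ (det2 (z - x) v = 0 → z = x) := by
  have hv : v ≠ 0 := by
    intro h; rw [h] at hw; simp [det2] at hw; linarith
  have hfr : frontier K = K \ interior K := hK.isClosed.frontier_eq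
  -- a line with one frontier point through c misses the interior
  have miss : ∀ c : ℝ × ℝ, c ∈ frontier K → (∀ t : ℝ, c + t • v ∈ frontier K → t = 0) →
      ∀ t : ℝ, c + t • v ∉ interior K := by
    intro c hc hcb t ht
    have ht0 : t ≠ 0 := by
      rintro rfl
      rw [hfr] at hc
      exact hc.2 (by simpa using ht)
    -- the set of parameters
    set S : Set ℝ := {r | c + (t + r * t) • v ∈ K ∧ 0 ≤ r} with hS
    have hSne : (0 : ℝ) ∈ S := ⟨by simpa using interior_subset ht, le_rfl⟩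
    have hbd : BddAbove S := by
      obtain ⟨R, hR⟩ := hK.isBounded.exists_norm_le
      have hvn : 0 < ‖v‖ := norm_pos_iff.2 hv
      have htn : 0 < |t| := abs_pos.2 ht0
      refine ⟨(R + ‖c‖) / (|t| * ‖v‖), ?_⟩
      rintro r ⟨h1, h2⟩
      have h3 := hR _ h1
      have h4 : ‖(t + r * t) • v‖ ≤ R + ‖c‖ := by
        calc ‖(t + r * t) • v‖ = ‖(c + (t + r * t) • v) - c‖ := by congr 1; abel
          _ ≤ ‖c + (t + r * t) • v‖ + ‖c‖ := norm_sub_le _ _
          _ ≤ R + ‖c‖ := by linarith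
      rw [norm_smul, Real.norm_eq_abs, show t + r * t = (1 + r) * t by ring, abs_mul,
        abs_of_pos (by linarith : (0 : ℝ) < 1 + r)] at h4
      rw [le_div_iff₀ (by positivity)]
      nlinarith [mul_pos htn hvn]
    have hcl : IsClosed S := by
      have : S = (fun r : ℝ => c + (t + r * t) • v) ⁻¹' K ∩ Set.Ici 0 := by
        ext r; simp [hS]
      rw [this]
      exact (hK.isClosed.preimage (by fun_prop)).inter isClosed_Ici
    have hmem : sSup S ∈ S := hcl.csSup_mem ⟨0, hSne⟩ hbd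
    have hnot : c + (t + sSup S * t) • v ∉ interior K := by
      intro hint
      obtain ⟨ε, hε, h1, h2⟩ := int_extend hint (t • v)
      have : sSup S + ε ∈ S := by
        refine ⟨?_, by linarith [hmem.2]⟩
        have e : c + (t + (sSup S + ε) * t) • v = c + (t + sSup S * t) • v + ε • t • v := by
          rw [smul_smul, add_assoc, ← add_smul]; congr 2; ring
        rw [e]; exact h1
      linarith [le_csSup hbd this]
    have := hcb (t + sSup S * t) (by rw [hfr]; exact ⟨hmem.1, hnot⟩)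
    have h5 : t * (1 + sSup S) = 0 := by linarith
    rcases mul_eq_zero.1 h5 with h6 | h6
    · exact ht0 h6
    · linarith [hmem.2]
  have m1 := miss x hx hb
  have m2 := miss _ hx' hb'
  rw [hfr] at hx hx'
  have hdet : ∀ z : ℝ × ℝ, ∀ c : ℝ × ℝ, det2 (z - c) v = 0 → ∃ t : ℝ, z = c + t • v := by
    intro z c h
    have hne : v.1 ≠ 0 ∨ v.2 ≠ 0 := by
      by_contra hcon
      push Not at hcon
      exact hv (Prod.ext hcon.1 hcon.2)
    simp only [det2, Prod.fst_sub, Prod.snd_sub] at h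
    rcases hne with h1 | h1
    · refine ⟨(z.1 - c.1) / v.1, ?_⟩
      ext
      · simp only [Prod.fst_add, Prod.smul_fst, smul_eq_mul]; field_simp; ring
      · simp only [Prod.snd_add, Prod.smul_snd, smul_eq_mul]; field_simp; linarith
    · refine ⟨(z.2 - c.2) / v.2, ?_⟩
      ext
      · simp only [Prod.fst_add, Prod.smul_fst, smul_eq_mul]; field_simp; linarith
      · simp only [Prod.snd_add, Prod.smul_snd, smul_eq_mul]; field_simp; ring
  have hlin : ∀ z c : ℝ × ℝ, ∀ r : ℝ, det2 (c + r • (z - c)) v = det2 c v + r * det2 (z - c) v := by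
    intro z c r
    simp only [det2, Prod.fst_add, Prod.snd_add, Prod.smul_fst, Prod.smul_snd, Prod.fst_sub,
      Prod.snd_sub, smul_eq_mul]
    ring
  have hsub : ∀ z c : ℝ × ℝ, det2 (z - c) v = det2 z v - det2 c v := by
    intro z c
    simp only [det2, Prod.fst_sub, Prod.snd_sub]; ring
  have hxl : det2 (x + l • ((1, m) : ℝ × ℝ)) v = det2 x v + l * w := by
    rw [← hw]
    simp only [det2, Prod.fst_add, Prod.snd_add, Prod.smul_fst, Prod.smul_snd, smul_eq_mul]
    ring
  -- crossing lemma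
  have cross : ∀ a b c : ℝ × ℝ, a ∈ K → b ∈ K → (∀ t : ℝ, c + t • v ∉ interior K) →
      det2 a v < det2 c v → det2 c v < det2 b v → False := by
    intro a b c ha hb hc h1 h2
    have hab : b - a ≠ 0 := by
      intro h
      rw [sub_eq_zero.1 h] at h2; linarith
    have hD : 0 < det2 (b - a) v := by rw [hsub]; linarith
    set r : ℝ := (det2 c v - det2 a v) / det2 (b - a) v with hr
    have hr0 : 0 < r := div_pos (by linarith) hD
    have hr1 : r < 1 := by rw [hr, div_lt_one hD, hsub]; linarith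
    have hint : a + r • (b - a) ∈ interior K := by
      refine line_int hs a (b - a) hab (s := 0) (t := 1) (by simpa using ha) (by simpa using hb)
        hr0 hr1
    obtain ⟨t, ht⟩ := hdet (a + r • (b - a)) c (by
      rw [hsub, hlin, hr]; field_simp; ring)
    rw [ht] at hint
    exact hc t hint
  intro z hz
  refine ⟨?_, ?_, ?_⟩
  · by_contra hcon
    push Not at hcon
    rw [hsub] at hcon
    exact cross z (x + l • ((1, m) : ℝ × ℝ)) x hz hx'.1 m1 (by linarith)
      (by rw [hxl]; nlinarith)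
  · by_contra hcon
    push Not at hcon
    rw [hsub] at hcon
    exact cross x z (x + l • ((1, m) : ℝ × ℝ)) hx.1 hz m2 (by rw [hxl]; nlinarith)
      (by rw [hxl]; linarith)
  · intro h0
    obtain ⟨t, ht⟩ := hdet z x h0
    by_contra hne
    have ht0 : t ≠ 0 := by rintro rfl; apply hne; rw [ht]; simp
    rcases lt_or_gt_of_ne ht0 with h | h
    · exact m1 (t / 2) (line_int hs x v hv (s := t) (t := 0) (ht ▸ hz) (by simpa using hx.1)
        (by linarith) (by linarith))
    · exact m1 (t / 2) (line_int hs x v hv (s := 0) (t := t) (by simpa using hx.1) (ht ▸ hz)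
        (by linarith) (by linarith))

/-- existence of the chord involution -/
theorem exists_inv (K : Set (ℝ × ℝ)) (u : ℝ × ℝ) (hu : u ≠ 0) : ∃ σ : ℝ × ℝ → ℝ × ℝ,
    (∀ x ∈ frontier K, σ x ∈ frontier K ∧ (∃ t : ℝ, σ x = x + t • u) ∧
      (σ x = x → ∀ t : ℝ, x + t • u ∈ frontier K → t = 0)) := by
  classical
  have : ∀ x : ℝ × ℝ, ∃ y, x ∈ frontier K → (y ∈ frontier K ∧ (∃ t : ℝ, y = x + t • u) ∧
      (y = x → ∀ t : ℝ, x + t • u ∈ frontier K → t = 0)) := by
    intro x
    by_cases h : ∃ t : ℝ, t ≠ 0 ∧ x + t • u ∈ frontier K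
    · obtain ⟨t, h1, h2⟩ := h
      refine ⟨x + t • u, fun _ => ⟨h2, ⟨t, rfl⟩, fun h3 => ?_⟩⟩
      have : t • u = 0 := by simpa using h3
      rcases smul_eq_zero.1 this with h4 | h4
      · exact absurd h4 h1
      · exact absurd h4 hu
    · push Not at h
      refine ⟨x, fun hx => ⟨hx, ⟨0, by simp⟩, fun _ t ht => ?_⟩⟩
      by_contra hne
      exact h t hne ht
  choose σ hσ using this
  exact ⟨σ, hσ⟩

/-- Convex geometry part. `p`, `q` are the top and bottom points of `K` for the slope `m`. -/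
theorem chord_geometry (K : Set (ℝ × ℝ)) (hK : IsCompact K) (hs : StrictConvex ℝ K)
    (hi : (interior K).Nonempty)
    (hconj : ∀ u v : ℝ × ℝ, u ≠ 0 → v ≠ 0 → ∀ σu σv : ℝ × ℝ → ℝ × ℝ,
        (∀ x ∈ frontier K, σu x ∈ frontier K ∧ (∃ t : ℝ, σu x = x + t • u) ∧
            (σu x = x → ∀ t : ℝ, x + t • u ∈ frontier K → t = 0)) →
        (∀ x ∈ frontier K, σv x ∈ frontier K ∧ (∃ t : ℝ, σv x = x + t • v) ∧
            (σv x = x → ∀ t : ℝ, x + t • v ∈ frontier K → t = 0)) →
        ∃ h : ℝ × ℝ → AddCircle (1 : ℝ), ∃ α : AddCircle (1 : ℝ),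
          ContinuousOn h (frontier K) ∧ Set.BijOn h (frontier K) Set.univ ∧
            ∀ x ∈ frontier K, h (σv (σu x)) = h x + α)
    (m : ℝ) (p q : ℝ × ℝ) (hp : p ∈ K) (hpm : ∀ z ∈ K, z.2 - m * z.1 ≤ p.2 - m * p.1)
    (hq : q ∈ K) (hqm : ∀ z ∈ K, q.2 - m * q.1 ≤ z.2 - m * z.1) :
    (∀ (l : ℝ) (x y : ℝ × ℝ), l ≠ 0 → x ∈ frontier K → y ∈ frontier K →
        (x.1 + l, x.2 + l * m) ∈ frontier K → (y.1 + l, y.2 + l * m) ∈ frontier K → x ≠ y →
        det2 (y - x) (p - q) = 0) ∧
    (∃ R : ℝ, 0 < R ∧ ∃ x ∈ K, (x.1 + R, x.2 + R * m) ∈ K ∧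
        ∀ z ∈ K, ∀ z' ∈ K,
          det2 (z - z') (p - q) ≤ R * ((p.2 - m * p.1) - (q.2 - m * q.1))) := by
  have hfr : frontier K = K \ interior K := hK.isClosed.frontier_eq
  have hfK : ∀ {z}, z ∈ frontier K → z ∈ K := fun h => by rw [hfr] at h; exact h.1
  have hu : ((1, m) : ℝ × ℝ) ≠ 0 := by
    intro h; have := congrArg Prod.fst h; simp at this
  -- width in the direction of the functional
  have hup : ∀ z ∈ interior K, ∃ ε : ℝ, 0 < ε ∧ z + ε • ((0, 1) : ℝ × ℝ) ∈ K ∧
      z + (-ε) • ((0, 1) : ℝ × ℝ) ∈ K := fun z hz => int_extend hz _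
  have hpi : p ∉ interior K := by
    intro h
    obtain ⟨ε, hε, h1, _⟩ := hup p h
    have := hpm _ h1
    simp only [Prod.snd_add, Prod.fst_add, Prod.smul_snd, Prod.smul_fst, smul_eq_mul] at this
    linarith
  have hqi : q ∉ interior K := by
    intro h
    obtain ⟨ε, hε, _, h1⟩ := hup q h
    have := hqm _ h1
    simp only [Prod.snd_add, Prod.fst_add, Prod.smul_snd, Prod.smul_fst, smul_eq_mul] at this
    linarith
  have hpf : p ∈ frontier K := by rw [hfr]; exact ⟨hp, hpi⟩
  have hqf : q ∈ frontier K := by rw [hfr]; exact ⟨hq, hqi⟩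
  set w : ℝ := (p.2 - m * p.1) - (q.2 - m * q.1) with hwdef
  have hw0 : 0 < w := by
    obtain ⟨z, hz⟩ := hi
    obtain ⟨ε, hε, h1, _⟩ := hup z hz
    have h2 := hpm _ h1
    have h3 := hqm _ (interior_subset hz)
    simp only [Prod.snd_add, Prod.fst_add, Prod.smul_snd, Prod.smul_fst, smul_eq_mul] at h2
    rw [hwdef]; linarith
  set v : ℝ × ℝ := p - q with hvdef
  have hw : det2 (1, m) v = w := by
    simp only [det2, hvdef, Prod.fst_sub, Prod.snd_sub, hwdef]; ring
  have hv : v ≠ 0 := by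
    intro h; rw [h] at hw; simp [det2] at hw; linarith
  -- the extreme points have no partner in the direction u
  have hpu : ∀ t : ℝ, p + t • ((1, m) : ℝ × ℝ) ∈ frontier K → t = 0 := by
    intro t ht
    by_contra hne
    have key : p + (t / 2) • ((1, m) : ℝ × ℝ) ∈ interior K := by
      have hp0 : p + (0 : ℝ) • ((1, m) : ℝ × ℝ) ∈ K := by simpa using hp
      rcases lt_or_gt_of_ne hne with h | h
      · exact line_int hs p _ hu (hfK ht) hp0 (by linarith) (by linarith)
      · exact line_int hs p _ hu hp0 (hfK ht) (by linarith) (by linarith)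
    obtain ⟨ε, hε, h1, _⟩ := hup _ key
    have := hpm _ h1
    simp only [Prod.snd_add, Prod.fst_add, Prod.smul_snd, Prod.smul_fst, smul_eq_mul] at this
    nlinarith
  have hqu : ∀ t : ℝ, q + t • ((1, m) : ℝ × ℝ) ∈ frontier K → t = 0 := by
    intro t ht
    by_contra hne
    have key : q + (t / 2) • ((1, m) : ℝ × ℝ) ∈ interior K := by
      have hp0 : q + (0 : ℝ) • ((1, m) : ℝ × ℝ) ∈ K := by simpa using hq
      rcases lt_or_gt_of_ne hne with h | h
      · exact line_int hs q _ hu (hfK ht) hp0 (by linarith) (by linarith)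
      · exact line_int hs q _ hu hp0 (hfK ht) (by linarith) (by linarith)
    obtain ⟨ε, hε, _, h1⟩ := hup _ key
    have := hqm _ h1
    simp only [Prod.snd_add, Prod.fst_add, Prod.smul_snd, Prod.smul_fst, smul_eq_mul] at this
    nlinarith
  -- the involutions
  obtain ⟨σu, hσu⟩ := exists_inv K (1, m) hu
  obtain ⟨σv, hσv⟩ := exists_inv K v hv
  obtain ⟨h, α, -, hbij, hrot⟩ := hconj _ v hu hv σu σv hσu hσv
  -- uniqueness
  have huniq : ∀ (d : ℝ × ℝ) (σ : ℝ × ℝ → ℝ × ℝ), d ≠ 0 →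
      (∀ x ∈ frontier K, σ x ∈ frontier K ∧ (∃ t : ℝ, σ x = x + t • d) ∧
            (σ x = x → ∀ t : ℝ, x + t • d ∈ frontier K → t = 0)) →
      ∀ x ∈ frontier K, ∀ t : ℝ, t ≠ 0 → x + t • d ∈ frontier K → σ x = x + t • d := by
    intro d σ hd hσ x hx t ht hxt
    obtain ⟨h1, ⟨s, h2⟩, h3⟩ := hσ x hx
    have hs0 : s ≠ 0 := by
      rintro rfl
      exact ht (h3 (by rw [h2]; simp) t hxt)
    have := collinear_three hK hs x d hd hx (h2 ▸ h1) hxt hs0 ht
    rw [h2, this]
  have hfix : ∀ (d : ℝ × ℝ) (σ : ℝ × ℝ → ℝ × ℝ),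
      (∀ x ∈ frontier K, σ x ∈ frontier K ∧ (∃ t : ℝ, σ x = x + t • d) ∧
            (σ x = x → ∀ t : ℝ, x + t • d ∈ frontier K → t = 0)) →
      ∀ x ∈ frontier K, (∀ t : ℝ, x + t • d ∈ frontier K → t = 0) → σ x = x := by
    intro d σ hσ x hx hu'
    obtain ⟨h1, ⟨s, h2⟩, h3⟩ := hσ x hx
    have : s = 0 := hu' s (h2 ▸ h1)
    rw [h2, this]; simp
  have e1 : σu p = p := hfix _ σu hσu p hpf hpu
  have e2 : σu q = q := hfix _ σu hσu q hqf hqu
  have e3 : σv p = q := by
    have := huniq v σv hv hσv p hpf (-1) (by norm_num) (by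
      have : p + (-1 : ℝ) • v = q := by rw [hvdef]; simp
      rw [this]; exact hqf)
    rw [this, hvdef]; simp
  have e4 : σv q = p := by
    have := huniq v σv hv hσv q hqf 1 (by norm_num) (by
      have : q + (1 : ℝ) • v = p := by rw [hvdef]; simp
      rw [this]; exact hpf)
    rw [this, hvdef]; simp
  have hα : α + α = 0 := by
    have h1 := hrot p hpf
    have h2 := hrot q hqf
    rw [e1, e3] at h1
    rw [e2, e4, h1, add_assoc] at h2
    exact (left_eq_add.1 h2)
  have hmem : ∀ x ∈ frontier K, σv (σu x) ∈ frontier K := fun x hx => (hσv _ (hσu x hx).1).1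
  have hinv : ∀ x ∈ frontier K, σv (σu (σv (σu x))) = x := by
    intro x hx
    apply hbij.2.1 (hmem _ (hmem x hx)) hx
    rw [hrot _ (hmem x hx), hrot x hx, add_assoc, hα, add_zero]
  -- independence
  have hind : ∀ a b : ℝ, a • ((1, m) : ℝ × ℝ) + b • v = 0 → a = 0 ∧ b = 0 := by
    intro a b hab
    have h1 : a * w = 0 := by
      have : det2 (a • ((1, m) : ℝ × ℝ) + b • v) v = a * w := by
        rw [← hw]
        simp only [det2, Prod.snd_add, Prod.fst_add, Prod.smul_snd, Prod.smul_fst, smul_eq_mul]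
        ring
      rw [← this, hab]; simp [det2]
    have ha : a = 0 := by
      rcases mul_eq_zero.1 h1 with h | h
      · exact h
      · linarith
    refine ⟨ha, ?_⟩
    rw [ha, zero_smul, zero_add] at hab
    rcases smul_eq_zero.1 hab with h | h
    · exact h
    · exact absurd h hv
  -- the dichotomy
  have claim : ∀ (x : ℝ × ℝ) (l : ℝ), l ≠ 0 → x ∈ frontier K →
      x + l • ((1, m) : ℝ × ℝ) ∈ frontier K →
      (∃ t : ℝ, t ≠ 0 ∧ x + t • v ∈ frontier K ∧ x + t • v + l • ((1, m) : ℝ × ℝ) ∈ frontier K) ∨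
      ((∀ t : ℝ, x + t • v ∈ frontier K → t = 0) ∧
        ∀ t : ℝ, x + l • ((1, m) : ℝ × ℝ) + t • v ∈ frontier K → t = 0) := by
    intro x l hl hx hxl
    have f1 : σu x = x + l • ((1, m) : ℝ × ℝ) := huniq _ σu hu hσu x hx l hl hxl
    obtain ⟨g1, ⟨t, g2⟩, g3⟩ := hσv _ hxl
    obtain ⟨k1, ⟨s', k2⟩, k3⟩ := hσu _ g1
    obtain ⟨j1, ⟨t', j2⟩, j3⟩ := hσv _ k1
    have hx4 := hinv x hx
    rw [f1] at hx4
    rw [hx4] at j2 j3
    rw [k2, g2] at j2
    have hz : (l + s') • ((1, m) : ℝ × ℝ) + (t + t') • v = 0 := by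
      have : x + ((l + s') • ((1, m) : ℝ × ℝ) + (t + t') • v) = x := by
        conv_rhs => rw [j2]
        rw [add_smul, add_smul]; abel
      simpa using this
    obtain ⟨z1, z2⟩ := hind _ _ hz
    have hs' : s' = -l := by linarith
    have hx3 : σu (σv (x + l • ((1, m) : ℝ × ℝ))) = x + t • v := by
      rw [k2, g2, hs', neg_smul]; abel
    by_cases ht : t = 0
    · right
      refine ⟨?_, ?_⟩
      · have hh : σu (σv (x + l • ((1, m) : ℝ × ℝ))) = x := by rw [hx3, ht]; simp
        rw [hh] at j3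
        exact j3 rfl
      · apply g3
        rw [g2, ht]; simp
    · left
      refine ⟨t, ht, ?_, ?_⟩
      · rw [← hx3]; exact k1
      · have : x + t • v + l • ((1, m) : ℝ × ℝ) = σv (x + l • ((1, m) : ℝ × ℝ)) := by
          rw [g2]; abel
        rw [this]; exact g1
  have hdetv : ∀ t : ℝ, ∀ x : ℝ × ℝ, det2 (x + t • v - x) v = 0 := by
    intro t x
    simp only [add_sub_cancel_left, det2, Prod.smul_snd, Prod.smul_fst, smul_eq_mul]; ring
  -- first part for positive l
  have first : ∀ (l : ℝ) (x y : ℝ × ℝ), 0 < l → x ∈ frontier K → y ∈ frontier K →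
      x + l • ((1, m) : ℝ × ℝ) ∈ frontier K → y + l • ((1, m) : ℝ × ℝ) ∈ frontier K → x ≠ y →
      det2 (y - x) v = 0 := by
    intro l x y hl hx hy hxl hyl hne
    rcases claim x l hl.ne' hx hxl with ⟨t, ht, h1, h2⟩ | ⟨h1, h2⟩
    · by_cases hyt : y = x + t • v
      · rw [hyt]; exact hdetv t x
      · exfalso
        refine three_chords hK hs m l hl x (x + t • v) y hx hxl h1 h2 hy hyl ?_ (Ne.symm hyt) hne
        intro h
        have : t • v = 0 := by simpa using h.symm
        rcases smul_eq_zero.1 this with h4 | h4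
        · exact ht h4
        · exact hv h4
    · exfalso
      have hst := strip hK hs m l w hl v hw hw0 x hx hxl h1 h2
      have s1 := (hst y (hfK hy))
      have s2 := (hst _ (hfK hyl)).2.1
      have : det2 (y + l • ((1, m) : ℝ × ℝ) - x) v = det2 (y - x) v + l * w := by
        rw [← hw]
        simp only [det2, Prod.snd_add, Prod.fst_add, Prod.snd_sub, Prod.fst_sub, Prod.smul_snd,
          Prod.smul_fst, smul_eq_mul]
        ring
      rw [this] at s2
      exact hne (s1.2.2 (le_antisymm (by linarith) s1.1)).symm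
  have hpt : ∀ (z : ℝ × ℝ) (l : ℝ), ((z.1 + l, z.2 + l * m) : ℝ × ℝ) = z + l • ((1, m) : ℝ × ℝ) := by
    intro z l
    ext <;> simp
  refine ⟨?_, ?_⟩
  · intro l x y hl hx hy hxl hyl hne
    rw [hpt] at hxl hyl
    rcases lt_or_gt_of_ne hl with h0 | h0
    · have := first (-l) (x + l • ((1, m) : ℝ × ℝ)) (y + l • ((1, m) : ℝ × ℝ)) (by linarith) hxl hyl
        (by rw [neg_smul, add_neg_cancel_right]; exact hx)
        (by rw [neg_smul, add_neg_cancel_right]; exact hy)
        (fun h => hne (add_right_cancel h))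
      rwa [add_sub_add_right_eq_sub] at this
    · exact first l x y h0 hx hy hxl hyl hne
  · -- longest chord
    set S : Set ((ℝ × ℝ) × (ℝ × ℝ)) := (K ×ˢ K) ∩ {a | (a.2.2 - a.1.2) = m * (a.2.1 - a.1.1)} with hS
    have hScomp : IsCompact S := (hK.prod hK).inter_right (isClosed_eq (by fun_prop) (by fun_prop))
    have hSne : S.Nonempty := ⟨(p, p), ⟨⟨hp, hp⟩, by simp⟩⟩
    obtain ⟨⟨x, y⟩, ⟨⟨hxK, hyK⟩, hxy⟩, hmax⟩ := hScomp.exists_isMaxOn hSne
      (f := fun a => a.2.1 - a.1.1) (by fun_prop)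
    simp only [mem_setOf_eq] at hxy
    set R : ℝ := y.1 - x.1 with hR
    have hyR : y = x + R • ((1, m) : ℝ × ℝ) := by
      ext
      · simp [hR]
      · simp only [Prod.snd_add, Prod.smul_snd, smul_eq_mul]; linarith
    have hmax' : ∀ (z : ℝ × ℝ) (l : ℝ), z ∈ K → z + l • ((1, m) : ℝ × ℝ) ∈ K → l ≤ R := by
      intro z l hz hzl
      have h1 : ((z, z + l • ((1, m) : ℝ × ℝ)) : (ℝ × ℝ) × (ℝ × ℝ)) ∈ S := by
        refine ⟨⟨hz, hzl⟩, ?_⟩
        simp only [mem_setOf_eq, Prod.snd_add, Prod.fst_add, Prod.smul_snd, Prod.smul_fst,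
          smul_eq_mul]
        ring
      have h2 := hmax h1
      simp only [mem_setOf_eq, Prod.fst_add, Prod.smul_fst, smul_eq_mul] at h2
      linarith
    have hgrow : ∀ (z : ℝ × ℝ) (l : ℝ), z ∈ interior K → z + l • ((1, m) : ℝ × ℝ) ∈ K → l < R := by
      intro z l hz hzl
      obtain ⟨ε, hε, _, h1⟩ := int_extend hz ((1, m) : ℝ × ℝ)
      have := hmax' (z + (-ε) • ((1, m) : ℝ × ℝ)) (l + ε) h1 (by
        have : z + (-ε) • ((1, m) : ℝ × ℝ) + (l + ε) • ((1, m) : ℝ × ℝ)
            = z + l • ((1, m) : ℝ × ℝ) := by rw [neg_smul, add_smul]; abel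
        rw [this]; exact hzl)
      linarith
    have hR0 : 0 < R := by
      obtain ⟨z, hz⟩ := hi
      exact hgrow z 0 hz (by simpa using interior_subset hz)
    have hyRK : x + R • ((1, m) : ℝ × ℝ) ∈ K := hyR ▸ hyK
    have hxf : x ∈ frontier K := by
      rw [hfr]
      exact ⟨hxK, fun h => lt_irrefl _ (hgrow x R h hyRK)⟩
    have hyf : x + R • ((1, m) : ℝ × ℝ) ∈ frontier K := by
      rw [hfr]
      refine ⟨hyRK, fun h => ?_⟩
      obtain ⟨ε, hε, h1, _⟩ := int_extend h ((1, m) : ℝ × ℝ)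
      have := hmax' x (R + ε) hxK (by rw [add_smul, ← add_assoc]; exact h1)
      linarith
    refine ⟨R, hR0, x, hxK, by rw [hpt]; exact hyRK, ?_⟩
    rcases claim x R hR0.ne' hxf hyf with ⟨t, ht, h1, h2⟩ | ⟨h1, h2⟩
    · exfalso
      have mid : ∀ c : ℝ × ℝ, c ∈ K → c + t • v ∈ K → c + (t / 2) • v ∈ interior K := by
        intro c hc hct
        have hc0 : c + (0 : ℝ) • v ∈ K := by simpa using hc
        rcases lt_or_gt_of_ne ht with h | h
        · exact line_int hs c _ hv hct hc0 (by linarith) (by linarith)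
        · exact line_int hs c _ hv hc0 hct (by linarith) (by linarith)
      have m1 := mid x hxK (hfK h1)
      have m2 := mid (x + R • ((1, m) : ℝ × ℝ)) hyRK (by
        have : x + R • ((1, m) : ℝ × ℝ) + t • v = x + t • v + R • ((1, m) : ℝ × ℝ) := by abel
        rw [this]; exact hfK h2)
      have := hgrow (x + (t / 2) • v) R m1 (by
        have : x + (t / 2) • v + R • ((1, m) : ℝ × ℝ) = x + R • ((1, m) : ℝ × ℝ) + (t / 2) • v := by
          abel
        rw [this]; exact interior_subset m2)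
      exact lt_irrefl _ this
    · have hst := strip hK hs m R w hR0 v hw hw0 x hxf hyf h1 h2
      intro z hz z' hz'
      have s1 := (hst z hz).2.1
      have s2 := (hst z' hz').1
      have : det2 (z - z') v = det2 (z - x) v - det2 (z' - x) v := by
        simp only [det2, Prod.fst_sub, Prod.snd_sub]; ring
      rw [this]; linarith

end Pool.Agent.Helper438.Oval
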