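import Mathlib

set_option autoImplicit false

open Set Filter Topology

namespace Pool.Agent.Helper438.Oval

theorem envelope_unif {a b : ℝ} {S : Set ℝ} (hS : IsCompact S) {D : ℝ → ℝ → ℝ}
    (hc : ContinuousOn (Function.uncurry D) (S ×ˢ Ioo a b)) {u v : ℝ} (hu : Icc u v ⊆ Ioo a b)
    {ε : ℝ} (hε : 0 < ε) :
    ∃ δ > 0, ∀ c ∈ S, ∀ x ∈ Icc u v, ∀ y ∈ Icc u v, |x - y| < δ → |D c x - D c y| < ε := by
  have h1 : UniformContinuousOn (Function.uncurry D) (S ×ˢ Icc u v) :=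
    (hS.prod isCompact_Icc).uniformContinuousOn_of_continuous
      (hc.mono (Set.prod_mono subset_rfl hu))
  obtain ⟨δ, hδ, h⟩ := Metric.uniformContinuousOn_iff.mp h1 ε hε
  refine ⟨δ, hδ, fun c hc x hx y hy hxy => ?_⟩
  have := h (c, x) ⟨hc, hx⟩ (c, y) ⟨hc, hy⟩ (by
    rw [Prod.dist_eq, dist_self, Real.dist_eq]
    exact max_lt hδ hxy)
  rwa [Real.dist_eq] at this

/-- max of one family minus min of another one is constant when the partial derivatives at the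
optimal parameters agree (envelope principle) -/
theorem envelope_const {a b : ℝ} {S₁ S₂ : Set ℝ} (hS₁ : IsCompact S₁) (hS₂ : IsCompact S₂)
    {φ₁ φ₂ D₁ D₂ : ℝ → ℝ → ℝ}
    (h₁ : ∀ c ∈ S₁, ∀ m ∈ Ioo a b, HasDerivAt (φ₁ c) (D₁ c m) m)
    (h₂ : ∀ c ∈ S₂, ∀ m ∈ Ioo a b, HasDerivAt (φ₂ c) (D₂ c m) m)
    (hc₁ : ContinuousOn (Function.uncurry D₁) (S₁ ×ˢ Ioo a b))
    (hc₂ : ContinuousOn (Function.uncurry D₂) (S₂ ×ˢ Ioo a b))
    (c₁ c₂ : ℝ → ℝ) (hm₁ : ∀ m ∈ Ioo a b, c₁ m ∈ S₁) (hm₂ : ∀ m ∈ Ioo a b, c₂ m ∈ S₂)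
    (hmax : ∀ m ∈ Ioo a b, ∀ c ∈ S₁, φ₁ c m ≤ φ₁ (c₁ m) m)
    (hmin : ∀ m ∈ Ioo a b, ∀ c ∈ S₂, φ₂ (c₂ m) m ≤ φ₂ c m)
    (hD : ∀ m ∈ Ioo a b, D₁ (c₁ m) m = D₂ (c₂ m) m) :
    ∀ m ∈ Ioo a b, ∀ m' ∈ Ioo a b,
      φ₁ (c₁ m) m - φ₂ (c₂ m) m = φ₁ (c₁ m') m' - φ₂ (c₂ m') m' := by
  set H : ℝ → ℝ := fun m => φ₁ (c₁ m) m - φ₂ (c₂ m) m with hH
  have hderiv : ∀ m0 ∈ Ioo a b, HasDerivAt H 0 m0 := by
    intro m0 hm0
    obtain ⟨r, hr, hball⟩ := Metric.isOpen_iff.mp isOpen_Ioo m0 hm0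
    have hK : Icc (m0 - r / 2) (m0 + r / 2) ⊆ Ioo a b := by
      intro x hx
      apply hball
      rw [Metric.mem_ball, Real.dist_eq, abs_lt]
      constructor <;> linarith [hx.1, hx.2]
    rw [hasDerivAt_iff_isLittleO]
    rw [Asymptotics.isLittleO_iff]
    intro ε hε
    obtain ⟨δ₁, hδ₁, hu₁⟩ := envelope_unif hS₁ hc₁ hK (half_pos hε)
    obtain ⟨δ₂, hδ₂, hu₂⟩ := envelope_unif hS₂ hc₂ hK (half_pos hε)
    -- one-sided estimate
    have key : ∀ m ∈ Icc (m0 - r / 2) (m0 + r / 2), ∀ m' ∈ Icc (m0 - r / 2) (m0 + r / 2),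
        |m' - m| < min δ₁ δ₂ → -(ε * |m' - m|) ≤ H m' - H m := by
      intro m hm m' hm' hdist
      have hmI := hK hm
      have hm'I := hK hm'
      have e1 := hmax m' hm'I (c₁ m) (hm₁ m hmI)
      have e2 := hmin m' hm'I (c₂ m) (hm₂ m hmI)
      have hsub : uIcc m m' ⊆ Icc (m0 - r / 2) (m0 + r / 2) := by
        apply uIcc_subset_Icc hm hm'
      have hmv := (convex_uIcc m m').norm_image_sub_le_of_norm_hasDerivWithin_le
        (f := fun x => φ₁ (c₁ m) x - φ₂ (c₂ m) x) (f' := fun x => D₁ (c₁ m) x - D₂ (c₂ m) x) (C := ε)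
        (fun x hx => ((h₁ _ (hm₁ m hmI) x (hK (hsub hx))).sub
          (h₂ _ (hm₂ m hmI) x (hK (hsub hx)))).hasDerivWithinAt)
        (fun x hx => by
          have hxm : |x - m| < min δ₁ δ₂ := by
            refine lt_of_le_of_lt ?_ hdist
            have h3 := abs_sub_left_of_mem_uIcc hx
            exact h3
          have f1 := hu₁ _ (hm₁ m hmI) x (hsub hx) m hm (lt_of_lt_of_le hxm (min_le_left _ _))
          have f2 := hu₂ _ (hm₂ m hmI) x (hsub hx) m hm (lt_of_lt_of_le hxm (min_le_right _ _))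
          have f3 := hD m hmI
          rw [Real.norm_eq_abs]
          rw [abs_lt] at f1 f2
          rw [abs_le]
          constructor <;> linarith [f1.1, f1.2, f2.1, f2.2])
        left_mem_uIcc right_mem_uIcc
      rw [Real.norm_eq_abs, Real.norm_eq_abs] at hmv
      have := (abs_le.mp hmv).1
      simp only [hH]
      linarith
    have hev : ∀ᶠ x in 𝓝 m0, |x - m0| < min (min δ₁ δ₂) (r / 2) := by
      have : Metric.ball m0 (min (min δ₁ δ₂) (r / 2)) ∈ 𝓝 m0 :=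
        Metric.ball_mem_nhds _ (lt_min (lt_min hδ₁ hδ₂) (half_pos hr))
      filter_upwards [this] with x hx
      rwa [Metric.mem_ball, Real.dist_eq] at hx
    filter_upwards [hev] with x hx
    have hx1 : |x - m0| < min δ₁ δ₂ := lt_of_lt_of_le hx (min_le_left _ _)
    have hx2 : |x - m0| < r / 2 := lt_of_lt_of_le hx (min_le_right _ _)
    have hxK : x ∈ Icc (m0 - r / 2) (m0 + r / 2) := by
      rw [abs_lt] at hx2
      constructor <;> linarith [hx2.1, hx2.2]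
    have h0K : m0 ∈ Icc (m0 - r / 2) (m0 + r / 2) := by constructor <;> linarith
    have k1 := key m0 h0K x hxK hx1
    have k2 := key x hxK m0 h0K (by rwa [abs_sub_comm])
    rw [abs_sub_comm m0 x] at k2
    rw [smul_zero, sub_zero, Real.norm_eq_abs, Real.norm_eq_abs, abs_le]
    constructor <;> linarith
  intro m hm m' hm'
  have := (convex_Ioo a b).norm_image_sub_le_of_norm_hasDerivWithin_le (f := H) (f' := fun _ => 0)
    (C := 0) (fun x hx => (hderiv x hx).hasDerivWithinAt) (fun x _ => by simp) hm' hm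
  rw [zero_mul, norm_le_zero_iff, sub_eq_zero] at this
  exact this

end Pool.Agent.Helper438.Oval
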