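import Pool.Agent.Helper438.Oval.Local
import Pool.Agent.Helper438.Oval.Envelope

set_option autoImplicit false

open Set Filter Topology Asymptotics

namespace Pool.Agent.Helper438.Oval

theorem exists_window {δ X₀ : ℝ} {f Φ : ℝ → ℝ}
    (hΦ : ∀ x ∈ Ioo (X₀ - δ) (X₀ + δ), HasDerivAt Φ (f x) x) (ε m l : ℝ) (hl : 0 < l)
    (hl' : l < δ / 4) : ∃ c ∈ Icc (X₀ - δ / 2) (X₀ + δ / 2),
      ∀ c' ∈ Icc (X₀ - δ / 2) (X₀ + δ / 2),
      ε * (Φ (c' + l / 2) - Φ (c' - l / 2) - m * c' * l) ≤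
        ε * (Φ (c + l / 2) - Φ (c - l / 2) - m * c * l) := by
  have hne : (Icc (X₀ - δ / 2) (X₀ + δ / 2)).Nonempty := ⟨X₀, by constructor <;> linarith⟩
  have hcont : ContinuousOn (fun c : ℝ => ε * (Φ (c + l / 2) - Φ (c - l / 2) - m * c * l))
      (Icc (X₀ - δ / 2) (X₀ + δ / 2)) := by
    intro c hc
    have h1 : ContinuousAt (fun c : ℝ => Φ (c + l / 2)) c :=
      ((hΦ (c + l / 2) ⟨by linarith [hc.1], by linarith [hc.2]⟩).comp_add_const c _).continuousAt
    have h2 : ContinuousAt (fun c : ℝ => Φ (c - l / 2)) c :=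
      ((hΦ (c - l / 2) ⟨by linarith [hc.1], by linarith [hc.2]⟩).comp_sub_const c _).continuousAt
    have h3 : ContinuousAt (fun c : ℝ => m * c * l) c := by fun_prop
    exact (((h1.sub h2).sub h3).const_mul ε).continuousWithinAt
  obtain ⟨c, hc, hmax⟩ := isCompact_Icc.exists_isMaxOn hne hcont
  exact ⟨c, hc, fun c' hc' => hmax hc'⟩

theorem exists_antideriv {δ X₀ : ℝ} {f : ℝ → ℝ} (hδ : 0 < δ)
    (hf : ∀ x ∈ Ioo (X₀ - δ) (X₀ + δ), ContDiffAt ℝ oo f x) :
    ∃ Φ : ℝ → ℝ, ∀ x ∈ Ioo (X₀ - δ) (X₀ + δ), HasDerivAt Φ (f x) x := by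
  refine ⟨fun x => ∫ y in X₀..x, f y, fun x hx => ?_⟩
  have hsub : uIcc X₀ x ⊆ Ioo (X₀ - δ) (X₀ + δ) := by
    have h0 : X₀ ∈ Ioo (X₀ - δ) (X₀ + δ) := ⟨by linarith, by linarith⟩
    exact (ordConnected_Ioo.uIcc_subset h0 hx)
  have hcont : ContinuousOn f (Ioo (X₀ - δ) (X₀ + δ)) := fun y hy =>
    (hf y hy).continuousAt.continuousWithinAt
  apply intervalIntegral.integral_hasDerivAt_right
  · exact (hcont.mono hsub).intervalIntegrable
  · exact hcont.stronglyMeasurableAtFilter isOpen_Ioo x hx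
  · exact (hf x hx).continuousAt

section

variable {K : Set (ℝ × ℝ)} {p q : ℝ → ℝ × ℝ}

theorem pq_ne (hi : (interior K).Nonempty) (Sp : Side K 1 p) (Sq : Side K (-1) q) (m' m'' : ℝ) :
    p m' ≠ q m'' := by
  intro heq
  obtain ⟨δ, hδ, f, hf0, hf1, hf⟩ := Sp.graph m'
  have hmem : (p m').1 ∈ Ioo ((p m').1 - δ) ((p m').1 + δ) := ⟨by linarith, by linarith⟩
  have hmin : IsLocalMin (fun x => f x - m'' * x) (p m').1 := by
    have hn : Ioo ((p m').1 - δ) ((p m').1 + δ) ∈ 𝓝 (p m').1 := Ioo_mem_nhds hmem.1 hmem.2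
    filter_upwards [hn] with x hx
    have h1 : (x, f x) ∈ K := by rw [← (hf x hx).2.1]; exact (Sp.top _).1
    have h2 := (Sq.top m'').2 _ h1
    rw [← heq] at h2
    simp only at h2
    rw [hf0]
    linarith
  have hd : HasDerivAt (fun x => f x - m'' * x) (m' - m'' * 1) (p m').1 := by
    have h1 := hasDerivAt_of_oo (hf _ hmem).1
    rw [hf1] at h1
    exact h1.sub ((hasDerivAt_id _).const_mul m'')
  have h3 := hmin.hasDerivAt_eq_zero hd
  have h4 : m' = m'' := by linarith
  have h5 := width_pos hi Sp.top Sq.top m''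
  rw [h4] at heq
  unfold width at h5
  rw [heq] at h5
  linarith

theorem local_const (hK : IsCompact K) (hs : StrictConvex ℝ K) (hi : (interior K).Nonempty)
    (Sp : Side K 1 p) (Sq : Side K (-1) q)
    (hH : ∀ (m l : ℝ) (x y : ℝ × ℝ), l ≠ 0 → x ∈ frontier K → y ∈ frontier K →
        (x.1 + l, x.2 + l * m) ∈ frontier K → (y.1 + l, y.2 + l * m) ∈ frontier K → x ≠ y →
        det2 (y - x) (p m - q m) = 0) (m₀ : ℝ) :
    ∃ η > 0, ∃ H : ℝ → ℝ, ∀ m ∈ Ioo (m₀ - η) (m₀ + η),
      Tendsto (fun t => (H t - (t - (alpha 1 p m + alpha (-1) q m) / width p q m ^ 3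
        * t ^ 3 / 24)) / t ^ 5) (𝓝[>] (0 : ℝ))
        (𝓝 ((coef (alpha 1 p) m + coef (alpha (-1) q) m) / width p q m ^ 5)) := by
  obtain ⟨δ₁, hδ₁, f, hf, hmf⟩ := Sp.deriv_props m₀
  obtain ⟨δ₂, hδ₂, g, hg, hmg⟩ := Sq.deriv_props m₀
  set X₀ := (p m₀).1 with hX₀
  set Y₀ := (q m₀).1 with hY₀
  obtain ⟨Φ, hΦ⟩ := exists_antideriv hδ₁ (fun x hx => (hf x hx).1)
  obtain ⟨Ψ, hΨ⟩ := exists_antideriv hδ₂ (fun x hx => (hg x hx).1)
  have hwd : ∀ m, HasDerivAt (width p q) ((q m).1 - (p m).1) m := fun m =>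
    width_hasDerivAt hK hs Sp.top Sq.top m
  have hwc : Continuous (width p q) := by
    rw [continuous_iff_continuousAt]; exact fun m => (hwd m).continuousAt
  have hwpos : ∀ m, 0 < width p q m := fun m => width_pos hi Sp.top Sq.top m
  set w₀ := width p q m₀ with hw₀
  have hw₀pos : 0 < w₀ := hwpos m₀
  -- neighbourhood
  have evX : ∀ᶠ m in 𝓝 m₀, |(p m).1 - X₀| < δ₁ / 4 := by
    have h1 : ContinuousAt (fun m => |(p m).1 - X₀|) m₀ := by
      have := Sp.cont
      fun_prop
    apply h1.eventually (gt_mem_nhds _)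
    simp only [hX₀, sub_self, abs_zero]
    linarith
  have evY : ∀ᶠ m in 𝓝 m₀, |(q m).1 - Y₀| < δ₂ / 4 := by
    have h1 : ContinuousAt (fun m => |(q m).1 - Y₀|) m₀ := by
      have := Sq.cont
      fun_prop
    apply h1.eventually (gt_mem_nhds _)
    simp only [hY₀, sub_self, abs_zero]
    linarith
  have evw : ∀ᶠ m in 𝓝 m₀, w₀ / 2 < width p q m := by
    apply hwc.continuousAt.eventually (lt_mem_nhds _)
    linarith
  obtain ⟨η, hη, hball⟩ := Metric.eventually_nhds_iff_ball.mp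
    (evX.and (evY.and (evw.and (hmf.and hmg))))
  have hN : ∀ m ∈ Ioo (m₀ - η) (m₀ + η), |(p m).1 - X₀| < δ₁ / 4 ∧ |(q m).1 - Y₀| < δ₂ / 4 ∧
      w₀ / 2 < width p q m ∧
      ((p m).1 ∈ Ioo (X₀ - δ₁) (X₀ + δ₁) ∧ deriv f (p m).1 = m ∧ f (p m).1 = (p m).2 ∧
        deriv (deriv f) (p m).1 * deriv (fun m => (p m).1) m = 1) ∧
      ((q m).1 ∈ Ioo (Y₀ - δ₂) (Y₀ + δ₂) ∧ deriv g (q m).1 = m ∧ g (q m).1 = (q m).2 ∧
        deriv (deriv g) (q m).1 * deriv (fun m => (q m).1) m = 1) := by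
    intro m hm
    apply hball
    rw [Metric.mem_ball, Real.dist_eq, abs_lt]
    constructor <;> linarith [hm.1, hm.2]
  set t₀ : ℝ := w₀ / 2 * (min δ₁ δ₂ / 4) with ht₀
  have hmin : 0 < min δ₁ δ₂ := lt_min hδ₁ hδ₂
  have ht₀pos : 0 < t₀ := by positivity
  have hl : ∀ t m, 0 < t → t < t₀ → m ∈ Ioo (m₀ - η) (m₀ + η) →
      0 < t / width p q m ∧ t / width p q m < δ₁ / 4 ∧ t / width p q m < δ₂ / 4 := by
    intro t m h1 h2 h3
    have h4 := (hN m h3).2.2.1
    have h5 : t / width p q m < min δ₁ δ₂ / 4 := by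
      rw [div_lt_iff₀ (hwpos m)]
      calc t < t₀ := h2
        _ = min δ₁ δ₂ / 4 * (w₀ / 2) := by rw [ht₀]; ring
        _ ≤ min δ₁ δ₂ / 4 * width p q m := by
            apply mul_le_mul_of_nonneg_left h4.le (by positivity)
    refine ⟨div_pos h1 (hwpos m), ?_, ?_⟩
    · have := min_le_left δ₁ δ₂; linarith
    · have := min_le_right δ₁ δ₂; linarith
  have hex₁ : ∀ t m, ∃ c, (0 < t ∧ t < t₀ ∧ m ∈ Ioo (m₀ - η) (m₀ + η)) →
      c ∈ Icc (X₀ - δ₁ / 2) (X₀ + δ₁ / 2) ∧ ∀ c' ∈ Icc (X₀ - δ₁ / 2) (X₀ + δ₁ / 2),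
      1 * (Φ (c' + t / width p q m / 2) - Φ (c' - t / width p q m / 2)
          - m * c' * (t / width p q m)) ≤
        1 * (Φ (c + t / width p q m / 2) - Φ (c - t / width p q m / 2)
          - m * c * (t / width p q m)) := by
    intro t m
    by_cases h : 0 < t ∧ t < t₀ ∧ m ∈ Ioo (m₀ - η) (m₀ + η)
    · have h2 := hl t m h.1 h.2.1 h.2.2
      obtain ⟨c, hc, hc'⟩ := exists_window hΦ 1 m _ h2.1 h2.2.1
      exact ⟨c, fun _ => ⟨hc, hc'⟩⟩
    · exact ⟨0, fun h' => absurd h' h⟩
  have hex₂ : ∀ t m, ∃ c, (0 < t ∧ t < t₀ ∧ m ∈ Ioo (m₀ - η) (m₀ + η)) →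
      c ∈ Icc (Y₀ - δ₂ / 2) (Y₀ + δ₂ / 2) ∧ ∀ c' ∈ Icc (Y₀ - δ₂ / 2) (Y₀ + δ₂ / 2),
      (-1) * (Ψ (c' + t / width p q m / 2) - Ψ (c' - t / width p q m / 2)
          - m * c' * (t / width p q m)) ≤
        (-1) * (Ψ (c + t / width p q m / 2) - Ψ (c - t / width p q m / 2)
          - m * c * (t / width p q m)) := by
    intro t m
    by_cases h : 0 < t ∧ t < t₀ ∧ m ∈ Ioo (m₀ - η) (m₀ + η)
    · have h2 := hl t m h.1 h.2.1 h.2.2
      obtain ⟨c, hc, hc'⟩ := exists_window hΨ (-1) m _ h2.1 h2.2.2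
      exact ⟨c, fun _ => ⟨hc, hc'⟩⟩
    · exact ⟨0, fun h' => absurd h' h⟩
  choose c₁ hc₁ using hex₁
  choose c₂ hc₂ using hex₂
  have hfI : ∀ x ∈ Ioo (X₀ - δ₁) (X₀ + δ₁), ContDiffAt ℝ oo f x ∧ 1 * deriv (deriv f) x < 0 :=
    fun x hx => ⟨(hf x hx).1, (hf x hx).2.2⟩
  have hgI : ∀ x ∈ Ioo (Y₀ - δ₂) (Y₀ + δ₂), ContDiffAt ℝ oo g x ∧ (-1) * deriv (deriv g) x < 0 :=
    fun x hx => ⟨(hg x hx).1, (hg x hx).2.2⟩
  -- constancy in m for fixed t
  have hconst : ∀ t, 0 < t → t < t₀ → ∀ m ∈ Ioo (m₀ - η) (m₀ + η),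
      ∀ m' ∈ Ioo (m₀ - η) (m₀ + η),
      (Φ (c₁ t m + t / width p q m / 2) - Φ (c₁ t m - t / width p q m / 2)
          - m * c₁ t m * (t / width p q m))
        - (Ψ (c₂ t m + t / width p q m / 2) - Ψ (c₂ t m - t / width p q m / 2)
          - m * c₂ t m * (t / width p q m))
      = (Φ (c₁ t m' + t / width p q m' / 2) - Φ (c₁ t m' - t / width p q m' / 2)
          - m' * c₁ t m' * (t / width p q m'))
        - (Ψ (c₂ t m' + t / width p q m' / 2) - Ψ (c₂ t m' - t / width p q m' / 2)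
          - m' * c₂ t m' * (t / width p q m')) := by
    intro t ht ht'
    have hld : ∀ m, HasDerivAt (fun m => t / width p q m)
        (-(t * ((q m).1 - (p m).1)) / width p q m ^ 2) m := by
      intro m
      have := (hasDerivAt_const m t).div (hwd m) (hwpos m).ne'
      convert! this using 1
      simp
    -- general derivative statement for one side
    have hside : ∀ (δ Z₀ : ℝ) (u U : ℝ → ℝ),
        (∀ x ∈ Ioo (Z₀ - δ) (Z₀ + δ), ContDiffAt ℝ oo u x) →
        (∀ x ∈ Ioo (Z₀ - δ) (Z₀ + δ), HasDerivAt U (u x) x) →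
        (∀ m ∈ Ioo (m₀ - η) (m₀ + η), t / width p q m < δ / 4) →
        (∀ c ∈ Icc (Z₀ - δ / 2) (Z₀ + δ / 2), ∀ m ∈ Ioo (m₀ - η) (m₀ + η),
          HasDerivAt (fun m => U (c + t / width p q m / 2) - U (c - t / width p q m / 2)
            - m * c * (t / width p q m))
            (u (c + t / width p q m / 2) * (-(t * ((q m).1 - (p m).1)) / width p q m ^ 2 / 2)
              + u (c - t / width p q m / 2) * (-(t * ((q m).1 - (p m).1)) / width p q m ^ 2 / 2)
              - (c * (t / width p q m)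
                + m * c * (-(t * ((q m).1 - (p m).1)) / width p q m ^ 2))) m) ∧
        ContinuousOn (Function.uncurry fun c m =>
            (u (c + t / width p q m / 2) * (-(t * ((q m).1 - (p m).1)) / width p q m ^ 2 / 2)
              + u (c - t / width p q m / 2) * (-(t * ((q m).1 - (p m).1)) / width p q m ^ 2 / 2)
              - (c * (t / width p q m)
                + m * c * (-(t * ((q m).1 - (p m).1)) / width p q m ^ 2))))
          (Icc (Z₀ - δ / 2) (Z₀ + δ / 2) ×ˢ Ioo (m₀ - η) (m₀ + η)) := by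
      intro δ Z₀ u U hu hU hlδ
      have hpos : ∀ m ∈ Ioo (m₀ - η) (m₀ + η), 0 < t / width p q m := fun m hm =>
        (hl t m ht ht' hm).1
      have hin : ∀ c ∈ Icc (Z₀ - δ / 2) (Z₀ + δ / 2), ∀ m ∈ Ioo (m₀ - η) (m₀ + η),
          c + t / width p q m / 2 ∈ Ioo (Z₀ - δ) (Z₀ + δ) ∧
          c - t / width p q m / 2 ∈ Ioo (Z₀ - δ) (Z₀ + δ) := by
        intro c hc m hm
        have h1 := hlδ m hm
        have h2 := hpos m hm
        refine ⟨⟨?_, ?_⟩, ⟨?_, ?_⟩⟩ <;> linarith [hc.1, hc.2]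
      constructor
      · intro c hc m hm
        obtain ⟨i1, i2⟩ := hin c hc m hm
        have h1 : HasDerivAt (fun m => c + t / width p q m / 2)
            (-(t * ((q m).1 - (p m).1)) / width p q m ^ 2 / 2) m :=
          ((hld m).div_const 2).const_add c
        have h2 : HasDerivAt (fun m => c - t / width p q m / 2)
            (-(-(t * ((q m).1 - (p m).1)) / width p q m ^ 2 / 2)) m :=
          ((hld m).div_const 2).const_sub c
        have h3 := HasDerivAt.comp (h₂ := U) (h := fun m => c + t / width p q m / 2) m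
          (hU _ i1) h1
        have h4 := HasDerivAt.comp (h₂ := U) (h := fun m => c - t / width p q m / 2) m
          (hU _ i2) h2
        have h5 : HasDerivAt (fun m : ℝ => m * c * (t / width p q m))
            (c * (t / width p q m) + m * c * (-(t * ((q m).1 - (p m).1)) / width p q m ^ 2)) m := by
          have h6 := ((hasDerivAt_id m).mul_const c).mul (hld m)
          simp only [id, one_mul] at h6
          exact h6
        have h6 := (h3.sub h4).sub h5
        convert! h6 using 1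
        ring
      · intro z hz
        obtain ⟨c, m⟩ := z
        have hc : c ∈ Icc (Z₀ - δ / 2) (Z₀ + δ / 2) := hz.1
        have hm : m ∈ Ioo (m₀ - η) (m₀ + η) := hz.2
        obtain ⟨i1, i2⟩ := hin c hc m hm
        have hwne : width p q m ≠ 0 := (hwpos m).ne'
        have k1 : ContinuousAt (fun z : ℝ × ℝ => z.1 + t / width p q z.2 / 2) (c, m) := by
          fun_prop (disch := exact hwne)
        have k2 : ContinuousAt (fun z : ℝ × ℝ => z.1 - t / width p q z.2 / 2) (c, m) := by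
          fun_prop (disch := exact hwne)
        have k3 : ContinuousAt (fun z : ℝ × ℝ => u (z.1 + t / width p q z.2 / 2)) (c, m) :=
          ContinuousAt.comp (g := u) (f := fun z : ℝ × ℝ => z.1 + t / width p q z.2 / 2)
            (hu _ i1).continuousAt k1
        have k4 : ContinuousAt (fun z : ℝ × ℝ => u (z.1 - t / width p q z.2 / 2)) (c, m) :=
          ContinuousAt.comp (g := u) (f := fun z : ℝ × ℝ => z.1 - t / width p q z.2 / 2)
            (hu _ i2).continuousAt k2
        have hpc := Sp.cont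
        have hqc := Sq.cont
        have k5 : ContinuousAt (fun z : ℝ × ℝ =>
            -(t * ((q z.2).1 - (p z.2).1)) / width p q z.2 ^ 2) (c, m) := by
          have : width p q m ^ 2 ≠ 0 := pow_ne_zero 2 hwne
          fun_prop (disch := exact this)
        have k6 : ContinuousAt (fun z : ℝ × ℝ => t / width p q z.2) (c, m) := by
          fun_prop (disch := exact hwne)
        have k7 : ContinuousAt (fun z : ℝ × ℝ =>
            u (z.1 + t / width p q z.2 / 2) * (-(t * ((q z.2).1 - (p z.2).1))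
              / width p q z.2 ^ 2 / 2)
              + u (z.1 - t / width p q z.2 / 2) * (-(t * ((q z.2).1 - (p z.2).1))
              / width p q z.2 ^ 2 / 2)
              - (z.1 * (t / width p q z.2)
                + z.2 * z.1 * (-(t * ((q z.2).1 - (p z.2).1)) / width p q z.2 ^ 2))) (c, m) :=
          ((k3.mul (k5.div_const 2)).add (k4.mul (k5.div_const 2))).sub
            ((continuousAt_fst.mul k6).add ((continuousAt_snd.mul continuousAt_fst).mul k5))
        exact k7.continuousWithinAt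
    obtain ⟨s1, s2⟩ := hside δ₁ X₀ f Φ (fun x hx => (hf x hx).1) hΦ
      (fun m hm => (hl t m ht ht' hm).2.1)
    obtain ⟨s3, s4⟩ := hside δ₂ Y₀ g Ψ (fun x hx => (hg x hx).1) hΨ
      (fun m hm => (hl t m ht ht' hm).2.2)
    apply envelope_const isCompact_Icc isCompact_Icc
      (φ₁ := fun c m => Φ (c + t / width p q m / 2) - Φ (c - t / width p q m / 2)
            - m * c * (t / width p q m))
      (φ₂ := fun c m => Ψ (c + t / width p q m / 2) - Ψ (c - t / width p q m / 2)
            - m * c * (t / width p q m)) s1 s3 s2 s4 (c₁ t) (c₂ t)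
    · intro m hm; exact (hc₁ t m ⟨ht, ht', hm⟩).1
    · intro m hm; exact (hc₂ t m ⟨ht, ht', hm⟩).1
    · intro m hm c hc
      have := (hc₁ t m ⟨ht, ht', hm⟩).2 c hc
      linarith
    · intro m hm c hc
      have := (hc₂ t m ⟨ht, ht', hm⟩).2 c hc
      linarith
    · intro m hm
      obtain ⟨n1, n2, n3, n4, n5⟩ := hN m hm
      obtain ⟨l1, l2, l3⟩ := hl t m ht ht' hm
      set l := t / width p q m with hldef
      have e2 : 2 * (l / 2) = l := by ring
      obtain ⟨d1, d2⟩ := hc₁ t m ⟨ht, ht', hm⟩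
      obtain ⟨d3, d4⟩ := hc₂ t m ⟨ht, ht', hm⟩
      have w1 := window_max (h := l / 2) hfI hΦ n1 n4.2.1 (by linarith) (by linarith) d1 (by
        intro c' hc'
        rw [e2]; exact d2 c' hc')
      have w2 := window_max (h := l / 2) hgI hΨ n2 n5.2.1 (by linarith) (by linarith) d3 (by
        intro c' hc'
        rw [e2]; exact d4 c' hc')
      rw [e2] at w1 w2
      -- the two chords
      have hfrp : ∀ x ∈ Ioo (X₀ - δ₁) (X₀ + δ₁), (x, f x) ∈ frontier K := by
        intro x hx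
        rw [← (hf x hx).2.1]
        exact top_mem_frontier hK one_ne_zero (Sp.top _)
      have hfrq : ∀ x ∈ Ioo (Y₀ - δ₂) (Y₀ + δ₂), (x, g x) ∈ frontier K := by
        intro x hx
        rw [← (hg x hx).2.1]
        exact top_mem_frontier hK (by norm_num : (-1 : ℝ) ≠ 0) (Sq.top _)
      have i1 : c₁ t m - l / 2 ∈ Ioo (X₀ - δ₁) (X₀ + δ₁) := by
        constructor <;> linarith [d1.1, d1.2]
      have i2 : c₁ t m + l / 2 ∈ Ioo (X₀ - δ₁) (X₀ + δ₁) := by
        constructor <;> linarith [d1.1, d1.2]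
      have i3 : c₂ t m - l / 2 ∈ Ioo (Y₀ - δ₂) (Y₀ + δ₂) := by
        constructor <;> linarith [d3.1, d3.2]
      have i4 : c₂ t m + l / 2 ∈ Ioo (Y₀ - δ₂) (Y₀ + δ₂) := by
        constructor <;> linarith [d3.1, d3.2]
      have hdet := hH m l (c₁ t m - l / 2, f (c₁ t m - l / 2)) (c₂ t m - l / 2, g (c₂ t m - l / 2))
        l1.ne' (hfrp _ i1) (hfrq _ i3)
        (by
          have e : ((c₁ t m - l / 2) + l, f (c₁ t m - l / 2) + l * m)
              = (c₁ t m + l / 2, f (c₁ t m + l / 2)) := by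
            apply Prod.ext
            · simp only; ring
            · simp only; linarith [w1.2]
          simp only
          rw [e]
          exact hfrp _ i2)
        (by
          have e : ((c₂ t m - l / 2) + l, g (c₂ t m - l / 2) + l * m)
              = (c₂ t m + l / 2, g (c₂ t m + l / 2)) := by
            apply Prod.ext
            · simp only; ring
            · simp only; linarith [w2.2]
          simp only
          rw [e]
          exact hfrq _ i4)
        (by
          rw [← (hf _ i1).2.1, ← (hg _ i3).2.1]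
          exact pq_ne hi Sp Sq _ _)
      simp only [det2, Prod.fst_sub, Prod.snd_sub] at hdet
      have hW : width p q m = ((p m).2 - m * (p m).1) - ((q m).2 - m * (q m).1) := rfl
      have hwne : width p q m ≠ 0 := (hwpos m).ne'
      have hf2 : f (c₁ t m + l / 2) = f (c₁ t m - l / 2) + l * m := by linarith [w1.2]
      have hg2 : g (c₂ t m + l / 2) = g (c₂ t m - l / 2) + l * m := by linarith [w2.2]
      rw [hf2, hg2]
      have hl' : -(t * ((q m).1 - (p m).1)) / width p q m ^ 2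
          = -(l * ((q m).1 - (p m).1)) / width p q m := by
        rw [hldef]; field_simp
      rw [hl']
      set d := (q m).1 - (p m).1 with hd
      set F₁ := f (c₁ t m - l / 2)
      set G₂ := g (c₂ t m - l / 2)
      set a₁ := c₁ t m
      set a₂ := c₂ t m
      have hdet' : (a₂ - a₁) * (width p q m - m * d) + (G₂ - F₁) * d = 0 := by
        have e1 : (p m).2 - (q m).2 = width p q m - m * d := by rw [hW, hd]; ring
        have e2 : (p m).1 - (q m).1 = -d := by rw [hd]; ring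
        rw [e1, e2] at hdet
        have e3 : a₂ - l / 2 - (a₁ - l / 2) = a₂ - a₁ := by ring
        rw [e3] at hdet
        linarith
      have key : ∀ (F a : ℝ), F * (-(l * d) / width p q m / 2) + F * 0 = F * (-(l * d) / width p q m / 2) := by
        intro F a; ring
      have hL : (F₁ + l * m) * (-(l * d) / width p q m / 2) + F₁ * (-(l * d) / width p q m / 2)
          - (a₁ * l + m * a₁ * (-(l * d) / width p q m))
          - ((G₂ + l * m) * (-(l * d) / width p q m / 2) + G₂ * (-(l * d) / width p q m / 2)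
          - (a₂ * l + m * a₂ * (-(l * d) / width p q m)))
          = (l / width p q m) * ((a₂ - a₁) * (width p q m - m * d) + (G₂ - F₁) * d) := by
        field_simp
        ring
      rw [hdet', mul_zero] at hL
      linarith
  -- the function H
  refine ⟨η, hη, fun t => (Φ (c₁ t m₀ + t / width p q m₀ / 2) - Φ (c₁ t m₀ - t / width p q m₀ / 2)
          - m₀ * c₁ t m₀ * (t / width p q m₀))
        - (Ψ (c₂ t m₀ + t / width p q m₀ / 2) - Ψ (c₂ t m₀ - t / width p q m₀ / 2)
          - m₀ * c₂ t m₀ * (t / width p q m₀)), ?_⟩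
  intro m hm
  have hm₀ : m₀ ∈ Ioo (m₀ - η) (m₀ + η) := ⟨by linarith, by linarith⟩
  have hwm := hwpos m
  have hopen : ∀ᶠ m' in 𝓝 m, m' ∈ Ioo (m₀ - η) (m₀ + η) := Ioo_mem_nhds hm.1 hm.2
  have hev1 : ∀ᶠ m' in 𝓝 m, |(p m').1 - X₀| < δ₁ / 4 ∧ deriv f (p m').1 = m' ∧
      f (p m').1 = (p m').2 ∧ deriv (deriv f) (p m').1 * deriv (fun m => (p m).1) m' = 1 := by
    filter_upwards [hopen] with m' hm'
    obtain ⟨n1, n2, n3, n4, n5⟩ := hN m' hm'
    exact ⟨n1, n4.2⟩
  have hev2 : ∀ᶠ m' in 𝓝 m, |(q m').1 - Y₀| < δ₂ / 4 ∧ deriv g (q m').1 = m' ∧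
      g (q m').1 = (q m').2 ∧ deriv (deriv g) (q m').1 * deriv (fun m => (q m).1) m' = 1 := by
    filter_upwards [hopen] with m' hm'
    obtain ⟨n1, n2, n3, n4, n5⟩ := hN m' hm'
    exact ⟨n2, n5.2⟩
  have hlt : ∀ᶠ l in 𝓝[>] (0 : ℝ), 0 < width p q m * l ∧ width p q m * l < t₀ := by
    have h1 : ∀ᶠ l in 𝓝[>] (0 : ℝ), l < t₀ / width p q m :=
      (eventually_lt_nhds (div_pos ht₀pos hwm)).filter_mono nhdsWithin_le_nhds
    filter_upwards [h1, self_mem_nhdsWithin] with l h1 h2
    have h2' : 0 < l := h2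
    refine ⟨mul_pos hwm h2', ?_⟩
    rw [lt_div_iff₀ hwm] at h1
    linarith
  have T1 := side_expansion Sp hfI hΦ hev1 (fun l => c₁ (width p q m * l) m) (by
    filter_upwards [hlt] with l hl1
    obtain ⟨d1, d2⟩ := hc₁ (width p q m * l) m ⟨hl1.1, hl1.2, hm⟩
    have e : width p q m * l / width p q m = l := by field_simp
    rw [e] at d2
    exact ⟨d1, d2⟩)
  have T2 := side_expansion Sq hgI hΨ hev2 (fun l => c₂ (width p q m * l) m) (by
    filter_upwards [hlt] with l hl1
    obtain ⟨d1, d2⟩ := hc₂ (width p q m * l) m ⟨hl1.1, hl1.2, hm⟩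
    have e : width p q m * l / width p q m = l := by field_simp
    rw [e] at d2
    exact ⟨d1, d2⟩)
  have T3 := (T1.add T2).div_const (width p q m ^ 5)
  have hcomp : Tendsto (fun t : ℝ => t / width p q m) (𝓝[>] 0) (𝓝[>] 0) := by
    apply tendsto_nhdsWithin_of_tendsto_nhds_of_eventually_within
    · have : Tendsto (fun t : ℝ => t / width p q m) (𝓝 0) (𝓝 (0 / width p q m)) :=
        tendsto_id.div_const _
      rw [zero_div] at this
      exact this.mono_left nhdsWithin_le_nhds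
    · filter_upwards [self_mem_nhdsWithin] with t ht
      exact div_pos ht hwm
  have T4 := T3.comp hcomp
  refine T4.congr' ?_
  have hlt₀ : ∀ᶠ t in 𝓝[>] (0 : ℝ), t < t₀ :=
    (eventually_lt_nhds ht₀pos).filter_mono nhdsWithin_le_nhds
  filter_upwards [hlt₀, self_mem_nhdsWithin] with t ht1 ht2
  have ht2' : 0 < t := ht2
  simp only [Function.comp]
  rw [hconst t ht2' ht1 m₀ hm₀ m hm]
  have e1 : width p q m * (t / width p q m) = t := by field_simp
  rw [e1]
  have hW : width p q m = ((p m).2 - m * (p m).1) - ((q m).2 - m * (q m).1) := rfl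
  set A := Φ (c₁ t m + t / width p q m / 2) - Φ (c₁ t m - t / width p q m / 2)
          - m * c₁ t m * (t / width p q m)
  set B := Ψ (c₂ t m + t / width p q m / 2) - Ψ (c₂ t m - t / width p q m / 2)
          - m * c₂ t m * (t / width p q m)
  have hwne : width p q m ≠ 0 := hwm.ne'
  have htne : t ≠ 0 := ht2'.ne'
  have e3 : (1 * ((p m).2 - m * (p m).1) * (t / width p q m) - alpha 1 p m * (t / width p q m) ^ 3 / 24)
      + ((-1) * ((q m).2 - m * (q m).1) * (t / width p q m)
        - alpha (-1) q m * (t / width p q m) ^ 3 / 24)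
      = t - (alpha 1 p m + alpha (-1) q m) / width p q m ^ 3 * t ^ 3 / 24 := by
    have : (1 * ((p m).2 - m * (p m).1) * (t / width p q m)
        - alpha 1 p m * (t / width p q m) ^ 3 / 24)
        + ((-1) * ((q m).2 - m * (q m).1) * (t / width p q m)
        - alpha (-1) q m * (t / width p q m) ^ 3 / 24)
        = width p q m * (t / width p q m)
          - (alpha 1 p m + alpha (-1) q m) * (t / width p q m) ^ 3 / 24 := by
      rw [hW]; ring
    rw [this, e1]
    field_simp
  rw [← e3]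
  field_simp
  ring

end

end Pool.Agent.Helper438.Oval
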