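import Mathlib

set_option autoImplicit false

open Set Filter Topology

namespace Pool.Agent.Helper438.Oval

/-- the linear part -/
noncomputable def linM (S B c : ℝ) (hS : 0 < S) (hc : 0 < c) : (ℝ × ℝ) ≃ₗ[ℝ] (ℝ × ℝ) where
  toFun := fun z => (S / 2 * z.1, -(B / (2 * S)) * z.1 + c / (2 * S) * z.2)
  invFun := fun z => (2 / S * z.1, (2 * S * z.2 + 2 * B / S * z.1) / c)
  map_add' := fun z w => by
    ext <;> simp <;> ring
  map_smul' := fun t z => by
    ext <;> simp <;> ring
  left_inv := fun z => by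
    ext
    · simp only
      field_simp
    · simp only
      field_simp
      ring
  right_inv := fun z => by
    ext
    · simp only
      field_simp
    · simp only
      field_simp
      ring

/-- the affine map -/
noncomputable def affA (S B c x0 y0 : ℝ) (hS : 0 < S) (hc : 0 < c) : (ℝ × ℝ) ≃ᵃ[ℝ] (ℝ × ℝ) :=
  (linM S B c hS hc).toAffineEquiv.trans (AffineEquiv.constVAdd ℝ (ℝ × ℝ) ((x0, y0) : ℝ × ℝ))

theorem affA_apply (S B c x0 y0 : ℝ) (hS : 0 < S) (hc : 0 < c) (z : ℝ × ℝ) :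
    affA S B c x0 y0 hS hc z = (x0 + S / 2 * z.1, y0 + (-(B / (2 * S)) * z.1 + c / (2 * S) * z.2)) := by
  simp [affA, linM]

/-- the frontier of the closed disc -/
theorem frontier_disc : frontier {z : ℝ × ℝ | z.1 ^ 2 + z.2 ^ 2 ≤ 1} =
    {z : ℝ × ℝ | z.1 ^ 2 + z.2 ^ 2 = 1} := by
  have hcl : IsClosed {z : ℝ × ℝ | z.1 ^ 2 + z.2 ^ 2 ≤ 1} :=
    isClosed_le (by fun_prop) (by fun_prop)
  rw [hcl.frontier_eq]
  ext z
  simp only [Set.mem_sdiff, Set.mem_ofPred_eq]
  constructor
  · rintro ⟨h1, h2⟩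
    by_contra h3
    have h4 : z.1 ^ 2 + z.2 ^ 2 < 1 := lt_of_le_of_ne h1 h3
    apply h2
    rw [mem_interior]
    exact ⟨{z : ℝ × ℝ | z.1 ^ 2 + z.2 ^ 2 < 1}, fun w hw => (show w.1 ^ 2 + w.2 ^ 2 ≤ 1 from le_of_lt hw),
      isOpen_lt (by fun_prop) (by fun_prop), h4⟩
  · intro h
    refine ⟨h.le, fun h2 => ?_⟩
    have h3 : Tendsto (fun t : ℝ => ((1 + t) • z : ℝ × ℝ)) (𝓝[>] 0) (𝓝 z) := by
      have : Tendsto (fun t : ℝ => ((1 + t) • z : ℝ × ℝ)) (𝓝 0) (𝓝 ((1 + 0 : ℝ) • z)) := by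
        apply Continuous.tendsto
        fun_prop
      rw [add_zero, one_smul] at this
      exact this.mono_left nhdsWithin_le_nhds
    have h4 := h3 (mem_interior_iff_mem_nhds.1 h2)
    have h5 : ∀ᶠ t in 𝓝[>] (0 : ℝ), False := by
      filter_upwards [h4, self_mem_nhdsWithin] with t ht ht0
      have ht1 : ((1 + t) * z.1) ^ 2 + ((1 + t) * z.2) ^ 2 ≤ 1 := ht
      have ht2 : (0 : ℝ) < t := ht0
      have : ((1 + t) * z.1) ^ 2 + ((1 + t) * z.2) ^ 2 = (1 + t) ^ 2 * (z.1 ^ 2 + z.2 ^ 2) := by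
        ring
      rw [this, h] at ht1
      nlinarith
    exact h5.exists.choose_spec.elim

/-- Final step: `K` is a filled ellipse. `p m`, `q m` are the top and bottom points for slope `m`. -/
theorem ellipse_of_width (K : Set (ℝ × ℝ)) (hK : IsCompact K) (hs : StrictConvex ℝ K)
    (hi : (interior K).Nonempty) (p q : ℝ → ℝ × ℝ)
    (hp : ∀ m, p m ∈ K) (hpm : ∀ m, ∀ z ∈ K, z.2 - m * z.1 ≤ (p m).2 - m * (p m).1)
    (hq : ∀ m, q m ∈ K) (hqm : ∀ m, ∀ z ∈ K, (q m).2 - m * (q m).1 ≤ z.2 - m * z.1)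
    (hdp : ∀ m, HasDerivAt (fun m => (p m).2 - m * (p m).1) (-(p m).1) m)
    (hdq : ∀ m, HasDerivAt (fun m => (q m).2 - m * (q m).1) (-(q m).1) m)
    (hXp : ContDiff ℝ ((⊤ : ℕ∞) : WithTop ℕ∞) (fun m => (p m).1))
    (hXq : ContDiff ℝ ((⊤ : ℕ∞) : WithTop ℕ∞) (fun m => (q m).1))
    (L : ℝ) (hL : 0 < L)
    (hpq : ∀ m, deriv (fun m => (p m).1) m + L * deriv (fun m => (q m).1) m = 0)
    (c : ℝ) (hc : 0 < c)
    (hw : ∀ m, (deriv (fun m => (q m).1) m - deriv (fun m => (p m).1) m) *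
      (((p m).2 - m * (p m).1) - ((q m).2 - m * (q m).1)) ^ 3 = c ^ 2) :
    ∃ A : (ℝ × ℝ) ≃ᵃ[ℝ] (ℝ × ℝ), frontier K = A '' {p : ℝ × ℝ | p.1 ^ 2 + p.2 ^ 2 = 1} := by
  set X : ℝ → ℝ := fun m => (p m).1 with hX
  set Y : ℝ → ℝ := fun m => (q m).1 with hY
  set f : ℝ → ℝ := fun m => (p m).2 - m * (p m).1 with hf
  set g : ℝ → ℝ := fun m => (q m).2 - m * (q m).1 with hg
  have dX : ∀ m, HasDerivAt X (deriv X m) m := fun m =>
    ((hXp.differentiable (by simp)) m).hasDerivAt
  have dY : ∀ m, HasDerivAt Y (deriv Y m) m := fun m =>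
    ((hXq.differentiable (by simp)) m).hasDerivAt
  have df : ∀ m, HasDerivAt f (-X m) m := hdp
  have dg : ∀ m, HasDerivAt g (-Y m) m := hdq
  have const_of : ∀ h : ℝ → ℝ, (∀ m, HasDerivAt h 0 m) → ∀ m, h m = h 0 := by
    intro h hh m
    exact is_const_of_deriv_eq_zero (fun m => (hh m).differentiableAt) (fun m => (hh m).deriv) m 0
  -- an interior point
  obtain ⟨z0, hz0⟩ := hi
  rw [mem_interior_iff_mem_nhds, Metric.mem_nhds_iff] at hz0
  obtain ⟨r, hr, hball⟩ := hz0
  have hz0K : z0 ∈ K := hball (Metric.mem_ball_self hr)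
  have hz1K : ((z0.1 + r / 2, z0.2) : ℝ × ℝ) ∈ K := by
    apply hball
    rw [Metric.mem_ball, Prod.dist_eq]
    simp only [dist_self, Real.dist_eq, add_sub_cancel_left]
    rw [abs_of_pos (by linarith)]
    exact max_lt (by linarith) hr
  have hz2K : ((z0.1, z0.2 + r / 2) : ℝ × ℝ) ∈ K := by
    apply hball
    rw [Metric.mem_ball, Prod.dist_eq]
    simp only [dist_self, Real.dist_eq, add_sub_cancel_left]
    rw [abs_of_pos (by linarith)]
    exact max_lt hr (by linarith)
  have hwpos : ∀ m, 0 < f m - g m := by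
    intro m
    have h1 := hpm m _ hz2K
    have h2 := hqm m _ hz0K
    simp only [hf, hg]
    simp only at h1
    linarith
  -- extreme first coordinates
  obtain ⟨za, hza, hza'⟩ := hK.exists_isMinOn ⟨z0, hz0K⟩ (continuous_fst.continuousOn)
  obtain ⟨zb, hzb, hzb'⟩ := hK.exists_isMaxOn ⟨z0, hz0K⟩ (continuous_fst.continuousOn)
  have hmin : ∀ z ∈ K, za.1 ≤ z.1 := fun z hz => hza' hz
  have hmax : ∀ z ∈ K, z.1 ≤ zb.1 := fun z hz => hzb' hz
  have hab : za.1 < zb.1 := by
    have h1 := hmin _ hz0K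
    have h2 := hmax _ hz1K
    simp only at h2
    linarith
  obtain ⟨D, hD⟩ : ∃ D : ℝ, ∀ z ∈ K, ∀ w ∈ K, z.2 - w.2 ≤ D := by
    obtain ⟨C, hC⟩ := (hK.image continuous_snd).isBounded.exists_norm_le
    refine ⟨C + C, fun z hz w hw => ?_⟩
    have h1 := hC z.2 (mem_image_of_mem _ hz)
    have h2 := hC w.2 (mem_image_of_mem _ hw)
    rw [Real.norm_eq_abs] at h1 h2
    have h3 := le_abs_self z.2
    have h4 := neg_abs_le w.2
    linarith
  -- L = 1
  have hk := const_of (fun m => X m + L * Y m) (fun m => by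
    have := (dX m).add ((dY m).const_mul L)
    rw [hpq m] at this
    exact this)
  have hinv : Tendsto (fun m : ℝ => D / m) atTop (𝓝 0) :=
    tendsto_const_nhds.div_atTop tendsto_id
  have X1 : Tendsto X atTop (𝓝 za.1) := by
    have hu : Tendsto (fun m : ℝ => za.1 + D / m) atTop (𝓝 (za.1 + 0)) :=
      tendsto_const_nhds.add hinv
    rw [add_zero] at hu
    refine tendsto_of_tendsto_of_tendsto_of_le_of_le' tendsto_const_nhds hu
      (Eventually.of_forall fun m => hmin _ (hp m)) ?_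
    filter_upwards [eventually_gt_atTop 0] with m hm
    have h1 := hpm m za hza
    have h2 := hD _ (hp m) _ hza
    have h3 : (X m - za.1) * m ≤ D := by simp only [hX]; nlinarith
    rw [← le_div_iff₀ hm] at h3
    linarith
  have Y1 : Tendsto Y atTop (𝓝 zb.1) := by
    have hu : Tendsto (fun m : ℝ => zb.1 - D / m) atTop (𝓝 (zb.1 - 0)) :=
      tendsto_const_nhds.sub hinv
    rw [sub_zero] at hu
    refine tendsto_of_tendsto_of_tendsto_of_le_of_le' hu tendsto_const_nhds ?_
      (Eventually.of_forall fun m => hmax _ (hq m))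
    filter_upwards [eventually_gt_atTop 0] with m hm
    have h1 := hqm m zb hzb
    have h2 := hD _ hzb _ (hq m)
    have h3 : (zb.1 - Y m) * m ≤ D := by simp only [hY]; nlinarith
    rw [← le_div_iff₀ hm] at h3
    linarith
  have X2 : Tendsto (fun m => X (-m)) atTop (𝓝 zb.1) := by
    have hu : Tendsto (fun m : ℝ => zb.1 - D / m) atTop (𝓝 (zb.1 - 0)) :=
      tendsto_const_nhds.sub hinv
    rw [sub_zero] at hu
    refine tendsto_of_tendsto_of_tendsto_of_le_of_le' hu tendsto_const_nhds ?_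
      (Eventually.of_forall fun m => hmax _ (hp (-m)))
    filter_upwards [eventually_gt_atTop 0] with m hm
    have h1 := hpm (-m) zb hzb
    have h2 := hD _ (hp (-m)) _ hzb
    have h3 : (zb.1 - X (-m)) * m ≤ D := by simp only [hX]; nlinarith
    rw [← le_div_iff₀ hm] at h3
    linarith
  have Y2 : Tendsto (fun m => Y (-m)) atTop (𝓝 za.1) := by
    have hu : Tendsto (fun m : ℝ => za.1 + D / m) atTop (𝓝 (za.1 + 0)) :=
      tendsto_const_nhds.add hinv
    rw [add_zero] at hu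
    refine tendsto_of_tendsto_of_tendsto_of_le_of_le' tendsto_const_nhds hu
      (Eventually.of_forall fun m => hmin _ (hq (-m))) ?_
    filter_upwards [eventually_gt_atTop 0] with m hm
    have h1 := hqm (-m) za hza
    have h2 := hD _ hza _ (hq (-m))
    have h3 : (Y (-m) - za.1) * m ≤ D := by simp only [hY]; nlinarith
    rw [← le_div_iff₀ hm] at h3
    linarith
  have hL1 : L = 1 := by
    have t1 : Tendsto (fun _ : ℝ => X 0 + L * Y 0) atTop (𝓝 (za.1 + L * zb.1)) :=
      (X1.add (Y1.const_mul L)).congr fun m => hk m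
    have t2 : Tendsto (fun _ : ℝ => X 0 + L * Y 0) atTop (𝓝 (zb.1 + L * za.1)) :=
      (X2.add (Y2.const_mul L)).congr fun m => hk (-m)
    have e1 := tendsto_nhds_unique t1 t2
    have e2 : (zb.1 - za.1) * (L - 1) = 0 := by linarith
    rcases mul_eq_zero.1 e2 with e3 | e3
    · linarith
    · linarith
  subst hL1
  simp only [one_mul] at hk hpq
  set x0 : ℝ := (X 0 + Y 0) / 2 with hx0
  have hXY : ∀ m, X m + Y m = 2 * x0 := fun m => by rw [hk m, hx0]; ring
  -- f + g
  have hfg := const_of (fun m => f m + g m + 2 * x0 * m) (fun m => by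
    have := ((df m).add (dg m)).add ((hasDerivAt_id m).const_mul (2 * x0))
    have e : -X m + -Y m + 2 * x0 * 1 = 0 := by linarith [hXY m]
    rw [e] at this
    exact this)
  set y0 : ℝ := (f 0 + g 0) / 2 with hy0
  have hfg' : ∀ m, f m + g m = 2 * y0 - 2 * x0 * m := fun m => by
    have := hfg m
    simp only [mul_zero, add_zero] at this
    rw [hy0]; linarith
  -- the width
  set w : ℝ → ℝ := fun m => f m - g m with hwd
  set v : ℝ → ℝ := fun m => Y m - X m with hvd
  have dw : ∀ m, HasDerivAt w (v m) m := fun m => by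
    have := (df m).sub (dg m)
    have e : -X m - -Y m = v m := by simp only [hvd]; ring
    rw [e] at this
    exact this
  have dv : ∀ m, HasDerivAt v (deriv Y m - deriv X m) m := fun m => (dY m).sub (dX m)
  have hw' : ∀ m, (deriv Y m - deriv X m) = c ^ 2 / w m ^ 3 := fun m => by
    rw [eq_div_iff (pow_ne_zero 3 (hwpos m).ne')]
    exact hw m
  have hwp : ∀ m, 0 < w m := hwpos
  have hE := const_of (fun m => v m ^ 2 + c ^ 2 * (w m ^ 2)⁻¹) (fun m => by
    have h1 := ((dv m).pow 2).add ((((dw m).pow 2).inv (pow_ne_zero 2 (hwp m).ne')).const_mul (c ^ 2))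
    have h2 := (hwp m).ne'
    refine h1.congr_deriv ?_
    simp only [Pi.pow_apply]
    rw [hw' m]
    push_cast
    field_simp
    ring)
  set A : ℝ := v 0 ^ 2 + c ^ 2 * (w 0 ^ 2)⁻¹ with hA
  have hApos : 0 < A := by
    have h1 := hwp 0
    have : 0 < c ^ 2 * (w 0 ^ 2)⁻¹ := by positivity
    have h2 := sq_nonneg (v 0)
    linarith
  have hE' : ∀ m, v m ^ 2 + c ^ 2 * (w m ^ 2)⁻¹ = A := hE
  have hB := const_of (fun m => w m * v m - A * m) (fun m => by
    have h1 := ((dw m).mul (dv m)).sub ((hasDerivAt_id m).const_mul A)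
    have h2 := (hwp m).ne'
    have e : v m * v m + w m * (deriv Y m - deriv X m) - A * 1 = 0 := by
      rw [hw' m, ← hE' m]
      field_simp
      ring
    rw [e] at h1
    exact h1)
  set B : ℝ := w 0 * v 0 - A * 0 with hBd
  have hB' : ∀ m, w m * v m = A * m + B := fun m => by
    have := hB m
    linarith
  have hAw : ∀ m, A * w m ^ 2 = (A * m + B) ^ 2 + c ^ 2 := fun m => by
    rw [← hB' m, ← hE' m]
    have h2 := (hwp m).ne'
    field_simp
  set S : ℝ := Real.sqrt A with hS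
  have hS0 : 0 < S := Real.sqrt_pos.2 hApos
  have hSA : S ^ 2 = A := Real.sq_sqrt hApos.le
  -- formulas for p and q
  have hfm : ∀ m, f m = w m / 2 + y0 - x0 * m := fun m => by
    have := hfg' m
    simp only [hwd]; linarith
  have hgm : ∀ m, g m = -w m / 2 + y0 - x0 * m := fun m => by
    have := hfg' m
    simp only [hwd]; linarith
  have hXm : ∀ m, X m = x0 - v m / 2 := fun m => by
    have := hXY m
    simp only [hvd]; linarith
  have hYm : ∀ m, Y m = x0 + v m / 2 := fun m => by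
    have := hXY m
    simp only [hvd]; linarith
  have hpf : ∀ m, p m = (X m, f m + m * X m) := fun m => by
    ext
    · rfl
    · simp only [hf, hX]; ring
  have hqf : ∀ m, q m = (Y m, g m + m * Y m) := fun m => by
    ext
    · rfl
    · simp only [hg, hY]; ring
  -- the point of the circle
  have hval : ∀ ξ s : ℝ, 0 < s → ξ ^ 2 + s ^ 2 = 1 →
      w ((c * (-ξ / s) - B) / A) = c / (s * S) ∧ v ((c * (-ξ / s) - B) / A) = -ξ * S := by
    intro ξ s hs0 h1
    set m := (c * (-ξ / s) - B) / A with hm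
    have h2 : A * m + B = c * (-ξ / s) := by rw [hm]; field_simp; ring
    have h3 := hAw m
    rw [h2] at h3
    have h4 : (w m * S) ^ 2 = (c / s) ^ 2 := by
      have : (w m * S) ^ 2 = A * w m ^ 2 := by rw [mul_pow, hSA]; ring
      rw [this, h3]
      field_simp
      linear_combination h1
    have h5 : w m * S = c / s :=
      (pow_left_inj₀ (mul_pos (hwp m) hS0).le (by positivity) two_ne_zero).1 h4
    have h6 : w m = c / (s * S) := by
      rw [eq_div_iff (by positivity)]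
      have : w m * (s * S) = (w m * S) * s := by ring
      rw [this, h5]
      field_simp
    refine ⟨h6, ?_⟩
    have h7 := hB' m
    rw [h2, h6] at h7
    have h8 : c / (s * S) * v m = c / (s * S) * (-ξ * S) := by
      rw [h7]
      field_simp
    exact mul_left_cancel₀ (by positivity) h8
  have hAp : ∀ ξ s : ℝ, 0 < s → ξ ^ 2 + s ^ 2 = 1 →
      affA S B c x0 y0 hS0 hc (ξ, s) = p ((c * (-ξ / s) - B) / A) := by
    intro ξ s hs0 h1
    obtain ⟨h2, h3⟩ := hval ξ s hs0 h1
    rw [affA_apply, hpf, hfm, hXm, h2, h3, ← hSA]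
    ext
    · simp only; ring
    · simp only
      field_simp
      linear_combination (S * c) * h1
  have hAq : ∀ ξ s : ℝ, 0 < s → ξ ^ 2 + s ^ 2 = 1 →
      affA S B c x0 y0 hS0 hc (ξ, -s) = q ((c * (ξ / s) - B) / A) := by
    intro ξ s hs0 h1
    obtain ⟨h2, h3⟩ := hval (-ξ) s hs0 (by rw [neg_sq]; exact h1)
    rw [neg_neg] at h2 h3
    rw [affA_apply, hqf, hgm, hYm, h2, h3, ← hSA]
    ext
    · simp only; ring
    · simp only
      field_simp
      linear_combination (-(S * c)) * h1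
  have hconv : Convex ℝ K := hs.convex
  -- open disc
  have hopen : ∀ ξ η : ℝ, ξ ^ 2 + η ^ 2 < 1 → affA S B c x0 y0 hS0 hc (ξ, η) ∈ K := by
    intro ξ η h1
    have h2 : 0 < 1 - ξ ^ 2 := by nlinarith [sq_nonneg η]
    set s := Real.sqrt (1 - ξ ^ 2) with hsd
    have hs0 : 0 < s := Real.sqrt_pos.2 h2
    have hs2 : s ^ 2 = 1 - ξ ^ 2 := Real.sq_sqrt h2.le
    have hη : |η| < s := by
      apply abs_lt_of_sq_lt_sq _ hs0.le
      linarith
    have k1 : affA S B c x0 y0 hS0 hc (ξ, s) ∈ K := by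
      rw [hAp ξ s hs0 (by linarith)]; exact hp _
    have k2 : affA S B c x0 y0 hS0 hc (ξ, -s) ∈ K := by
      rw [hAq ξ s hs0 (by linarith)]; exact hq _
    obtain ⟨a1, a2⟩ := abs_lt.1 hη
    have k3 := hconv k1 k2 (a := (s + η) / (2 * s)) (b := (s - η) / (2 * s))
      (div_nonneg (by linarith) (by linarith)) (div_nonneg (by linarith) (by linarith))
      (by field_simp; ring)
    have k4 : ((s + η) / (2 * s)) • affA S B c x0 y0 hS0 hc (ξ, s) +
        ((s - η) / (2 * s)) • affA S B c x0 y0 hS0 hc (ξ, -s) = affA S B c x0 y0 hS0 hc (ξ, η) := by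
      rw [affA_apply, affA_apply, affA_apply]
      ext
      · simp only [Prod.smul_mk, Prod.mk_add_mk, smul_eq_mul]
        field_simp
        ring
      · simp only [Prod.smul_mk, Prod.mk_add_mk, smul_eq_mul]
        field_simp
        ring
    rwa [k4] at k3
  have hcont : Continuous (fun z : ℝ × ℝ => affA S B c x0 y0 hS0 hc z) := by
    have : (fun z : ℝ × ℝ => affA S B c x0 y0 hS0 hc z) = fun z : ℝ × ℝ =>
      (x0 + S / 2 * z.1, y0 + (-(B / (2 * S)) * z.1 + c / (2 * S) * z.2)) := by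
      funext z; exact affA_apply _ _ _ _ _ _ _ z
    rw [this]
    fun_prop
  have hclosed : ∀ z : ℝ × ℝ, z.1 ^ 2 + z.2 ^ 2 ≤ 1 → affA S B c x0 y0 hS0 hc z ∈ K := by
    intro z hz
    have h3 : Tendsto (fun t : ℝ => affA S B c x0 y0 hS0 hc (t • z)) (𝓝[<] 1)
        (𝓝 (affA S B c x0 y0 hS0 hc z)) := by
      have h4 : Continuous (fun t : ℝ => affA S B c x0 y0 hS0 hc (t • z)) :=
        hcont.comp (by fun_prop)
      have := h4.tendsto 1
      rw [one_smul] at this
      exact this.mono_left nhdsWithin_le_nhds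
    refine hK.isClosed.mem_of_tendsto h3 ?_
    have h5 : Ioo (0 : ℝ) 1 ∈ 𝓝[<] (1 : ℝ) := Ioo_mem_nhdsLT one_pos
    filter_upwards [h5] with t ht
    have h6 : (t * z.1) ^ 2 + (t * z.2) ^ 2 < 1 := by
      have e : (t * z.1) ^ 2 + (t * z.2) ^ 2 = t ^ 2 * (z.1 ^ 2 + z.2 ^ 2) := by ring
      rw [e]
      have h7 : t ^ 2 < 1 := by nlinarith [ht.1, ht.2]
      nlinarith [sq_nonneg z.1, sq_nonneg z.2, sq_nonneg t]
    exact hopen (t * z.1) (t * z.2) h6
  -- K is the image of the disc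
  have hKeq : K = affA S B c x0 y0 hS0 hc '' {z : ℝ × ℝ | z.1 ^ 2 + z.2 ^ 2 ≤ 1} := by
    apply Subset.antisymm
    · intro z hz
      obtain ⟨u, rfl⟩ := (affA S B c x0 y0 hS0 hc).surjective z
      refine ⟨u, ?_, rfl⟩
      have key : ∀ τ : ℝ, (u.2 - τ * u.1) ^ 2 ≤ 1 + τ ^ 2 := by
        intro τ
        set m := (c * τ - B) / A with hm
        have h2 : A * m + B = c * τ := by rw [hm]; field_simp; ring
        have h3 := hAw m
        rw [h2] at h3
        have h1 := hpm m _ hz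
        have h1' : (affA S B c x0 y0 hS0 hc u).2 - m * (affA S B c x0 y0 hS0 hc u).1 ≤ f m := h1
        have h4 := hqm m _ hz
        have h4' : g m ≤ (affA S B c x0 y0 hS0 hc u).2 - m * (affA S B c x0 y0 hS0 hc u).1 := h4
        have h5 : (affA S B c x0 y0 hS0 hc u).2 - m * (affA S B c x0 y0 hS0 hc u).1 =
            y0 - x0 * m + c * (u.2 - τ * u.1) / (2 * S) := by
          rw [affA_apply]
          simp only
          have h6 : m = (c * τ - B) / S ^ 2 := by rw [hSA]
          have h7 : m * (S / 2 * u.1) = (c * τ - B) / (2 * S) * u.1 := by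
            rw [h6]; field_simp
          have h8 : m * (x0 + S / 2 * u.1) = m * x0 + m * (S / 2 * u.1) := by ring
          rw [h8, h7]
          field_simp
          ring
        rw [h5, hfm] at h1'
        rw [h5, hgm] at h4'
        have h9 : |c * (u.2 - τ * u.1) / (2 * S)| ≤ w m / 2 := by
          rw [abs_le]
          constructor <;> linarith
        have h10 : (c * (u.2 - τ * u.1) / (2 * S)) ^ 2 ≤ (w m / 2) ^ 2 := by
          rw [← sq_abs]
          exact pow_le_pow_left₀ (abs_nonneg _) h9 2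
        have h11 : (c * (u.2 - τ * u.1) / (2 * S)) ^ 2 * (4 * S ^ 2) =
            c ^ 2 * (u.2 - τ * u.1) ^ 2 := by
          field_simp
          ring
        have h12 : (w m / 2) ^ 2 * (4 * S ^ 2) = c ^ 2 * (1 + τ ^ 2) := by
          rw [hSA]
          have : (w m / 2) ^ 2 * (4 * A) = A * w m ^ 2 := by ring
          rw [this, h3]; ring
        have h13 : c ^ 2 * (u.2 - τ * u.1) ^ 2 ≤ c ^ 2 * (1 + τ ^ 2) := by
          rw [← h11, ← h12]
          exact mul_le_mul_of_nonneg_right h10 (by positivity)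
        exact le_of_mul_le_mul_left h13 (by positivity)
      show u.1 ^ 2 + u.2 ^ 2 ≤ 1
      by_cases hη : u.2 = 0
      · rw [hη]
        by_contra hcon
        push Not at hcon
        have h1 : 0 < u.1 ^ 2 - 1 := by nlinarith
        have h2 := key (Real.sqrt (2 / (u.1 ^ 2 - 1)))
        rw [hη] at h2
        have h3 : Real.sqrt (2 / (u.1 ^ 2 - 1)) ^ 2 = 2 / (u.1 ^ 2 - 1) :=
          Real.sq_sqrt (by positivity)
        have h4 : (0 - Real.sqrt (2 / (u.1 ^ 2 - 1)) * u.1) ^ 2 =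
            2 / (u.1 ^ 2 - 1) * u.1 ^ 2 := by
          rw [zero_sub, neg_sq, mul_pow, h3]
        rw [h4, h3] at h2
        have h5 : 2 / (u.1 ^ 2 - 1) * u.1 ^ 2 = 2 / (u.1 ^ 2 - 1) + 2 := by
          field_simp
          ring
        linarith
      · have h2 := key (-u.1 / u.2)
        have h3 : (u.2 - -u.1 / u.2 * u.1) ^ 2 * u.2 ^ 2 = (u.1 ^ 2 + u.2 ^ 2) ^ 2 := by
          field_simp
          ring
        have h4 : (1 + (-u.1 / u.2) ^ 2) * u.2 ^ 2 = u.1 ^ 2 + u.2 ^ 2 := by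
          field_simp
          ring
        have h5 : (u.1 ^ 2 + u.2 ^ 2) ^ 2 ≤ u.1 ^ 2 + u.2 ^ 2 := by
          calc (u.1 ^ 2 + u.2 ^ 2) ^ 2 = (u.2 - -u.1 / u.2 * u.1) ^ 2 * u.2 ^ 2 := h3.symm
            _ ≤ (1 + (-u.1 / u.2) ^ 2) * u.2 ^ 2 := mul_le_mul_of_nonneg_right h2 (sq_nonneg _)
            _ = u.1 ^ 2 + u.2 ^ 2 := h4
        have h6 : 0 < u.1 ^ 2 + u.2 ^ 2 := by positivity
        nlinarith
    · rintro _ ⟨z, hz, rfl⟩
      exact hclosed z hz
  refine ⟨affA S B c x0 y0 hS0 hc, ?_⟩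
  rw [hKeq, ← frontier_disc]
  set H : (ℝ × ℝ) ≃ₜ (ℝ × ℝ) := (affA S B c x0 y0 hS0 hc).toHomeomorphOfFiniteDimensional with hH
  have hHc : ∀ s : Set (ℝ × ℝ), affA S B c x0 y0 hS0 hc '' s = H '' s := fun s => by
    rw [hH]; rfl
  rw [hHc, hHc, H.image_frontier]

end Pool.Agent.Helper438.Oval
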