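import Mathlib

set_option autoImplicit false

open Set Filter Topology

namespace Pool.Agent.Helper438.Oval

theorem J10_deriv_a (w w1 w2 e e1 e2 a : ℝ → ℝ) (s C c : ℝ) (hwpos : ∀ m, 0 < w m)
    (hw0 : ∀ m, HasDerivAt w (w1 m) m) (hw1 : ∀ m, HasDerivAt w1 (w2 m) m)
    (he0 : ∀ m, HasDerivAt e (c / w m ^ 2 * e1 m) m)
    (he1 : ∀ m, HasDerivAt e1 (c / w m ^ 2 * e2 m) m)
    (ha : ∀ m, a m = C * (w m ^ 3 * (1 + s * e m))) (m : ℝ) :
    deriv a m = C * (3 * w m ^ 2 * w1 m * (1 + s * e m) + s * c * w m * e1 m) ∧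
    deriv (deriv a) m = C * (6 * w m * w1 m ^ 2 * (1 + s * e m) +
      3 * w m ^ 2 * w2 m * (1 + s * e m) + 4 * s * c * w1 m * e1 m + s * c ^ 2 / w m * e2 m) := by
  have h1 : ∀ m, HasDerivAt a
      (C * (3 * w m ^ 2 * w1 m * (1 + s * e m) + s * c * w m * e1 m)) m := by
    intro m
    have hne : w m ≠ 0 := (hwpos m).ne'
    have h := (((hw0 m).pow 3).mul (((he0 m).const_mul s).const_add 1)).const_mul C
    have e : a = fun x => C * ((w ^ 3) x * (1 + s * e x)) := by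
      funext x; rw [ha x]; rfl
    rw [e]
    refine h.congr_deriv ?_
    simp only [Pi.pow_apply]
    field_simp
    ring
  have h2 : deriv a = fun m => C * (3 * w m ^ 2 * w1 m * (1 + s * e m) + s * c * w m * e1 m) := by
    funext x
    exact (h1 x).deriv
  refine ⟨(h1 m).deriv, ?_⟩
  rw [h2]
  have hne : w m ≠ 0 := (hwpos m).ne'
  have h := (((((hw0 m).pow 2).const_mul 3).mul (hw1 m)).mul
    (((he0 m).const_mul s).const_add 1)).add (((hw0 m).const_mul (s * c)).mul (he1 m))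
  have h' := h.const_mul C
  have e' := h'.deriv
  have : deriv (fun m => C * (3 * w m ^ 2 * w1 m * (1 + s * e m) + s * c * w m * e1 m)) m =
      C * ((3 * (((2 : ℕ) : ℝ) * w m ^ (2 - 1) * w1 m) * w1 m + 3 * (w ^ 2) m * w2 m) *
        (1 + s * e m) + 3 * (w ^ 2) m * w1 m * (s * (c / w m ^ 2 * e1 m)) +
        (s * c * w1 m * e1 m + s * c * w m * (c / w m ^ 2 * e2 m))) := by
    exact e'
  rw [this]
  simp only [Pi.pow_apply]
  field_simp
  ring

/-- derivative of the dual point -/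
theorem J10_derivM {w w1 w2 : ℝ → ℝ} (hw0 : ∀ m, HasDerivAt w (w1 m) m)
    (hw1 : ∀ m, HasDerivAt w1 (w2 m) m) {m : ℝ} (hm : w1 m ≠ 0) :
    HasDerivAt (fun n => n - w n / w1 n) (w m * w2 m / w1 m ^ 2) m := by
  have h := (hasDerivAt_id m).sub ((hw0 m).div (hw1 m) hm)
  refine HasDerivAt.congr_deriv (f := fun n => n - w n / w1 n) h ?_
  field_simp
  ring

theorem J10_ev {w1 w2 : ℝ → ℝ} (hw1 : ∀ m, HasDerivAt w1 (w2 m) m) {m : ℝ} (hm : w1 m ≠ 0) :
    ∀ᶠ n in 𝓝 m, w1 n ≠ 0 :=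
  (hw1 m).continuousAt.eventually_ne hm

set_option linter.unusedSectionVars false

section Dual

variable {w w1 w2 x p z : ℝ → ℝ} {c : ℝ} (hc : 0 < c) (hwpos : ∀ m, 0 < w m)
  (hw0 : ∀ m, HasDerivAt w (w1 m) m) (hw1 : ∀ m, HasDerivAt w1 (w2 m) m)
  (hxpos : ∀ m, 0 < x m) (hkey : ∀ m, w m ^ 3 * w2 m * x m = c ^ 2)
  (hM : ∀ m, w1 m ≠ 0 → w (m - w m / w1 m) ^ 2 * w1 m ^ 2 = c ^ 2)

include hc hwpos hw0 hw1 hxpos hkey hM

theorem J10_dual_w1 {m : ℝ} (hm : w1 m ≠ 0) :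
    w1 (m - w m / w1 m) * w m = - w (m - w m / w1 m) * w1 m := by
  have hMd := J10_derivM hw0 hw1 hm
  have h1 := ((HasDerivAt.comp m (hw0 (m - w m / w1 m)) hMd).pow 2).mul ((hw1 m).pow 2)
  have h2 : HasDerivAt (((w ∘ fun n => n - w n / w1 n) ^ 2) * (w1 ^ 2)) 0 m := by
    refine (hasDerivAt_const m (c ^ 2)).congr_of_eventuallyEq ?_
    filter_upwards [J10_ev hw1 hm] with n hn
    exact hM n hn
  have h3 := h1.unique h2
  simp only [Pi.pow_apply, Function.comp_apply] at h3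
  have hw2 : w2 m ≠ 0 := by
    intro h
    have := hkey m
    rw [h] at this
    simp only [mul_zero, zero_mul] at this
    exact absurd this.symm (pow_pos hc 2).ne'
  have hW : w (m - w m / w1 m) ≠ 0 := (hwpos _).ne'
  set W := w (m - w m / w1 m) with hWd
  set W1 := w1 (m - w m / w1 m) with hW1d
  have h4 : 2 * (W * (w2 m * (W1 * w m + W * w1 m))) = 0 := by
    rw [← h3]
    push_cast
    field_simp
  have h5 : W1 * w m + W * w1 m = 0 := by
    have h6 := (mul_eq_zero.1 h4).resolve_left two_ne_zero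
    have h7 := (mul_eq_zero.1 h6).resolve_left hW
    exact (mul_eq_zero.1 h7).resolve_left hw2
  linear_combination h5

theorem J10_dual_x {m : ℝ} (hm : w1 m ≠ 0) : x (m - w m / w1 m) * x m = 1 := by
  have hMd := J10_derivM hw0 hw1 hm
  have h1 := (HasDerivAt.comp m (hw1 (m - w m / w1 m)) hMd).mul (hw0 m)
  have h1' := (HasDerivAt.comp m (hw0 (m - w m / w1 m)) hMd).neg.mul (hw1 m)
  have h2 : HasDerivAt ((-(w ∘ fun n => n - w n / w1 n)) * w1)
      (w2 (m - w m / w1 m) * (w m * w2 m / w1 m ^ 2) * w m +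
        (w1 ∘ fun n => n - w n / w1 n) m * w1 m) m := by
    refine HasDerivAt.congr_of_eventuallyEq (f := (w1 ∘ fun n => n - w n / w1 n) * w) h1 ?_
    filter_upwards [J10_ev hw1 hm] with n hn
    have := J10_dual_w1 hc hwpos hw0 hw1 hxpos hkey hM hn
    simp only [Pi.mul_apply, Function.comp_apply, Pi.neg_apply]
    rw [this]
  have h3 := h1'.unique h2
  simp only [Pi.neg_apply, Function.comp_apply] at h3
  have hd := J10_dual_w1 hc hwpos hw0 hw1 hxpos hkey hM hm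
  have hW0 := hwpos (m - w m / w1 m)
  have hk := hkey m
  have hk' := hkey (m - w m / w1 m)
  have hM' := hM m hm
  have hx := hxpos m
  have hx' := hxpos (m - w m / w1 m)
  have hw := hwpos m
  set W := w (m - w m / w1 m) with hWd
  set W1 := w1 (m - w m / w1 m) with hW1d
  set W2 := w2 (m - w m / w1 m) with hW2d
  set X := x (m - w m / w1 m) with hXd
  -- clear denominators
  have h4 : -(W1 * w m * w2 m * w1 m) - W * w2 m * w1 m ^ 2 =
      W2 * w m ^ 2 * w2 m + W1 * w1 m ^ 3 := by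
    have : w1 m ^ 2 * (-(W1 * (w m * w2 m / w1 m ^ 2)) * w1 m + -W * w2 m) =
        w1 m ^ 2 * (W2 * (w m * w2 m / w1 m ^ 2) * w m + W1 * w1 m) := by rw [h3]
    field_simp at this
    linear_combination this
  have h5 : W2 * w m ^ 2 * w2 m + W1 * w1 m ^ 3 = 0 := by
    rw [← h4]
    linear_combination (-w2 m * w1 m) * hd
  have h6 : W2 * w m ^ 3 * w2 m = W * w1 m ^ 4 := by
    linear_combination w m * h5 - w1 m ^ 3 * hd
  have h7 : (W ^ 3 * W2) * (w m ^ 3 * w2 m) = c ^ 4 := by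
    have : c ^ 4 = (W ^ 2 * w1 m ^ 2) ^ 2 := by rw [hM']; ring
    rw [this]
    linear_combination W ^ 3 * h6
  have h8 : c ^ 4 * (X * x m) = c ^ 4 * 1 := by
    rw [← h7]
    have : (W ^ 3 * W2 * X) * (w m ^ 3 * w2 m * x m) = c ^ 4 := by rw [hk, hk']; ring
    linear_combination this - h7
  exact mul_left_cancel₀ (pow_pos hc 4).ne' h8

/-- chain rule at the dual point -/
theorem J10_chain {h h1 : ℝ → ℝ} (hh : ∀ m, HasDerivAt h (c / w m ^ 2 * h1 m) m) {m : ℝ}
    (hm : w1 m ≠ 0) :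
    HasDerivAt (h ∘ fun n => n - w n / w1 n) (c / w m ^ 2 * (h1 (m - w m / w1 m) / x m)) m := by
  have hMd := J10_derivM hw0 hw1 hm
  refine (HasDerivAt.comp m (hh (m - w m / w1 m)) hMd).congr_deriv ?_
  have hk := hkey m
  have hM' := hM m hm
  have hx := (hxpos m).ne'
  have hw := (hwpos m).ne'
  have hW := (hwpos (m - w m / w1 m)).ne'
  set W := w (m - w m / w1 m) with hWd
  set H := h1 (m - w m / w1 m)
  field_simp
  linear_combination H * hk - H * hM'

theorem J10_dual_p (hx0 : ∀ m, HasDerivAt x (c / w m ^ 2 * p m) m) {m : ℝ} (hm : w1 m ≠ 0) :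
    p (m - w m / w1 m) * x m = - p m := by
  have h1 := J10_chain hc hwpos hw0 hw1 hxpos hkey hM hx0 hm
  have h2 : HasDerivAt (x ∘ fun n => n - w n / w1 n) (-(c / w m ^ 2 * p m) / x m ^ 2) m := by
    refine HasDerivAt.congr_of_eventuallyEq ((hx0 m).inv (hxpos m).ne') ?_
    filter_upwards [J10_ev hw1 hm] with n hn
    have := J10_dual_x hc hwpos hw0 hw1 hxpos hkey hM hn
    exact eq_inv_of_mul_eq_one_left this
  have h3 := h1.unique h2
  have hx := (hxpos m).ne'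
  have hw := (hwpos m).ne'
  generalize p (m - w m / w1 m) = P at h3 ⊢
  field_simp at h3
  linear_combination h3

theorem J10_dual_z (hx0 : ∀ m, HasDerivAt x (c / w m ^ 2 * p m) m)
    (hp0 : ∀ m, HasDerivAt p (c / w m ^ 2 * z m) m) {m : ℝ} (hm : w1 m ≠ 0) :
    z (m - w m / w1 m) * x m = - z m * x m + p m ^ 2 := by
  have h1 := J10_chain hc hwpos hw0 hw1 hxpos hkey hM hp0 hm
  have h2 : HasDerivAt (p ∘ fun n => n - w n / w1 n)
      ((-(c / w m ^ 2 * z m) * x m - -p m * (c / w m ^ 2 * p m)) / x m ^ 2) m := by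
    refine HasDerivAt.congr_of_eventuallyEq ((hp0 m).neg.div (hx0 m) (hxpos m).ne') ?_
    filter_upwards [J10_ev hw1 hm] with n hn
    have := J10_dual_p hc hwpos hw0 hw1 hxpos hkey hM hx0 hn
    exact (eq_div_iff (hxpos n).ne').2 this
  have h3 := h1.unique h2
  have hx := (hxpos m).ne'
  have hw := (hwpos m).ne'
  have hc' := hc.ne'
  generalize z (m - w m / w1 m) = P at h3 ⊢
  field_simp at h3
  linear_combination h3

end Dual

/-- the relation (A) at a point -/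
def J10A (K r x p z : ℝ) : Prop :=
  2 * K * x * p ^ 2 = 3 * (K - x) * (6 * r * x + 12 * K ^ 2 - K * x * z)

def J10N (K r x : ℝ) : ℝ := K ^ 2 * (x ^ 2 + 1) + r * x
def J10Dn (K x : ℝ) : ℝ := (3 * K ^ 2 - 1) * x - K * (x ^ 2 + 1)
def J10Q (K r x : ℝ) : ℝ := (K * x - 1) * (K - x) * J10N K r x

theorem J10_C {K r x p z X P Z : ℝ} (hA : J10A K r x p z)
    (hA' : J10A K r X P Z) (h1 : X * x = 1) (h2 : P * x = - p) (h3 : Z * x = -z * x + p ^ 2) :
    K * J10Dn K x * p ^ 2 = 36 * J10Q K r x := by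
  unfold J10A at hA hA'
  have hB : 2 * K * p ^ 2 = 3 * (K * x - 1) *
      (6 * r * x + 12 * K ^ 2 * x ^ 2 + K * x * z - K * p ^ 2) := by
    have e1 : x ^ 3 * (2 * K * X * P ^ 2) =
        x ^ 3 * (3 * (K - X) * (6 * r * X + 12 * K ^ 2 - K * X * Z)) := by rw [hA']
    have e2 : x ^ 3 * (2 * K * X * P ^ 2) = 2 * K * (X * x) * (P * x) ^ 2 := by ring
    have e3 : x ^ 3 * (3 * (K - X) * (6 * r * X + 12 * K ^ 2 - K * X * Z)) =
        3 * (K * x - X * x) * (6 * r * (X * x) * x + 12 * K ^ 2 * x ^ 2 - K * (X * x) * (Z * x)) := by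
      ring
    rw [e2, e3, h1, h2, h3] at e1
    linear_combination e1
  unfold J10Q J10N J10Dn
  linear_combination (K - x) * hB + (K * x - 1) * hA

/-- the polynomial of the final relation -/
def J10P (K r x : ℝ) : ℝ :=
  (K - x) * ((r * x + 2 * K ^ 2) * J10Dn K x ^ 2 -
    3 * x * ((K * (K - x) * J10N K r x - (K * x - 1) * J10N K r x +
      (K * x - 1) * (K - x) * (2 * K ^ 2 * x + r)) * J10Dn K x -
      J10Q K r x * ((3 * K ^ 2 - 1) - 2 * K * x))) - 4 * x * J10Q K r x * J10Dn K x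

theorem J10_alg {K r x p z : ℝ} (hA : J10A K r x p z)
    (hC : K * J10Dn K x * p ^ 2 = 36 * J10Q K r x)
    (hC' : K * p * (((3 * K ^ 2 - 1) - 2 * K * x) * p ^ 2 + 2 * J10Dn K x * z) =
      36 * (K * (K - x) * J10N K r x - (K * x - 1) * J10N K r x +
      (K * x - 1) * (K - x) * (2 * K ^ 2 * x + r)) * p) :
    J10P K r x * p = 0 := by
  unfold J10A at hA
  have e1 : K * J10Dn K x ^ 2 * z * p = 18 * ((K * (K - x) * J10N K r x -
      (K * x - 1) * J10N K r x +
      (K * x - 1) * (K - x) * (2 * K ^ 2 * x + r)) * J10Dn K x -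
      J10Q K r x * ((3 * K ^ 2 - 1) - 2 * K * x)) * p := by
    linear_combination (J10Dn K x / 2) * hC' - ((3 * K ^ 2 - 1) - 2 * K * x) / 2 * p * hC
  unfold J10P
  linear_combination (-(J10Dn K x ^ 2 * p) / 18) * hA + (x * J10Dn K x * p / 9) * hC
    + (x * (K - x) / 6) * e1

/-- a continuous function on the line with finite range is constant -/
theorem J10_const_of_finite {f : ℝ → ℝ} (hf : Continuous f) {S : Set ℝ} (hS : S.Finite)
    (h : ∀ m, f m ∈ S) (a b : ℝ) : f a = f b := by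
  have key : ∀ a b, ¬ f a < f b := by
    intro a b hab
    have h1 : Icc (f a) (f b) ⊆ range f := intermediate_value_univ a b hf
    have h2 : Icc (f a) (f b) ⊆ S := by
      intro y hy
      obtain ⟨m, rfl⟩ := h1 hy
      exact h m
    exact (Icc_infinite hab) (hS.subset h2)
  exact le_antisymm (not_lt.1 (key b a)) (not_lt.1 (key a b))

theorem J10_poly_const {f : ℝ → ℝ} (P : Polynomial ℝ) (hP : P ≠ 0) {g : ℝ → ℝ}
    (hf : ∀ m, HasDerivAt f (g m) m) (h : ∀ m, P.eval (f m) * g m = 0) (a b : ℝ) : f a = f b := by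
  have hG : ∀ y : ℝ, HasDerivAt (fun u => ∫ t in (0:ℝ)..u, P.eval t) (P.eval y) y := fun y =>
    (P.continuous.integral_hasStrictDerivAt 0 y).hasDerivAt
  set G : ℝ → ℝ := fun u => ∫ t in (0:ℝ)..u, P.eval t with hGd
  have hcomp : ∀ m, HasDerivAt (G ∘ f) 0 m := by
    intro m
    have := HasDerivAt.comp m (hG (f m)) (hf m)
    rw [h m] at this
    exact this
  have hconst : ∀ m n, G (f m) = G (f n) := by
    intro m n
    exact is_const_of_deriv_eq_zero (fun x => (hcomp x).differentiableAt)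
      (fun x => (hcomp x).deriv) m n
  have hcont : Continuous f := by
    rw [continuous_iff_continuousAt]
    exact fun m => (hf m).continuousAt
  have key : ∀ a b, ¬ f a < f b := by
    intro a b hab
    have h1 : Icc (f a) (f b) ⊆ range f := intermediate_value_univ a b hcont
    have h2 : ∀ y ∈ Ioo (f a) (f b), P.eval y = 0 := by
      intro y hy
      have h3 : HasDerivAt G 0 y := by
        refine (hasDerivAt_const y (G (f a))).congr_of_eventuallyEq ?_
        filter_upwards [Ioo_mem_nhds hy.1 hy.2] with u hu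
        obtain ⟨m, rfl⟩ := h1 ⟨hu.1.le, hu.2.le⟩
        exact hconst m a
      exact (hG y).unique h3
    apply hP
    apply Polynomial.eq_zero_of_infinite_isRoot
    exact (Ioo_infinite hab).mono (fun y hy => h2 y hy)
  exact le_antisymm (not_lt.1 (key b a)) (not_lt.1 (key a b))

/-- `J10P` is a nonzero polynomial -/
theorem J10_P_poly {K : ℝ} (hK : 0 < K) (r : ℝ) :
    ∃ P : Polynomial ℝ, P ≠ 0 ∧ ∀ x, P.eval x = J10P K r x := by
  classical
  let X : Polynomial ℝ := Polynomial.X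
  let k : Polynomial ℝ := Polynomial.C K
  let ρ : Polynomial ℝ := Polynomial.C r
  let N : Polynomial ℝ := k ^ 2 * (X ^ 2 + 1) + ρ * X
  let Dn : Polynomial ℝ := (3 * k ^ 2 - 1) * X - k * (X ^ 2 + 1)
  let Q : Polynomial ℝ := (k * X - 1) * (k - X) * N
  let P : Polynomial ℝ := (k - X) * ((ρ * X + 2 * k ^ 2) * Dn ^ 2 -
    3 * X * ((k * (k - X) * N - (k * X - 1) * N +
      (k * X - 1) * (k - X) * (2 * k ^ 2 * X + ρ)) * Dn -
      Q * ((3 * k ^ 2 - 1) - 2 * k * X))) - 4 * X * Q * Dn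
  have hev : ∀ x, P.eval x = J10P K r x := by
    intro x
    simp only [P, Q, Dn, N, X, k, ρ, J10P, J10Q, J10N, J10Dn, Polynomial.eval_sub,
      Polynomial.eval_mul, Polynomial.eval_add, Polynomial.eval_pow, Polynomial.eval_X,
      Polynomial.eval_C, Polynomial.eval_one, Polynomial.eval_ofNat]
  refine ⟨P, ?_, hev⟩
  intro h0
  have h1 := hev 0
  rw [h0, Polynomial.eval_zero] at h1
  have h2 : J10P K r 0 = 2 * K ^ 5 := by
    unfold J10P J10Dn
    ring
  rw [h2] at h1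
  have : 0 < 2 * K ^ 5 := by positivity
  linarith

theorem J10_Dn_deriv (K x : ℝ) : HasDerivAt (J10Dn K) ((3 * K ^ 2 - 1) - 2 * K * x) x := by
  unfold J10Dn
  have h := ((hasDerivAt_id x).const_mul (3 * K ^ 2 - 1)).sub
    ((((hasDerivAt_id x).pow 2).add_const 1).const_mul K)
  refine HasDerivAt.congr_deriv (f := fun x => (3 * K ^ 2 - 1) * x - K * (x ^ 2 + 1)) h ?_
  simp
  ring

theorem J10_Q_deriv (K r x : ℝ) : HasDerivAt (J10Q K r) (K * (K - x) * J10N K r x -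
    (K * x - 1) * J10N K r x + (K * x - 1) * (K - x) * (2 * K ^ 2 * x + r)) x := by
  unfold J10Q J10N
  have h := ((((hasDerivAt_id x).const_mul K).sub_const 1).mul
    ((hasDerivAt_id x).const_sub K)).mul
    (((((hasDerivAt_id x).pow 2).add_const 1).const_mul (K ^ 2)).add
      ((hasDerivAt_id x).const_mul r))
  refine HasDerivAt.congr_deriv
    (f := fun x => (K * x - 1) * (K - x) * (K ^ 2 * (x ^ 2 + 1) + r * x)) h ?_
  simp
  ring

section Core

variable {w w1 w2 x p z : ℝ → ℝ} {c : ℝ} (hc : 0 < c) (hwpos : ∀ m, 0 < w m)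
  (hw0 : ∀ m, HasDerivAt w (w1 m) m) (hw1 : ∀ m, HasDerivAt w1 (w2 m) m)
  (hxpos : ∀ m, 0 < x m) (hkey : ∀ m, w m ^ 3 * w2 m * x m = c ^ 2)
  (hM : ∀ m, w1 m ≠ 0 → w (m - w m / w1 m) ^ 2 * w1 m ^ 2 = c ^ 2)
  (hx0 : ∀ m, HasDerivAt x (c / w m ^ 2 * p m) m)
  (hp0 : ∀ m, HasDerivAt p (c / w m ^ 2 * z m) m)

include hc hwpos hw0 hw1 hxpos hkey hM hx0 hp0

theorem J10_core {K r : ℝ} (hK : 0 < K) (hA : ∀ m, J10A K r (x m) (p m) (z m)) (m : ℝ) :
    x m = 1 := by
  have hw2 : ∀ m, 0 < w2 m := by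
    intro m
    have h := hkey m
    by_contra hn
    have h1 : w m ^ 3 * w2 m * x m ≤ 0 :=
      mul_nonpos_of_nonpos_of_nonneg
        (mul_nonpos_of_nonneg_of_nonpos (pow_pos (hwpos m) 3).le (not_lt.1 hn)) (hxpos m).le
    rw [h] at h1
    exact absurd (pow_pos hc 2) (not_lt.2 h1)
  have hmono : StrictMono w1 := strictMono_of_deriv_pos (fun m => by
    rw [(hw1 m).deriv]; exact hw2 m)
  have hdense : Dense {m | w1 m = 0}ᶜ := by
    apply Set.Countable.dense_compl ℝ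
    apply Set.Subsingleton.countable
    intro a ha b hb
    exact hmono.injective (ha.trans hb.symm)
  have hCpt : ∀ m, w1 m ≠ 0 → K * J10Dn K (x m) * p m ^ 2 = 36 * J10Q K r (x m) := by
    intro m hm
    exact J10_C (hA m) (hA (m - w m / w1 m))
      (J10_dual_x hc hwpos hw0 hw1 hxpos hkey hM hm)
      (J10_dual_p hc hwpos hw0 hw1 hxpos hkey hM hx0 hm)
      (J10_dual_z hc hwpos hw0 hw1 hxpos hkey hM hx0 hp0 hm)
  have hP1 : ∀ m, w1 m ≠ 0 → J10P K r (x m) * p m = 0 := by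
    intro m hm
    apply J10_alg (hA m) (hCpt m hm)
    have h1 := (((J10_Dn_deriv K (x m)).comp m (hx0 m)).const_mul K).mul ((hp0 m).pow 2)
    have h2 := ((J10_Q_deriv K r (x m)).comp m (hx0 m)).const_mul 36
    have h3 := h1.unique (h2.congr_of_eventuallyEq (by
      filter_upwards [J10_ev hw1 hm] with n hn
      exact hCpt n hn))
    simp only [Function.comp_apply, Pi.pow_apply] at h3
    have hw := (hwpos m).ne'
    have hc' := hc.ne'
    have e : c / w m ^ 2 ≠ 0 := div_ne_zero hc' (pow_ne_zero 2 hw)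
    apply mul_left_cancel₀ e
    push_cast at h3
    linear_combination h3
  have hxc : Continuous x := continuous_iff_continuousAt.2 fun m => (hx0 m).continuousAt
  have hpc : Continuous p := continuous_iff_continuousAt.2 fun m => (hp0 m).continuousAt
  obtain ⟨P, hP0, hPe⟩ := J10_P_poly hK r
  have hP2 : ∀ m, P.eval (x m) * p m = 0 := by
    have hcont : Continuous fun m => P.eval (x m) * p m :=
      (P.continuous.comp hxc).mul hpc
    have := Continuous.ext_on hdense hcont (continuous_const (y := (0 : ℝ))) (by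
      intro m hm
      show P.eval (x m) * p m = 0
      rw [hPe]
      exact hP1 m hm)
    intro m
    exact congrFun this m
  have hxconst := J10_poly_const P hP0 hx0 (fun m => by
    have := hP2 m
    calc P.eval (x m) * (c / w m ^ 2 * p m) = (c / w m ^ 2) * (P.eval (x m) * p m) := by ring
      _ = 0 := by rw [this, mul_zero])
  obtain ⟨m0, hm0⟩ := hdense.nonempty
  have h1 := J10_dual_x hc hwpos hw0 hw1 hxpos hkey hM hm0
  rw [hxconst _ m, hxconst m0 m] at h1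
  nlinarith [hxpos m]

end Core

/-- The differential equations force `w'' w³` and `a₂ / a₁` to be constant. -/
theorem ode_const (w a₁ a₂ : ℝ → ℝ) (hw : ContDiff ℝ ((⊤ : ℕ∞) : WithTop ℕ∞) w)
    (ha₁ : ContDiff ℝ ((⊤ : ℕ∞) : WithTop ℕ∞) a₁) (ha₂ : ContDiff ℝ ((⊤ : ℕ∞) : WithTop ℕ∞) a₂)
    (hwpos : ∀ m, 0 < w m) (h1 : ∀ m, 0 < a₁ m) (h2 : ∀ m, 0 < a₂ m)
    (hw2 : ∀ m, deriv (deriv w) m = 1 / a₁ m + 1 / a₂ m)
    (C3 : ℝ) (h3 : ∀ m, a₁ m + a₂ m = C3 * w m ^ 3)
    (C5 : ℝ) (h5 : ∀ m,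
      (3 * a₁ m ^ 2 * deriv (deriv a₁) m - 2 * a₁ m * deriv a₁ m ^ 2) +
      (3 * a₂ m ^ 2 * deriv (deriv a₂) m - 2 * a₂ m * deriv a₂ m ^ 2) = C5 * w m ^ 5)
    (c : ℝ) (hc : 0 < c)
    (hR : ∀ m, deriv w m ≠ 0 → w (m - w m / deriv w m) * |deriv w m| = c) :
    (∃ L : ℝ, 0 < L ∧ ∀ m, a₂ m = L * a₁ m) ∧ ∀ m, deriv (deriv w) m * w m ^ 3 = c ^ 2 := by
  -- first and second derivatives of `w`
  have hdw : ContDiff ℝ ((⊤ : ℕ∞) : WithTop ℕ∞) (deriv w) := (contDiff_infty_iff_deriv.1 hw).2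
  have hw0 : ∀ m, HasDerivAt w (deriv w m) m := fun m =>
    ((contDiff_infty_iff_deriv.1 hw).1 m).hasDerivAt
  have hw1 : ∀ m, HasDerivAt (deriv w) (deriv (deriv w) m) m := fun m =>
    ((contDiff_infty_iff_deriv.1 hdw).1 m).hasDerivAt
  have hC3 : 0 < C3 := by
    have h := h3 0
    have h' : 0 < C3 * w 0 ^ 3 := by rw [← h]; exact add_pos (h1 0) (h2 0)
    exact (pos_iff_pos_of_mul_pos h').2 (pow_pos (hwpos 0) 3)
  -- the function `e`
  obtain ⟨e, hedef⟩ : ∃ e : ℝ → ℝ, e = fun m => (a₂ m - a₁ m) / (C3 * w m ^ 3) := ⟨_, rfl⟩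
  have hden : ∀ m, C3 * w m ^ 3 ≠ 0 := fun m => (mul_pos hC3 (pow_pos (hwpos m) 3)).ne'
  have hes : ContDiff ℝ ((⊤ : ℕ∞) : WithTop ℕ∞) e := by
    rw [hedef]
    exact (ha₂.sub ha₁).div (contDiff_const.mul (hw.pow 3)) hden
  obtain ⟨e1, he1def⟩ : ∃ e1 : ℝ → ℝ, e1 = fun m => w m ^ 2 / c * deriv e m := ⟨_, rfl⟩
  have hde : ContDiff ℝ ((⊤ : ℕ∞) : WithTop ℕ∞) (deriv e) := (contDiff_infty_iff_deriv.1 hes).2
  have he1s : ContDiff ℝ ((⊤ : ℕ∞) : WithTop ℕ∞) e1 := by
    rw [he1def]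
    exact ((hw.pow 2).div_const c).mul hde
  obtain ⟨e2, he2def⟩ : ∃ e2 : ℝ → ℝ, e2 = fun m => w m ^ 2 / c * deriv e1 m := ⟨_, rfl⟩
  have hcn := hc.ne'
  have hwn : ∀ m, w m ≠ 0 := fun m => (hwpos m).ne'
  have he0 : ∀ m, HasDerivAt e (c / w m ^ 2 * e1 m) m := by
    intro m
    refine ((contDiff_infty_iff_deriv.1 hes).1 m).hasDerivAt.congr_deriv ?_
    have := hwn m
    rw [he1def]
    field_simp
  have he1 : ∀ m, HasDerivAt e1 (c / w m ^ 2 * e2 m) m := by
    intro m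
    refine ((contDiff_infty_iff_deriv.1 he1s).1 m).hasDerivAt.congr_deriv ?_
    have := hwn m
    rw [he2def]
    field_simp
  have hea : ∀ m, e m * (C3 * w m ^ 3) = a₂ m - a₁ m := fun m => by
    rw [hedef]
    exact div_mul_cancel₀ _ (hden m)
  have hA1 : ∀ m, a₁ m = C3 / 2 * (w m ^ 3 * (1 + (-1) * e m)) := by
    intro m
    linear_combination (1 / 2) * h3 m + (1 / 2) * hea m
  have hA2 : ∀ m, a₂ m = C3 / 2 * (w m ^ 3 * (1 + 1 * e m)) := by
    intro m
    linear_combination (1 / 2) * h3 m - (1 / 2) * hea m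
  have hd1 := J10_deriv_a w (deriv w) (deriv (deriv w)) e e1 e2 a₁ (-1) (C3 / 2) c hwpos hw0 hw1
    he0 he1 hA1
  have hd2 := J10_deriv_a w (deriv w) (deriv (deriv w)) e e1 e2 a₂ 1 (C3 / 2) c hwpos hw0 hw1
    he0 he1 hA2
  -- bounds of `e`
  have hem : ∀ m, e m < 1 := by
    intro m
    have h := h1 m
    rw [hA1 m] at h
    have h' : 0 < C3 / 2 * w m ^ 3 := by have := hwpos m; positivity
    have h'' : 0 < (C3 / 2 * w m ^ 3) * (1 - e m) := by linarith
    have := (pos_iff_pos_of_mul_pos h'').1 h'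
    linarith
  have hem' : ∀ m, -1 < e m := by
    intro m
    have h := h2 m
    rw [hA2 m] at h
    have h' : 0 < C3 / 2 * w m ^ 3 := by have := hwpos m; positivity
    have h'' : 0 < (C3 / 2 * w m ^ 3) * (1 + e m) := by linarith
    have := (pos_iff_pos_of_mul_pos h'').1 h'
    linarith
  have hsq : ∀ m, 0 < 1 - e m ^ 2 := by
    intro m
    have := hem m
    have := hem' m
    nlinarith
  obtain ⟨K, hKd⟩ : ∃ K : ℝ, K = c ^ 2 * C3 / 4 := ⟨_, rfl⟩
  have hK : 0 < K := by rw [hKd]; positivity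
  have hx0 : ∀ m, HasDerivAt (fun m => K * (1 - e m ^ 2)) (c / w m ^ 2 * (-2 * K * e m * e1 m)) m := by
    intro m
    have h := (((he0 m).pow 2).const_sub 1).const_mul K
    refine HasDerivAt.congr_deriv (f := fun m => K * (1 - e m ^ 2)) h ?_
    push_cast
    ring
  have hp0 : ∀ m, HasDerivAt (fun m => -2 * K * e m * e1 m)
      (c / w m ^ 2 * (-2 * K * (e1 m ^ 2 + e m * e2 m))) m := by
    intro m
    have h := ((he0 m).const_mul (-2 * K)).mul (he1 m)
    refine HasDerivAt.congr_deriv (f := fun m => -2 * K * e m * e1 m) h ?_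
    ring
  have hxpos : ∀ m, 0 < K * (1 - e m ^ 2) := fun m => mul_pos hK (hsq m)
  have hkey : ∀ m, w m ^ 3 * deriv (deriv w) m * (K * (1 - e m ^ 2)) = c ^ 2 := by
    intro m
    have hw' := hwn m
    have h6 : 1 - e m ≠ 0 := by have := hem m; linarith
    have h7 : 1 + e m ≠ 0 := by have := hem' m; linarith
    have hC := hC3.ne'
    rw [hw2 m, hA1 m, hA2 m, hKd, show 1 + -1 * e m = 1 - e m by ring,
      show 1 + 1 * e m = 1 + e m by ring]
    field_simp
    ring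
  have hM : ∀ m, deriv w m ≠ 0 → w (m - w m / deriv w m) ^ 2 * deriv w m ^ 2 = c ^ 2 := by
    intro m hm
    rw [← hR m hm, mul_pow, sq_abs]
  obtain ⟨r, hr⟩ : ∃ r : ℝ, r * (288 * K) = - 432 * K ^ 2 - C5 * c ^ 4 :=
    ⟨(- 432 * K ^ 2 - C5 * c ^ 4) / (288 * K), div_mul_cancel₀ _ (by positivity)⟩
  have hA : ∀ m, J10A K r (K * (1 - e m ^ 2))
      (-2 * K * e m * e1 m) (-2 * K * (e1 m ^ 2 + e m * e2 m)) := by
    intro m
    have h := h5 m
    rw [(hd1 m).1, (hd1 m).2, (hd2 m).1, (hd2 m).2, hA1 m, hA2 m] at h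
    have hw' := hwn m
    have hk := hkey m
    -- simplified form
    have hs : (C3 / 2) ^ 3 * (9 * w m ^ 3 * deriv (deriv w) m * (2 + 6 * e m ^ 2) +
        c ^ 2 * (12 * e m * e2 m - 4 * e1 m ^ 2)) = C5 := by
      apply mul_left_cancel₀ (pow_ne_zero 5 hw')
      field_simp at h
      field_simp
      linear_combination h
    have hk2 : w m ^ 3 * deriv (deriv w) m * C3 * (1 - e m ^ 2) = 4 := by
      apply mul_left_cancel₀ (pow_ne_zero 2 hcn)
      rw [hKd] at hk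
      linear_combination 4 * hk
    have h9 : C5 * c ^ 4 * (1 - e m ^ 2) = 72 * K ^ 2 * (2 + 6 * e m ^ 2) +
        8 * K ^ 3 * (1 - e m ^ 2) * (12 * e m * e2 m - 4 * e1 m ^ 2) := by
      rw [← hs, hKd]
      linear_combination (9 / 8 * C3 ^ 2 * c ^ 4 * (2 + 6 * e m ^ 2)) * hk2
    unfold J10A
    linear_combination (-(K * e m ^ 2) * (1 - e m ^ 2) / 16) * hr + (K * e m ^ 2 / 16) * h9
  have hx := J10_core hc hwpos hw0 hw1 hxpos hkey hM hx0 hp0 hK hA
  refine ⟨?_, ?_⟩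
  · have hconst : ∀ m, e m = e 0 := by
      intro m
      have hcont : Continuous e := hes.continuous
      refine J10_const_of_finite hcont (S := {e 0, - e 0}) (Set.toFinite _) ?_ m 0
      intro n
      have h6 : K * (1 - e n ^ 2) = K * (1 - e 0 ^ 2) := (hx n).trans (hx 0).symm
      have h7 : 1 - e n ^ 2 = 1 - e 0 ^ 2 := mul_left_cancel₀ hK.ne' h6
      have h8 : e n ^ 2 = e 0 ^ 2 := by linarith
      exact sq_eq_sq_iff_eq_or_eq_neg.1 h8
    have h6 := hem 0
    have h7 := hem' 0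
    refine ⟨(1 + e 0) / (1 - e 0), div_pos (by linarith) (by linarith), fun m => ?_⟩
    rw [hA1 m, hA2 m, hconst m]
    have : 1 - e 0 ≠ 0 := by linarith
    field_simp
    ring
  · intro m
    have h6 := hkey m
    rw [hx m] at h6
    linarith

end Pool.Agent.Helper438.Oval
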