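import Pool.Agent.Helper438.Oval.Const
import Pool.Agent.Helper438.Oval.Chords
import Pool.Agent.Helper438.Oval.Ode
import Pool.Agent.Helper438.Oval.Ellipse

set_option autoImplicit false

open Set Filter Topology Asymptotics

namespace Pool.Agent.Helper438.Oval

/-- uniqueness of the coefficients of the expansion -/
theorem expansion_unique {H : ℝ → ℝ} {A A' B B' : ℝ}
    (h1 : Tendsto (fun t => (H t - (t - A * t ^ 3 / 24)) / t ^ 5) (𝓝[>] (0 : ℝ)) (𝓝 B))
    (h2 : Tendsto (fun t => (H t - (t - A' * t ^ 3 / 24)) / t ^ 5) (𝓝[>] (0 : ℝ)) (𝓝 B')) :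
    A = A' ∧ B = B' := by
  have hA : A = A' := by
    have h3 := (h1.sub h2)
    have h4 : Tendsto (fun t : ℝ => t ^ 2) (𝓝[>] (0 : ℝ)) (𝓝 0) := by
      have : Tendsto (fun t : ℝ => t ^ 2) (𝓝 0) (𝓝 (0 ^ 2)) := tendsto_id.pow 2
      simp only [ne_eq, OfNat.ofNat_ne_zero, not_false_eq_true, zero_pow] at this
      exact this.mono_left nhdsWithin_le_nhds
    have h5 := h3.mul h4
    rw [mul_zero] at h5
    have h6 : Tendsto (fun _ : ℝ => (A - A') / 24) (𝓝[>] (0 : ℝ)) (𝓝 0) := by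
      refine h5.congr' ?_
      filter_upwards [self_mem_nhdsWithin] with t ht
      have ht0 : t ≠ 0 := ne_of_gt ht
      field_simp
      ring
    have h7 := tendsto_nhds_unique h6 tendsto_const_nhds
    linarith
  refine ⟨hA, ?_⟩
  rw [hA] at h1
  exact tendsto_nhds_unique h1 h2

theorem oval (K : Set (ℝ × ℝ)) (hK : IsCompact K) (hs : StrictConvex ℝ K)
    (hi : (interior K).Nonempty)
    (hγe : ∃ γ : ℝ → ℝ × ℝ, ContDiff ℝ ((⊤ : ℕ∞) : WithTop ℕ∞) γ ∧ Function.Periodic γ 1 ∧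
          Set.InjOn γ (Set.Ico 0 1) ∧ (∀ t : ℝ, deriv γ t ≠ 0) ∧ Set.range γ = frontier K)
    (hconj : ∀ u v : ℝ × ℝ, u ≠ 0 → v ≠ 0 → ∀ σu σv : ℝ × ℝ → ℝ × ℝ,
        (∀ x ∈ frontier K, σu x ∈ frontier K ∧ (∃ t : ℝ, σu x = x + t • u) ∧
            (σu x = x → ∀ t : ℝ, x + t • u ∈ frontier K → t = 0)) →
        (∀ x ∈ frontier K, σv x ∈ frontier K ∧ (∃ t : ℝ, σv x = x + t • v) ∧
            (σv x = x → ∀ t : ℝ, x + t • v ∈ frontier K → t = 0)) →
        ∃ h : ℝ × ℝ → AddCircle (1 : ℝ), ∃ α : AddCircle (1 : ℝ),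
          ContinuousOn h (frontier K) ∧ Set.BijOn h (frontier K) Set.univ ∧
            ∀ x ∈ frontier K, h (σv (σu x)) = h x + α) :
    ∃ A : (ℝ × ℝ) ≃ᵃ[ℝ] (ℝ × ℝ), frontier K = A '' {p : ℝ × ℝ | p.1 ^ 2 + p.2 ^ 2 = 1} := by
  obtain ⟨γ, hγs, -, -, hγd, hγ⟩ := hγe
  have hne : K.Nonempty := hi.mono interior_subset
  have h10 : (1 : ℝ) ≠ 0 := one_ne_zero
  have hm10 : (-1 : ℝ) ≠ 0 := by norm_num
  choose p hp using fun m => exists_top K hK hne 1 m
  choose q hq using fun m => exists_top K hK hne (-1) m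
  have hpm : ∀ m, ∀ z ∈ K, z.2 - m * z.1 ≤ (p m).2 - m * (p m).1 := by
    intro m z hz
    have := (hp m).2 z hz
    linarith
  have hqm : ∀ m, ∀ z ∈ K, (q m).2 - m * (q m).1 ≤ z.2 - m * z.1 := by
    intro m z hz
    have := (hq m).2 z hz
    linarith
  -- geometry
  have hgeo := fun m => chord_geometry K hK hs hi hconj m (p m) (q m) (hp m).1 (hpm m)
    (hq m).1 (hqm m)
  have hH : ∀ (m l : ℝ) (x y : ℝ × ℝ), l ≠ 0 → x ∈ frontier K → y ∈ frontier K →
        (x.1 + l, x.2 + l * m) ∈ frontier K → (y.1 + l, y.2 + l * m) ∈ frontier K → x ≠ y →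
        det2 (y - x) (p m - q m) = 0 := fun m => (hgeo m).1
  choose R hR x hx hx' hRad' using fun m => (hgeo m).2
  have hRad : ∀ m, ∀ z ∈ K, ∀ z' ∈ K, det2 (z - z') (p m - q m) ≤ R m * width p q m :=
    fun m => hRad' m
  obtain ⟨c, hc, hcR⟩ := radon_const hK hs hi hp hq R x hR hx hx' hRad
  -- sides
  have Sp : Side K 1 p := by
    refine ⟨Or.inl rfl, hp, top_continuous hK hs h10 hp, fun m z hz => top_unique hs h10 hz (hp m),
      fun m₀ => ?_⟩
    obtain ⟨δ, hδ, f, hf0, hf1, hf⟩ := local_graph hK hs hi hγs hγd hγ h10 (hp m₀)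
    refine ⟨δ, hδ, f, hf0, hf1, fun x₁ hx₁ => ?_⟩
    obtain ⟨a1, a2⟩ := hf x₁ hx₁
    have a3 : p (deriv f x₁) = (x₁, f x₁) := (top_unique hs h10 a2 (hp _)).symm
    refine ⟨a1, a3, ?_⟩
    have a4 := curvature_pos hK hi hp hq hγs hγd hγ R x hR hx hx' hRad c hcR (deriv f x₁) 1
      (x₁, f x₁) (q (deriv f x₁)) (by rw [a3]; apply Prod.ext <;> simp) (hq _).1 (Or.inl rfl) f
      rfl rfl (by
        have : Ioo ((p m₀).1 - δ) ((p m₀).1 + δ) ∈ 𝓝 x₁ := Ioo_mem_nhds hx₁.1 hx₁.2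
        filter_upwards [this] with y hy
        exact ⟨(hf y hy).1, (hf y hy).2.1⟩)
    exact a4
  have Sq : Side K (-1) q := by
    refine ⟨Or.inr rfl, hq, top_continuous hK hs hm10 hq,
      fun m z hz => top_unique hs hm10 hz (hq m), fun m₀ => ?_⟩
    obtain ⟨δ, hδ, f, hf0, hf1, hf⟩ := local_graph hK hs hi hγs hγd hγ hm10 (hq m₀)
    refine ⟨δ, hδ, f, hf0, hf1, fun x₁ hx₁ => ?_⟩
    obtain ⟨a1, a2⟩ := hf x₁ hx₁
    have a3 : q (deriv f x₁) = (x₁, f x₁) := (top_unique hs hm10 a2 (hq _)).symm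
    refine ⟨a1, a3, ?_⟩
    have a4 := curvature_pos hK hi hp hq hγs hγd hγ R x hR hx hx' hRad c hcR (deriv f x₁) (-1)
      (x₁, f x₁) (p (deriv f x₁)) (by rw [a3]; apply Prod.ext <;> simp) (hp _).1 (Or.inr rfl) f
      rfl rfl (by
        have : Ioo ((q m₀).1 - δ) ((q m₀).1 + δ) ∈ 𝓝 x₁ := Ioo_mem_nhds hx₁.1 hx₁.2
        filter_upwards [this] with y hy
        exact ⟨(hf y hy).1, (hf y hy).2.1⟩)
    exact a4
  -- local constancy
  have hloc := local_const hK hs hi Sp Sq hH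
  have hwpos : ∀ m, 0 < width p q m := width_pos hi hp hq
  have hlc : ∀ m₀ : ℝ, ∀ᶠ m in 𝓝 m₀,
      (alpha 1 p m + alpha (-1) q m) / width p q m ^ 3
        = (alpha 1 p m₀ + alpha (-1) q m₀) / width p q m₀ ^ 3 ∧
      (coef (alpha 1 p) m + coef (alpha (-1) q) m) / width p q m ^ 5
        = (coef (alpha 1 p) m₀ + coef (alpha (-1) q) m₀) / width p q m₀ ^ 5 := by
    intro m₀
    obtain ⟨η, hη, H, hHt⟩ := hloc m₀
    have h0 := hHt m₀ ⟨by linarith, by linarith⟩
    have : Ioo (m₀ - η) (m₀ + η) ∈ 𝓝 m₀ := Ioo_mem_nhds (by linarith) (by linarith)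
    filter_upwards [this] with m hm
    exact expansion_unique (hHt m hm) h0
  have hC3 : ∀ m, (alpha 1 p m + alpha (-1) q m) / width p q m ^ 3
      = (alpha 1 p 0 + alpha (-1) q 0) / width p q 0 ^ 3 := by
    have : IsLocallyConstant (fun m => (alpha 1 p m + alpha (-1) q m) / width p q m ^ 3) :=
      (IsLocallyConstant.iff_eventually_eq _).mpr fun m₀ => (hlc m₀).mono fun m hm => hm.1
    intro m
    exact this.apply_eq_of_preconnectedSpace m 0
  have hC5 : ∀ m, (coef (alpha 1 p) m + coef (alpha (-1) q) m) / width p q m ^ 5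
      = (coef (alpha 1 p) 0 + coef (alpha (-1) q) 0) / width p q 0 ^ 5 := by
    have : IsLocallyConstant (fun m => (coef (alpha 1 p) m + coef (alpha (-1) q) m)
        / width p q m ^ 5) :=
      (IsLocallyConstant.iff_eventually_eq _).mpr fun m₀ => (hlc m₀).mono fun m hm => hm.2
    intro m
    exact this.apply_eq_of_preconnectedSpace m 0
  -- smoothness of the width
  have hwd : ∀ m, HasDerivAt (width p q) ((q m).1 - (p m).1) m := fun m =>
    width_hasDerivAt hK hs hp hq m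
  have hwderiv : deriv (width p q) = fun m => (q m).1 - (p m).1 := funext fun m => (hwd m).deriv
  have hws : ContDiff ℝ oo (width p q) := by
    have : ContDiff ℝ (oo + 1) (width p q) := by
      rw [contDiff_succ_iff_deriv]
      refine ⟨fun m => (hwd m).differentiableAt, by simp, ?_⟩
      rw [hwderiv]
      exact Sq.smooth.sub Sp.smooth
    exact this
  have hXd : ∀ m, HasDerivAt (fun m => (p m).1) (deriv (fun m => (p m).1) m) m := fun m =>
    hasDerivAt_of_oo Sp.smooth.contDiffAt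
  have hYd : ∀ m, HasDerivAt (fun m => (q m).1) (deriv (fun m => (q m).1) m) m := fun m =>
    hasDerivAt_of_oo Sq.smooth.contDiffAt
  have hX' : ∀ m, deriv (fun m => (p m).1) m = -(1 / alpha 1 p m) := by
    intro m
    have := Sp.deriv_ne m
    unfold alpha
    field_simp
  have hY' : ∀ m, deriv (fun m => (q m).1) m = 1 / alpha (-1) q m := by
    intro m
    have := Sq.deriv_ne m
    unfold alpha
    field_simp
  have hw2' : ∀ m, deriv (deriv (width p q)) m
      = deriv (fun m => (q m).1) m - deriv (fun m => (p m).1) m := by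
    intro m
    rw [hwderiv]
    exact ((hYd m).sub (hXd m)).deriv
  have hw2 : ∀ m, deriv (deriv (width p q)) m = 1 / alpha 1 p m + 1 / alpha (-1) q m := by
    intro m
    rw [hw2', hX', hY']
    ring
  have hode := ode_const (width p q) (alpha 1 p) (alpha (-1) q) hws Sp.alpha_smooth
    Sq.alpha_smooth hwpos Sp.alpha_pos Sq.alpha_pos hw2
    ((alpha 1 p 0 + alpha (-1) q 0) / width p q 0 ^ 3)
    (fun m => by
      have h1 := hC3 m
      have h2 := pow_pos (hwpos m) 3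
      rw [div_eq_iff h2.ne'] at h1
      exact h1)
    (-5760 * ((coef (alpha 1 p) 0 + coef (alpha (-1) q) 0) / width p q 0 ^ 5))
    (fun m => by
      have h1 := hC5 m
      have h2 := pow_pos (hwpos m) 5
      rw [div_eq_iff h2.ne'] at h1
      unfold coef at h1 ⊢
      linarith)
    c hc
    (fun m hm => by
      have h1 : deriv (width p q) m = (q m).1 - (p m).1 := (hwd m).deriv
      rw [h1] at hm ⊢
      exact radon_dual hi hp hq R x hx hx' hRad c hcR m hm)
  obtain ⟨⟨L, hL, hLa⟩, hww⟩ := hode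
  apply ellipse_of_width K hK hs hi p q (fun m => (hp m).1) hpm (fun m => (hq m).1) hqm
    (fun m => top_hasDerivAt hK hs h10 hp m) (fun m => top_hasDerivAt hK hs hm10 hq m)
    Sp.smooth Sq.smooth L hL ?_ c hc ?_
  · intro m
    rw [hX', hY', hLa m]
    have h1 := Sp.alpha_pos m
    field_simp
    try ring
  · intro m
    have h1 := hww m
    rw [hw2'] at h1
    exact h1

end Pool.Agent.Helper438.Oval
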