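import Pool.Agent.Helper438.Oval.Radon

set_option autoImplicit false

open Set Filter Topology

namespace Pool.Agent.Helper438.Oval

/-- the value of `ContDiff` order: infinitely differentiable -/
abbrev oo : WithTop ℕ∞ := ((⊤ : ℕ∞) : WithTop ℕ∞)

theorem tangent_supports {K : Set (ℝ × ℝ)} (hK : IsCompact K) (hs : StrictConvex ℝ K)
    (hi : (interior K).Nonempty) {γ : ℝ → ℝ × ℝ} (hγ : range γ = frontier K)
    {t a m ε : ℝ} (hε : ε ≠ 0) (ha : a ≠ 0) (hd : HasDerivAt γ (a, a * m) t)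
    {z₁ : ℝ × ℝ} (hz₁ : z₁ ∈ K)
    (hlt : ε * (z₁.2 - m * z₁.1) < ε * ((γ t).2 - m * (γ t).1)) : IsTop K ε m (γ t) := by
  have hfr : ∀ s, γ s ∈ frontier K := fun s => by rw [← hγ]; exact mem_range_self s
  have hfrK : ∀ z ∈ frontier K, z ∈ K := fun z hz => hK.isClosed.frontier_subset hz
  have hni : γ t ∉ interior K := by
    have := hfr t
    rw [hK.isClosed.frontier_eq] at this
    exact this.2
  obtain ⟨f, hf⟩ := geometric_hahn_banach_open_point hs.convex.interior isOpen_interior hni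
  have hcl : closure (interior K) = K := by
    rw [hs.convex.closure_interior_eq_closure_of_nonempty_interior hi, hK.isClosed.closure_eq]
  have hle : ∀ z ∈ K, f z ≤ f (γ t) := by
    intro z hz
    rw [← hcl] at hz
    exact le_on_closure (fun x hx => (hf x hx).le) f.continuous.continuousOn
      continuousOn_const hz
  have hcoord : ∀ z : ℝ × ℝ, f z = f (1, 0) * z.1 + f (0, 1) * z.2 := by
    intro z
    have : z = z.1 • ((1, 0) : ℝ × ℝ) + z.2 • ((0, 1) : ℝ × ℝ) := by ext <;> simp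
    conv_lhs => rw [this]
    rw [map_add, map_smul, map_smul, smul_eq_mul, smul_eq_mul]
    ring
  have hmax : IsLocalMax (fun s => f (γ s)) t :=
    Eventually.of_forall fun s => hle _ (hfrK _ (hfr s))
  have hder : HasDerivAt (fun s => f (γ s)) (f (a, a * m)) t :=
    f.hasFDerivAt.comp_hasDerivAt t hd
  have h0 := hmax.hasDerivAt_eq_zero hder
  rw [hcoord] at h0
  simp only at h0
  set A := f (1, 0)
  set B := f (0, 1)
  have hA : A = -B * m := by
    have : a * (A + B * m) = 0 := by linarith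
    rcases mul_eq_zero.mp this with h | h
    · exact absurd h ha
    · linarith
  have hfz : ∀ z : ℝ × ℝ, f z = B * (z.2 - m * z.1) := by
    intro z; rw [hcoord, hA]; ring
  obtain ⟨z₀, hz₀⟩ := hi
  have hB : B ≠ 0 := by
    intro h
    have := hf z₀ hz₀
    rw [hfz, hfz, h] at this
    simp at this
  have h1 := hle z₁ hz₁
  rw [hfz, hfz] at h1
  have hBε : 0 < B * ε := by
    have h2 : 0 ≤ B * ((γ t).2 - m * (γ t).1 - (z₁.2 - m * z₁.1)) := by linarith
    have h3 : 0 < ε * ((γ t).2 - m * (γ t).1 - (z₁.2 - m * z₁.1)) := by linarith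
    have h4 : 0 ≤ (B * ε) * ((γ t).2 - m * (γ t).1 - (z₁.2 - m * z₁.1)) ^ 2 := by
      have := mul_nonneg h2 h3.le
      nlinarith [this]
    have h5 : 0 < ((γ t).2 - m * (γ t).1 - (z₁.2 - m * z₁.1)) ^ 2 := by
      have hne : (γ t).2 - m * (γ t).1 - (z₁.2 - m * z₁.1) ≠ 0 := by
        intro h; rw [h, mul_zero] at h3; exact lt_irrefl _ h3
      positivity
    have h6 : 0 ≤ B * ε := by
      by_contra hneg
      push Not at hneg
      have := mul_neg_of_neg_of_pos hneg h5
      linarith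
    exact lt_of_le_of_ne h6 (mul_ne_zero hB hε).symm
  refine ⟨hfrK _ (hfr t), fun z hz => ?_⟩
  have h7 := hle z hz
  rw [hfz, hfz] at h7
  have h8 : 0 ≤ B * ((γ t).2 - m * (γ t).1 - (z.2 - m * z.1)) := by linarith
  have h9 : 0 ≤ B ^ 2 * (ε * ((γ t).2 - m * (γ t).1 - (z.2 - m * z.1))) := by
    have := mul_nonneg h8 hBε.le
    nlinarith [this]
  have h10 : 0 < B ^ 2 := by positivity
  have h11 : 0 ≤ ε * ((γ t).2 - m * (γ t).1 - (z.2 - m * z.1)) :=
    nonneg_of_mul_nonneg_right h9 h10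
  linarith

/-- local graph representation of the boundary near the extreme point of slope `m₀` -/
theorem local_graph {K : Set (ℝ × ℝ)} (hK : IsCompact K) (hs : StrictConvex ℝ K)
    (hi : (interior K).Nonempty) {γ : ℝ → ℝ × ℝ} (hγs : ContDiff ℝ oo γ)
    (hγd : ∀ t, deriv γ t ≠ 0) (hγ : range γ = frontier K)
    {ε m₀ : ℝ} (hε : ε ≠ 0) {P : ℝ × ℝ} (hP : IsTop K ε m₀ P) :
    ∃ δ > 0, ∃ f : ℝ → ℝ, f P.1 = P.2 ∧ deriv f P.1 = m₀ ∧
      ∀ x ∈ Ioo (P.1 - δ) (P.1 + δ), ContDiffAt ℝ oo f x ∧ IsTop K ε (deriv f x) (x, f x) := by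
  have hPf := top_mem_frontier hK hε hP
  rw [← hγ] at hPf
  obtain ⟨t₀, ht₀⟩ := hPf
  have hfr : ∀ s, γ s ∈ frontier K := fun s => by rw [← hγ]; exact mem_range_self s
  have hfrK : ∀ z ∈ frontier K, z ∈ K := fun z hz => hK.isClosed.frontier_subset hz
  have hdiff : Differentiable ℝ γ := hγs.differentiable (by simp)
  have hX : ContDiff ℝ oo (fun t => (γ t).1) := contDiff_fst.comp hγs
  have hY : ContDiff ℝ oo (fun t => (γ t).2) := contDiff_snd.comp hγs
  have hXd : ∀ t, HasDerivAt (fun t => (γ t).1) (deriv γ t).1 t := fun t =>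
    (hdiff t).hasDerivAt.fst
  have hYd : ∀ t, HasDerivAt (fun t => (γ t).2) (deriv γ t).2 t := fun t =>
    (hdiff t).hasDerivAt.snd
  -- slope at t₀
  have hslope : (deriv γ t₀).2 = m₀ * (deriv γ t₀).1 := by
    have hmax : IsLocalMax (fun t => ε * ((γ t).2 - m₀ * (γ t).1)) t₀ :=
      Eventually.of_forall fun s => by
        change ε * ((γ s).2 - m₀ * (γ s).1) ≤ ε * ((γ t₀).2 - m₀ * (γ t₀).1)
        rw [ht₀]
        exact hP.2 _ (hfrK _ (hfr s))
    have hd : HasDerivAt (fun t => ε * ((γ t).2 - m₀ * (γ t).1))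
        (ε * ((deriv γ t₀).2 - m₀ * (deriv γ t₀).1)) t₀ :=
      ((hYd t₀).sub ((hXd t₀).const_mul m₀)).const_mul ε
    have := hmax.hasDerivAt_eq_zero hd
    rcases mul_eq_zero.mp this with h | h
    · exact absurd h hε
    · linarith
  have hX0 : (deriv γ t₀).1 ≠ 0 := by
    intro h
    apply hγd t₀
    rw [h, mul_zero] at hslope
    exact Prod.ext h hslope
  have hstrict : HasStrictDerivAt (fun t => (γ t).1) (deriv γ t₀).1 t₀ := by
    have h1 := hX.contDiffAt (x := t₀)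
    exact h1.hasStrictDerivAt' (hXd t₀) (by simp)
  let H := (hstrict.hasStrictFDerivAt_equiv hX0).toOpenPartialHomeomorph (fun t => (γ t).1)
  have hHcoe : (H : ℝ → ℝ) = fun t => (γ t).1 := rfl
  have hHs : t₀ ∈ H.source := HasStrictFDerivAt.mem_toOpenPartialHomeomorph_source _
  have hP1 : P.1 = H t₀ := by rw [hHcoe]; simp [ht₀]
  have hHt : P.1 ∈ H.target := by rw [hP1]; exact H.map_source hHs
  have hsym0 : H.symm P.1 = t₀ := by rw [hP1]; exact H.left_inv hHs
  have hright : ∀ x ∈ H.target, (γ (H.symm x)).1 = x := fun x hx => H.right_inv hx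
  obtain ⟨z₁, hz₁⟩ := hi
  have hz₁K : z₁ ∈ K := interior_subset hz₁
  have hz₁lt := top_lt_of_interior hε hP hz₁
  have hcd : Continuous (deriv γ) := hγs.continuous_deriv (by simp)
  have hsc : ContinuousAt H.symm P.1 := H.continuousAt_symm hHt
  have hc1 : ContinuousAt (fun x => (deriv γ (H.symm x)).1) P.1 :=
    (continuous_fst.comp hcd).continuousAt.comp hsc
  have hc2 : ContinuousAt (fun x => (deriv γ (H.symm x)).2) P.1 :=
    (continuous_snd.comp hcd).continuousAt.comp hsc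
  have hne0 : (fun x => (deriv γ (H.symm x)).1) P.1 ≠ 0 := by
    simp only [hsym0]; exact hX0
  have hcs : ContinuousAt (fun x => (deriv γ (H.symm x)).2 / (deriv γ (H.symm x)).1) P.1 :=
    hc2.div hc1 hne0
  have hcγ : ContinuousAt (fun x => (γ (H.symm x)).2) P.1 :=
    (continuous_snd.comp hγs.continuous).continuousAt.comp hsc
  have hs0 : (deriv γ (H.symm P.1)).2 / (deriv γ (H.symm P.1)).1 = m₀ := by
    rw [hsym0, hslope]; field_simp
  have ev1 : ∀ᶠ x in 𝓝 P.1, x ∈ H.target := H.open_target.mem_nhds hHt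
  have ev2 : ∀ᶠ x in 𝓝 P.1, (deriv γ (H.symm x)).1 ≠ 0 := hc1.eventually_ne hne0
  have ev3 : ∀ᶠ x in 𝓝 P.1,
      ε * (z₁.2 - (deriv γ (H.symm x)).2 / (deriv γ (H.symm x)).1 * z₁.1)
        < ε * ((γ (H.symm x)).2 - (deriv γ (H.symm x)).2 / (deriv γ (H.symm x)).1 * x) := by
    have hA : ContinuousAt (fun x =>
        ε * (z₁.2 - (deriv γ (H.symm x)).2 / (deriv γ (H.symm x)).1 * z₁.1)) P.1 := by
      fun_prop
    have hB : ContinuousAt (fun x =>
        ε * ((γ (H.symm x)).2 - (deriv γ (H.symm x)).2 / (deriv γ (H.symm x)).1 * x)) P.1 := by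
      fun_prop
    apply hA.eventually_lt hB
    rw [hs0, hsym0, ht₀]
    exact hz₁lt
  obtain ⟨δ, hδ, hball⟩ := Metric.eventually_nhds_iff_ball.mp (ev1.and (ev2.and ev3))
  have hfd : ∀ x ∈ H.target, (deriv γ (H.symm x)).1 ≠ 0 →
      ContDiffAt ℝ oo (fun x => (γ (H.symm x)).2) x ∧
      HasDerivAt (fun x => (γ (H.symm x)).2)
        ((deriv γ (H.symm x)).2 / (deriv γ (H.symm x)).1) x := by
    intro x hx hne
    have h1 : HasDerivAt H (deriv γ (H.symm x)).1 (H.symm x) := by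
      rw [hHcoe]; exact hXd _
    have h2 : ContDiffAt ℝ oo H (H.symm x) := by rw [hHcoe]; exact hX.contDiffAt
    have h3 : ContDiffAt ℝ oo H.symm x := H.contDiffAt_symm_deriv hne hx h1 h2
    have h4 : HasDerivAt H.symm (deriv γ (H.symm x)).1⁻¹ x := H.hasDerivAt_symm hx hne h1
    refine ⟨hY.contDiffAt.comp x h3, ?_⟩
    have h5 := (hYd (H.symm x)).comp x h4
    rw [div_eq_mul_inv]
    exact h5
  refine ⟨δ, hδ, fun x => (γ (H.symm x)).2, ?_, ?_, ?_⟩
  · simp only [hsym0, ht₀]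
  · rw [(hfd P.1 hHt hne0).2.deriv, hs0]
  · intro x hx
    have hxb : x ∈ Metric.ball P.1 δ := by
      rw [Metric.mem_ball, Real.dist_eq, abs_lt]
      constructor <;> linarith [hx.1, hx.2]
    obtain ⟨hxt, hxne, hxlt⟩ := hball x hxb
    obtain ⟨h1, h2⟩ := hfd x hxt hxne
    refine ⟨h1, ?_⟩
    rw [h2.deriv]
    have hpt : (x, (γ (H.symm x)).2) = γ (H.symm x) := Prod.ext (hright x hxt).symm rfl
    rw [hpt]
    apply tangent_supports hK hs ⟨z₁, hz₁⟩ hγ hε hxne ?_ hz₁K
    · rw [hright x hxt]; exact hxlt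
    · have h3 := (hdiff (H.symm x)).hasDerivAt
      have h4 : deriv γ (H.symm x) = ((deriv γ (H.symm x)).1,
          (deriv γ (H.symm x)).1 * ((deriv γ (H.symm x)).2 / (deriv γ (H.symm x)).1)) := by
        apply Prod.ext
        · rfl
        · simp only; field_simp
      rw [h4] at h3
      exact h3

end Pool.Agent.Helper438.Oval
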