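import Mathlib

set_option autoImplicit false

open Set Filter Topology Asymptotics MeasureTheory

namespace Pool.Agent.Helper438.Oval

lemma window_poly (F0 α β γ c l : ℝ) :
    (∫ x in (c - l / 2)..(c + l / 2), (F0 - α / 2 * x ^ 2 + β / 6 * x ^ 3 + γ / 24 * x ^ 4)) =
      F0 * l - α * l ^ 3 / 24 - α / 2 * (c ^ 2 * l) + β / 24 * (c * l ^ 3) + γ / 1920 * l ^ 5
        + (β / 6 * (c ^ 3 * l) + γ / 24 * (c ^ 4 * l) + γ / 48 * (c ^ 2 * l ^ 3)) := by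
  have h : ∀ x ∈ uIcc (c - l / 2) (c + l / 2),
      HasDerivAt (fun x : ℝ => F0 * x - α / 6 * x ^ 3 + β / 24 * x ^ 4 + γ / 120 * x ^ 5)
        (F0 - α / 2 * x ^ 2 + β / 6 * x ^ 3 + γ / 24 * x ^ 4) x := by
    intro x _
    have h1 : HasDerivAt (fun x : ℝ => F0 * x) (F0 * 1) x := (hasDerivAt_id x).const_mul F0
    have h3 : HasDerivAt (fun x : ℝ => α / 6 * x ^ 3) (α / 6 * ((3 : ℕ) * x ^ (3 - 1))) x :=
      (hasDerivAt_pow 3 x).const_mul _
    have h4 : HasDerivAt (fun x : ℝ => β / 24 * x ^ 4) (β / 24 * ((4 : ℕ) * x ^ (4 - 1))) x :=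
      (hasDerivAt_pow 4 x).const_mul _
    have h5 : HasDerivAt (fun x : ℝ => γ / 120 * x ^ 5) (γ / 120 * ((5 : ℕ) * x ^ (5 - 1))) x :=
      (hasDerivAt_pow 5 x).const_mul _
    refine (((h1.sub h3).add h4).add h5).congr_deriv ?_
    push_cast
    ring
  rw [intervalIntegral.integral_eq_sub_of_hasDerivAt h]
  · ring
  · exact (by fun_prop : Continuous fun x : ℝ =>
      F0 - α / 2 * x ^ 2 + β / 6 * x ^ 3 + γ / 24 * x ^ 4).intervalIntegrable _ _

lemma window_error (F : ℝ → ℝ) (F0 α β γ δ : ℝ) (hδ : 0 < δ)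
    (hFc : ContinuousOn F (Icc (-δ) δ))
    (hF : (fun x => F x - (F0 - α / 2 * x ^ 2 + β / 6 * x ^ 3 + γ / 24 * x ^ 4))
      =o[𝓝 0] (fun x => x ^ 4)) (ε : ℝ) (hε : 0 < ε) :
    ∀ᶠ l in 𝓝[>] (0 : ℝ), ∀ c : ℝ, |c| ≤ l / 2 →
      |(∫ x in (c - l / 2)..(c + l / 2), F x) -
        (F0 * l - α * l ^ 3 / 24 - α / 2 * (c ^ 2 * l) + β / 24 * (c * l ^ 3) + γ / 1920 * l ^ 5
        + (β / 6 * (c ^ 3 * l) + γ / 24 * (c ^ 4 * l) + γ / 48 * (c ^ 2 * l ^ 3)))|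
        ≤ ε * l ^ 5 := by
  have h1 := hF.def hε
  rw [Metric.eventually_nhds_iff] at h1
  obtain ⟨η, hη, h1⟩ := h1
  have h2 : ∀ᶠ l in 𝓝[>] (0 : ℝ), l ∈ Ioo (0 : ℝ) (min η δ) :=
    Ioo_mem_nhdsGT (lt_min hη hδ)
  filter_upwards [h2] with l hl c hc
  obtain ⟨hl0, hl1⟩ := hl
  have hlη : l < η := hl1.trans_le (min_le_left _ _)
  have hlδ : l < δ := hl1.trans_le (min_le_right _ _)
  have hc' := abs_le.1 hc
  have hle : c - l / 2 ≤ c + l / 2 := by linarith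
  have hsub : uIcc (c - l / 2) (c + l / 2) ⊆ Icc (-δ) δ := by
    rw [uIcc_of_le hle]
    intro x hx
    exact ⟨by linarith [hx.1, hc'.1], by linarith [hx.2, hc'.2]⟩
  have hint : IntervalIntegrable F volume (c - l / 2) (c + l / 2) :=
    (hFc.mono hsub).intervalIntegrable
  have hint2 : IntervalIntegrable (fun x : ℝ => F0 - α / 2 * x ^ 2 + β / 6 * x ^ 3
      + γ / 24 * x ^ 4) volume (c - l / 2) (c + l / 2) :=
    (by fun_prop : Continuous fun x : ℝ =>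
      F0 - α / 2 * x ^ 2 + β / 6 * x ^ 3 + γ / 24 * x ^ 4).intervalIntegrable _ _
  rw [← window_poly F0 α β γ c l, ← intervalIntegral.integral_sub hint hint2]
  have hb : ∀ x ∈ uIoc (c - l / 2) (c + l / 2),
      ‖F x - (F0 - α / 2 * x ^ 2 + β / 6 * x ^ 3 + γ / 24 * x ^ 4)‖ ≤ ε * l ^ 4 := by
    intro x hx
    rw [uIoc_of_le hle] at hx
    have hxl : |x| ≤ l := abs_le.2 ⟨by linarith [hx.1, hc'.1], by linarith [hx.2, hc'.2]⟩
    have h3 := h1 (y := x) (by rw [Real.dist_eq, sub_zero]; exact hxl.trans_lt hlη)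
    refine h3.trans ?_
    rw [Real.norm_eq_abs, abs_pow]
    exact mul_le_mul_of_nonneg_left (pow_le_pow_left₀ (abs_nonneg x) hxl 4) hε.le
  have h4 := intervalIntegral.norm_integral_le_of_norm_le_const hb
  rw [Real.norm_eq_abs] at h4
  refine h4.trans ?_
  have : c + l / 2 - (c - l / 2) = l := by ring
  rw [this, abs_of_pos hl0]
  exact le_of_eq (by ring)

lemma upper_alg (α β γ c l M : ℝ) (hl : 0 < l) (hc : |c| ≤ l / 2)
    (hM : |β| / 12 * l + |γ| / 32 * l ^ 2 = M) (hpos : 0 < α - 2 * M) :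
    - (α / 2 * (c ^ 2 * l)) + β / 24 * (c * l ^ 3) + γ / 1920 * l ^ 5
        + (β / 6 * (c ^ 3 * l) + γ / 24 * (c ^ 4 * l) + γ / 48 * (c ^ 2 * l ^ 3)) ≤
      (γ / 1920 + β ^ 2 / (1152 * (α - 2 * M))) * l ^ 5 := by
  have hb : β / 6 * (c ^ 3 * l) ≤ |β| / 12 * l * (c ^ 2 * l) := by
    have : β * c ≤ |β| * (l / 2) := by
      calc β * c ≤ |β * c| := le_abs_self _
        _ = |β| * |c| := abs_mul _ _
        _ ≤ |β| * (l / 2) := mul_le_mul_of_nonneg_left hc (abs_nonneg _)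
    have h2 : 0 ≤ c ^ 2 * l := by positivity
    nlinarith [mul_le_mul_of_nonneg_right this h2]
  have hc2 : c ^ 2 ≤ l ^ 2 / 4 := by
    have := pow_le_pow_left₀ (abs_nonneg c) hc 2
    rw [sq_abs] at this
    nlinarith
  have hg : γ / 24 * (c ^ 4 * l) ≤ |γ| / 96 * l ^ 2 * (c ^ 2 * l) := by
    have h1 : γ * c ^ 2 ≤ |γ| * (l ^ 2 / 4) := by
      calc γ * c ^ 2 ≤ |γ| * c ^ 2 := mul_le_mul_of_nonneg_right (le_abs_self _) (sq_nonneg _)
        _ ≤ |γ| * (l ^ 2 / 4) := mul_le_mul_of_nonneg_left hc2 (abs_nonneg _)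
    have h2 : 0 ≤ c ^ 2 * l := by positivity
    nlinarith [mul_le_mul_of_nonneg_right h1 h2]
  have hg2 : γ / 48 * (c ^ 2 * l ^ 3) ≤ |γ| / 48 * l ^ 2 * (c ^ 2 * l) := by
    have h2 : 0 ≤ c ^ 2 * l ^ 3 := by positivity
    nlinarith [mul_le_mul_of_nonneg_right (le_abs_self γ) h2]
  have hsum : β / 6 * (c ^ 3 * l) + γ / 24 * (c ^ 4 * l) + γ / 48 * (c ^ 2 * l ^ 3) ≤
      M * (c ^ 2 * l) := by
    rw [← hM]
    nlinarith [hb, hg, hg2]
  have hq : - ((α / 2 - M) * c ^ 2) + β / 24 * (c * l ^ 2) ≤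
      β ^ 2 / (1152 * (α - 2 * M)) * l ^ 4 := by
    have he : β ^ 2 / (1152 * (α - 2 * M)) * l ^ 4 = (β ^ 2 * l ^ 4) / (1152 * (α - 2 * M)) := by
      ring
    rw [he, le_div_iff₀ (by positivity)]
    nlinarith [sq_nonneg (24 * (α - 2 * M) * c - β * l ^ 2)]
  have hq2 := mul_le_mul_of_nonneg_right hq hl.le
  nlinarith [hq2, hsum]

/-- expansion to order five of the maximum of the integral over windows of length `l` -/
theorem window_expansion (F : ℝ → ℝ) (F0 α β γ δ : ℝ) (hα : 0 < α) (hδ : 0 < δ)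
    (hFc : ContinuousOn F (Icc (-δ) δ))
    (hF : (fun x => F x - (F0 - α / 2 * x ^ 2 + β / 6 * x ^ 3 + γ / 24 * x ^ 4))
      =o[𝓝 0] (fun x => x ^ 4))
    (c : ℝ → ℝ) (hc : ∀ᶠ l in 𝓝[>] (0 : ℝ), |c l| ≤ l / 2)
    (hmax : ∀ᶠ l in 𝓝[>] (0 : ℝ), ∀ c' : ℝ, |c'| ≤ l / 2 →
      (∫ x in (c' - l / 2)..(c' + l / 2), F x) ≤ ∫ x in (c l - l / 2)..(c l + l / 2), F x) :
    Tendsto (fun l => ((∫ x in (c l - l / 2)..(c l + l / 2), F x) - (F0 * l - α * l ^ 3 / 24))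
      / l ^ 5) (𝓝[>] (0 : ℝ)) (𝓝 (γ / 1920 + β ^ 2 / (1152 * α))) := by
  set K := γ / 1920 + β ^ 2 / (1152 * α) with hK
  -- upper comparison
  have hU : Tendsto (fun l : ℝ => γ / 1920 + β ^ 2 / (1152 * (α - 2 * (|β| / 12 * l
      + |γ| / 32 * l ^ 2)))) (𝓝[>] (0 : ℝ)) (𝓝 K) := by
    have h : ContinuousAt (fun l : ℝ => γ / 1920 + β ^ 2 / (1152 * (α - 2 * (|β| / 12 * l
      + |γ| / 32 * l ^ 2)))) 0 := by
      refine ContinuousAt.add continuousAt_const (ContinuousAt.div continuousAt_const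
        (by fun_prop) ?_)
      simp [hα.ne']
    have h2 := h.tendsto
    simp only [mul_zero, ne_eq, OfNat.ofNat_ne_zero, not_false_eq_true, zero_pow, add_zero,
      sub_zero] at h2
    exact h2.mono_left nhdsWithin_le_nhds
  have hpos : ∀ᶠ l in 𝓝[>] (0 : ℝ), 0 < α - 2 * (|β| / 12 * l + |γ| / 32 * l ^ 2) := by
    have h : ContinuousAt (fun l : ℝ => α - 2 * (|β| / 12 * l + |γ| / 32 * l ^ 2)) 0 := by
      fun_prop
    have h2 : ∀ᶠ l in 𝓝 (0 : ℝ), 0 < α - 2 * (|β| / 12 * l + |γ| / 32 * l ^ 2) :=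
      h.eventually (lt_mem_nhds (by simpa using hα))
    exact h2.filter_mono nhdsWithin_le_nhds
  -- lower comparison
  have hL : Tendsto (fun l : ℝ => K + (β / 6 * (β / (24 * α)) ^ 3 * l ^ 2
      + γ / 24 * (β / (24 * α)) ^ 4 * l ^ 4 + γ / 48 * (β / (24 * α)) ^ 2 * l ^ 2))
      (𝓝[>] (0 : ℝ)) (𝓝 K) := by
    have h : ContinuousAt (fun l : ℝ => K + (β / 6 * (β / (24 * α)) ^ 3 * l ^ 2
      + γ / 24 * (β / (24 * α)) ^ 4 * l ^ 4 + γ / 48 * (β / (24 * α)) ^ 2 * l ^ 2)) 0 := by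
      fun_prop
    have h2 := h.tendsto
    simp only [mul_zero, ne_eq, OfNat.ofNat_ne_zero, not_false_eq_true, zero_pow, add_zero] at h2
    exact h2.mono_left nhdsWithin_le_nhds
  have hc'small : ∀ᶠ l in 𝓝[>] (0 : ℝ), |β / (24 * α) * l ^ 2| ≤ l / 2 := by
    have h : ContinuousAt (fun l : ℝ => |β / (24 * α)| * l) 0 := by fun_prop
    have h2 : ∀ᶠ l in 𝓝 (0 : ℝ), |β / (24 * α)| * l < 1 / 2 :=
      h.eventually (gt_mem_nhds (by norm_num))
    filter_upwards [h2.filter_mono nhdsWithin_le_nhds, self_mem_nhdsWithin] with l hl hl0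
    have hl0' : (0 : ℝ) < l := hl0
    rw [abs_mul, abs_of_nonneg (sq_nonneg l)]
    nlinarith
  rw [tendsto_order]
  constructor
  · intro a ha
    have he := window_error F F0 α β γ δ hδ hFc hF ((K - a) / 2) (by linarith)
    have hL' := hL.eventually (lt_mem_nhds (show K - (K - a) / 2 < K by linarith))
    filter_upwards [he, hL', hc'small, hmax, self_mem_nhdsWithin] with l h1 h2 h3 h4 h5
    have hl0 : (0 : ℝ) < l := h5
    have h6 := (abs_le.1 (h1 _ h3)).1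
    have h7 := h4 _ h3
    rw [lt_div_iff₀ (by positivity)]
    have h8 := mul_lt_mul_of_pos_right h2 (show (0 : ℝ) < l ^ 5 by positivity)
    have hk : β / (24 * α) * (24 * α) = β := by field_simp
    have hkey : - (α / 2 * ((β / (24 * α) * l ^ 2) ^ 2 * l))
        + β / 24 * ((β / (24 * α) * l ^ 2) * l ^ 3) + γ / 1920 * l ^ 5 = K * l ^ 5 := by
      rw [hK]
      field_simp
      ring
    nlinarith [h6, h7, h8, hkey]
  · intro b hb
    have he := window_error F F0 α β γ δ hδ hFc hF ((b - K) / 2) (by linarith)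
    have hU' := hU.eventually (gt_mem_nhds (show K < K + (b - K) / 2 by linarith))
    filter_upwards [he, hU', hpos, hc, self_mem_nhdsWithin] with l h1 h2 h3 h4 h5
    have hl0 : (0 : ℝ) < l := h5
    have h6 := (abs_le.1 (h1 _ h4)).2
    have h7 := upper_alg α β γ (c l) l _ hl0 h4 rfl h3
    rw [div_lt_iff₀ (by positivity)]
    have h8 := mul_lt_mul_of_pos_right h2 (show (0 : ℝ) < l ^ 5 by positivity)
    nlinarith [h6, h7, h8]

end Pool.Agent.Helper438.Oval
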