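import Pool.Agent.Helper438.Oval.Smooth
import Pool.Agent.Helper438.Oval.Window

set_option autoImplicit false

open Set Filter Topology Asymptotics

namespace Pool.Agent.Helper438.Oval

/-- location of the best window -/
theorem window_max {ε δ X₀ : ℝ} {f Φ : ℝ → ℝ}
    (hf : ∀ x ∈ Ioo (X₀ - δ) (X₀ + δ), ContDiffAt ℝ oo f x ∧ ε * deriv (deriv f) x < 0)
    (hΦ : ∀ x ∈ Ioo (X₀ - δ) (X₀ + δ), HasDerivAt Φ (f x) x)
    {m X h : ℝ} (hX : |X - X₀| < δ / 4) (hfX : deriv f X = m) (hh : 0 < h) (hh' : h ≤ δ / 8)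
    {c : ℝ} (hc : c ∈ Icc (X₀ - δ / 2) (X₀ + δ / 2))
    (hmax : ∀ c' ∈ Icc (X₀ - δ / 2) (X₀ + δ / 2),
      ε * (Φ (c' + h) - Φ (c' - h) - m * c' * (2 * h)) ≤
        ε * (Φ (c + h) - Φ (c - h) - m * c * (2 * h))) :
    |c - X| < h ∧ f (c + h) - f (c - h) = 2 * h * m := by
  have hδ : 0 < δ := by linarith
  rw [abs_lt] at hX
  have hε : ε ≠ 0 := by
    intro h0
    have := (hf X₀ ⟨by linarith, by linarith⟩).2
    rw [h0, zero_mul] at this
    exact lt_irrefl _ this
  -- monotonicity of ε f'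
  have hanti : StrictAntiOn (fun x => ε * deriv f x) (Ioo (X₀ - δ) (X₀ + δ)) := by
    apply strictAntiOn_of_deriv_neg (convex_Ioo _ _)
    · intro x hx
      exact ((contDiffAt_deriv (hf x hx).1).continuousAt.const_mul ε |>.continuousWithinAt)
    · intro x hx
      rw [interior_Ioo] at hx
      have h1 := (hasDerivAt_of_oo (contDiffAt_deriv (hf x hx).1)).const_mul ε
      rw [h1.deriv]
      exact (hf x hx).2
  have hXI : X ∈ Ioo (X₀ - δ) (X₀ + δ) := ⟨by linarith, by linarith⟩
  set G : ℝ → ℝ := fun c' => ε * (Φ (c' + h) - Φ (c' - h) - m * c' * (2 * h)) with hG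
  have hGd : ∀ c', c' ∈ Icc (X₀ - δ / 2) (X₀ + δ / 2) →
      HasDerivAt G (ε * (f (c' + h) - f (c' - h) - 2 * h * m)) c' := by
    intro c' hc'
    have h1 : HasDerivAt (fun x => Φ (x + h)) (f (c' + h)) c' :=
      (hΦ (c' + h) ⟨by linarith [hc'.1], by linarith [hc'.2]⟩).comp_add_const c' h
    have h2 : HasDerivAt (fun x => Φ (x - h)) (f (c' - h)) c' :=
      (hΦ (c' - h) ⟨by linarith [hc'.1], by linarith [hc'.2]⟩).comp_sub_const c' h
    have h3 : HasDerivAt (fun x : ℝ => m * x * (2 * h)) (2 * h * m) c' := by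
      have := ((hasDerivAt_id c').const_mul m).mul_const (2 * h)
      convert! this using 1
      ring
    exact ((h1.sub h2).sub h3).const_mul ε
  -- mean value for f on the window
  have hmv : ∀ c', c' ∈ Icc (X₀ - δ / 2) (X₀ + δ / 2) → ∃ ξ ∈ Ioo (c' - h) (c' + h),
      f (c' + h) - f (c' - h) = 2 * h * deriv f ξ := by
    intro c' hc'
    have hI : ∀ x ∈ Icc (c' - h) (c' + h), x ∈ Ioo (X₀ - δ) (X₀ + δ) := fun x hx =>
      ⟨by linarith [hc'.1, hx.1], by linarith [hc'.2, hx.2]⟩
    obtain ⟨ξ, hξ, he⟩ := exists_hasDerivAt_eq_slope f (deriv f) (by linarith : c' - h < c' + h)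
      (fun x hx => (hf x (hI x hx)).1.continuousAt.continuousWithinAt)
      (fun x hx => hasDerivAt_of_oo (hf x (hI x (Ioo_subset_Icc_self hx))).1)
    refine ⟨ξ, hξ, ?_⟩
    have e2 : c' + h - (c' - h) = 2 * h := by ring
    rw [he, e2]
    field_simp
  have hmem : |c - X| < h := by
    by_contra hge
    push Not at hge
    obtain ⟨ξ, hξ, he⟩ := hmv c hc
    have hξI : ξ ∈ Ioo (X₀ - δ) (X₀ + δ) := ⟨by linarith [hc.1, hξ.1], by linarith [hc.2, hξ.2]⟩
    rcases le_abs.mp hge with h1 | h1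
    · -- c ≥ X + h : derivative negative
      have h2 : X < ξ := by linarith [hξ.1]
      have h3 := hanti hXI hξI h2
      simp only [hfX] at h3
      have h4 : ε * (f (c + h) - f (c - h) - 2 * h * m) < 0 := by
        rw [he]
        have : ε * (2 * h * deriv f ξ - 2 * h * m) = 2 * h * (ε * deriv f ξ - ε * m) := by ring
        rw [this]
        apply mul_neg_of_pos_of_neg (by linarith) (by linarith)
      -- move left
      have h5 := (hGd c hc)
      have h6 : ∀ᶠ c' in 𝓝[<] c, G c < G c' := by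
        have h7 := (hasDerivAt_iff_tendsto_slope.mp h5).eventually (eventually_lt_nhds h4)
        have h8 : ∀ᶠ c' in 𝓝[<] c, slope G c c' < 0 :=
          h7.filter_mono (nhdsWithin_mono _ (fun x hx => ne_of_lt hx))
        filter_upwards [h8, self_mem_nhdsWithin] with c' hs hlt
        have hlt' : c' < c := hlt
        rw [slope_def_field, div_neg_iff] at hs
        rcases hs with hs | hs
        · linarith [hs.1]
        · linarith [hs.2]
      have h9 : ∀ᶠ c' in 𝓝[<] c, X₀ - δ / 2 < c' :=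
        (eventually_gt_nhds (by linarith : X₀ - δ / 2 < c)).filter_mono nhdsWithin_le_nhds
      obtain ⟨c', ⟨ha, hb⟩, hlt⟩ := ((h6.and h9).and self_mem_nhdsWithin).exists
      have hlt' : c' < c := hlt
      have := hmax c' ⟨hb.le, by linarith [hc.2]⟩
      exact absurd ha (not_lt.mpr this)
    · have h2 : ξ < X := by linarith [hξ.2]
      have h3 := hanti hξI hXI h2
      simp only [hfX] at h3
      have h4 : 0 < ε * (f (c + h) - f (c - h) - 2 * h * m) := by
        rw [he]
        have : ε * (2 * h * deriv f ξ - 2 * h * m) = 2 * h * (ε * deriv f ξ - ε * m) := by ring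
        rw [this]
        apply mul_pos (by linarith) (by linarith)
      have h5 := (hGd c hc)
      have h6 : ∀ᶠ c' in 𝓝[>] c, G c < G c' := by
        have h7 := (hasDerivAt_iff_tendsto_slope.mp h5).eventually (eventually_gt_nhds h4)
        have h8 : ∀ᶠ c' in 𝓝[>] c, 0 < slope G c c' :=
          h7.filter_mono (nhdsWithin_mono _ (fun x hx => ne_of_gt hx))
        filter_upwards [h8, self_mem_nhdsWithin] with c' hs hlt
        have hlt' : c < c' := hlt
        rw [slope_def_field, div_pos_iff] at hs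
        rcases hs with hs | hs
        · linarith [hs.1]
        · linarith [hs.2]
      have h9 : ∀ᶠ c' in 𝓝[>] c, c' < X₀ + δ / 2 :=
        (eventually_lt_nhds (by linarith : c < X₀ + δ / 2)).filter_mono nhdsWithin_le_nhds
      obtain ⟨c', ⟨ha, hb⟩, hlt⟩ := ((h6.and h9).and self_mem_nhdsWithin).exists
      have hlt' : c < c' := hlt
      have := hmax c' ⟨by linarith [hc.1], hb.le⟩
      exact absurd ha (not_lt.mpr this)
  refine ⟨hmem, ?_⟩
  rw [abs_lt] at hmem
  have hint : Icc (X₀ - δ / 2) (X₀ + δ / 2) ∈ 𝓝 c := Icc_mem_nhds (by linarith) (by linarith)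
  have hlm : IsLocalMax G c := by
    filter_upwards [hint] with c' hc'
    exact hmax c' hc'
  have h1 := hlm.hasDerivAt_eq_zero (hGd c hc)
  rcases mul_eq_zero.mp h1 with h2 | h2
  · exact absurd h2 hε
  · linarith

/-- the order five coefficient -/
noncomputable def coef (a : ℝ → ℝ) (m : ℝ) : ℝ :=
  (2 * a m * deriv a m ^ 2 - 3 * a m ^ 2 * deriv (deriv a) m) / 5760

theorem side_expansion {K : Set (ℝ × ℝ)} {ε : ℝ} {P : ℝ → ℝ × ℝ} (S : Side K ε P)
    {δ X₀ : ℝ} {f Φ : ℝ → ℝ}
    (hf : ∀ x ∈ Ioo (X₀ - δ) (X₀ + δ), ContDiffAt ℝ oo f x ∧ ε * deriv (deriv f) x < 0)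
    (hΦ : ∀ x ∈ Ioo (X₀ - δ) (X₀ + δ), HasDerivAt Φ (f x) x) {m : ℝ}
    (hm : ∀ᶠ m' in 𝓝 m, |(P m').1 - X₀| < δ / 4 ∧ deriv f (P m').1 = m' ∧
      f (P m').1 = (P m').2 ∧ deriv (deriv f) (P m').1 * deriv (fun m => (P m).1) m' = 1)
    (c : ℝ → ℝ)
    (hc : ∀ᶠ l in 𝓝[>] (0 : ℝ), c l ∈ Icc (X₀ - δ / 2) (X₀ + δ / 2) ∧
      ∀ c' ∈ Icc (X₀ - δ / 2) (X₀ + δ / 2),
      ε * (Φ (c' + l / 2) - Φ (c' - l / 2) - m * c' * l) ≤
        ε * (Φ (c l + l / 2) - Φ (c l - l / 2) - m * c l * l)) :
    Tendsto (fun l => (ε * (Φ (c l + l / 2) - Φ (c l - l / 2) - m * c l * l)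
      - (ε * ((P m).2 - m * (P m).1) * l - alpha ε P m * l ^ 3 / 24)) / l ^ 5)
      (𝓝[>] (0 : ℝ)) (𝓝 (coef (alpha ε P) m)) := by
  obtain ⟨hX, hfX, hfX2, hff⟩ := hm.self_of_nhds
  set X := (P m).1 with hXdef
  have hδ : 0 < δ := by linarith [abs_nonneg (X - X₀)]
  have hXI : X ∈ Ioo (X₀ - δ) (X₀ + δ) := by
    rw [abs_lt] at hX; exact ⟨by linarith, by linarith⟩
  have hε2 := S.sq
  have hα := S.alpha_pos m
  have hX'ne := S.deriv_ne m
  have hX'd : ∀ m', HasDerivAt (fun m => (P m).1) (deriv (fun m => (P m).1) m') m' := fun m' =>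
    hasDerivAt_of_oo S.smooth.contDiffAt
  have hαs := S.alpha_smooth
  have hαd : ∀ m', HasDerivAt (alpha ε P) (deriv (alpha ε P) m') m' := fun m' =>
    hasDerivAt_of_oo hαs.contDiffAt
  have hαs' : ContDiff ℝ oo (deriv (alpha ε P)) := by
    have : ContDiff ℝ (oo + 1) (alpha ε P) := hαs
    exact (contDiff_succ_iff_deriv.mp this).2.2
  have hαd2 : ∀ m', HasDerivAt (deriv (alpha ε P)) (deriv (deriv (alpha ε P)) m') m' := fun m' =>
    hasDerivAt_of_oo hαs'.contDiffAt
  have hX'α : ∀ m', deriv (fun m => (P m).1) m' = -ε / alpha ε P m' := by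
    intro m'
    have h1 := S.deriv_ne m'
    have h2 := S.ne_zero
    unfold alpha
    field_simp
  -- derivatives of f at X
  have hcdX : ContDiffAt ℝ oo f X := (hf X hXI).1
  have hcd1 := contDiffAt_deriv hcdX
  have hcd2 := contDiffAt_deriv hcd1
  have hcd3 := contDiffAt_deriv hcd2
  have f2 : ∀ᶠ m' in 𝓝 m, deriv (deriv f) (P m').1 = -ε * alpha ε P m' := by
    filter_upwards [hm] with m' h
    have h1 := h.2.2.2
    rw [hX'α m'] at h1
    have h2 := (S.alpha_pos m').ne'
    have h3 : deriv (deriv f) (P m').1 * (-ε) = alpha ε P m' := by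
      field_simp at h1
      linarith
    calc deriv (deriv f) (P m').1 = (deriv (deriv f) (P m').1 * (-ε)) * (-ε) := by
          have : (deriv (deriv f) (P m').1 * (-ε)) * (-ε)
            = deriv (deriv f) (P m').1 * (ε * ε) := by ring
          rw [this, hε2, mul_one]
      _ = -ε * alpha ε P m' := by rw [h3]; ring
  have hev : ∀ᶠ m' in 𝓝 m, ContDiffAt ℝ oo f (P m').1 := by
    filter_upwards [hm] with m' h
    have := abs_lt.mp h.1
    exact (hf _ ⟨by linarith, by linarith⟩).1
  have f3 : ∀ᶠ m' in 𝓝 m, deriv (deriv (deriv f)) (P m').1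
      = alpha ε P m' * deriv (alpha ε P) m' := by
    filter_upwards [f2.eventually_nhds, hev] with m' h1 h2
    have h3 : HasDerivAt (fun m => deriv (deriv f) (P m).1)
        (deriv (deriv (deriv f)) (P m').1 * deriv (fun m => (P m).1) m') m' :=
      HasDerivAt.comp (h₂ := deriv (deriv f)) (h := fun m => (P m).1) m'
        (hasDerivAt_of_oo (contDiffAt_deriv (contDiffAt_deriv h2))) (hX'd m')
    have h4 : HasDerivAt (fun m => deriv (deriv f) (P m).1) (-ε * deriv (alpha ε P) m') m' :=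
      ((hαd m').const_mul (-ε)).congr_of_eventuallyEq h1
    have h5 := h3.unique h4
    rw [hX'α m'] at h5
    have h6 := (S.alpha_pos m').ne'
    have h7 := S.ne_zero
    field_simp at h5
    linarith
  have f4 : deriv (deriv (deriv (deriv f))) X
      = -ε * alpha ε P m * (deriv (alpha ε P) m ^ 2 + alpha ε P m * deriv (deriv (alpha ε P)) m) := by
    have h3 : HasDerivAt (fun m => deriv (deriv (deriv f)) (P m).1)
        (deriv (deriv (deriv (deriv f))) (P m).1 * deriv (fun m => (P m).1) m) m :=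
      HasDerivAt.comp (h₂ := deriv (deriv (deriv f))) (h := fun m => (P m).1) m
        (hasDerivAt_of_oo hcd3) (hX'd m)
    have h4 : HasDerivAt (fun m => deriv (deriv (deriv f)) (P m).1)
        (deriv (alpha ε P) m * deriv (alpha ε P) m
          + alpha ε P m * deriv (deriv (alpha ε P)) m) m :=
      ((hαd m).mul (hαd2 m)).congr_of_eventuallyEq f3
    have h5 := h3.unique h4
    rw [hX'α m] at h5
    have h6 := hα.ne'
    have h8 : deriv (deriv (deriv (deriv f))) X * (-ε)
        = alpha ε P m * (deriv (alpha ε P) m ^ 2 + alpha ε P m * deriv (deriv (alpha ε P)) m) := by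
      have h9 : deriv (deriv (deriv (deriv f))) (P m).1 * (-ε / alpha ε P m) * alpha ε P m
        = deriv (deriv (deriv (deriv f))) (P m).1 * (-ε) := by field_simp
      rw [h5] at h9
      rw [← h9]
      ring
    calc deriv (deriv (deriv (deriv f))) X
        = (deriv (deriv (deriv (deriv f))) X * (-ε)) * (-ε) := by
          have : (deriv (deriv (deriv (deriv f))) X * (-ε)) * (-ε)
            = deriv (deriv (deriv (deriv f))) X * (ε * ε) := by ring
          rw [this, hε2, mul_one]
      _ = _ := by rw [h8]; ring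
  have f2X := f2.self_of_nhds
  have f3X := f3.self_of_nhds
  rw [← hXdef] at f2X f3X
  -- the shifted function
  set F : ℝ → ℝ := fun x => ε * (f (X + x) - m * (X + x)) with hF
  have hIx : ∀ᶠ x in 𝓝 (0 : ℝ), X + x ∈ Ioo (X₀ - δ) (X₀ + δ) := by
    have h0 : Tendsto (fun x : ℝ => X + x) (𝓝 0) (𝓝 X) := by
      have : Tendsto (fun x : ℝ => X + x) (𝓝 0) (𝓝 (X + 0)) :=
        tendsto_const_nhds.add tendsto_id
      simpa using this
    exact h0.eventually (Ioo_mem_nhds hXI.1 hXI.2)
  have hsh : ∀ x : ℝ, HasDerivAt (fun x : ℝ => X + x) 1 x := fun x => by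
    simpa using (hasDerivAt_id x).const_add X
  have t1 : ∀ᶠ x in 𝓝 (0 : ℝ), HasDerivAt F (ε * (deriv f (X + x) - m)) x := by
    filter_upwards [hIx] with x hx
    have h1 : HasDerivAt (fun x => f (X + x)) (deriv f (X + x) * 1) x :=
      HasDerivAt.comp (h₂ := f) (h := fun x => X + x) x (hasDerivAt_of_oo (hf _ hx).1) (hsh x)
    have h2 := (h1.sub ((hsh x).const_mul m)).const_mul ε
    simpa using h2
  have t2 : ∀ᶠ x in 𝓝 (0 : ℝ), HasDerivAt (fun x => ε * (deriv f (X + x) - m))
      (ε * deriv (deriv f) (X + x)) x := by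
    filter_upwards [hIx] with x hx
    have h1 : HasDerivAt (fun x => deriv f (X + x)) (deriv (deriv f) (X + x) * 1) x :=
      HasDerivAt.comp (h₂ := deriv f) (h := fun x => X + x) x
        (hasDerivAt_of_oo (contDiffAt_deriv (hf _ hx).1)) (hsh x)
    have h2 := (h1.sub_const m).const_mul ε
    simpa using h2
  have t3 : ∀ᶠ x in 𝓝 (0 : ℝ), HasDerivAt (fun x => ε * deriv (deriv f) (X + x))
      (ε * deriv (deriv (deriv f)) (X + x)) x := by
    filter_upwards [hIx] with x hx
    have h1 : HasDerivAt (fun x => deriv (deriv f) (X + x)) (deriv (deriv (deriv f)) (X + x) * 1) x :=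
      HasDerivAt.comp (h₂ := deriv (deriv f)) (h := fun x => X + x) x
        (hasDerivAt_of_oo (contDiffAt_deriv (contDiffAt_deriv (hf _ hx).1))) (hsh x)
    have h2 := h1.const_mul ε
    simpa using h2
  have t4 : HasDerivAt (fun x => ε * deriv (deriv (deriv f)) (X + x))
      (ε * deriv (deriv (deriv (deriv f))) X) 0 := by
    have h0 : HasDerivAt (deriv (deriv (deriv f))) (deriv (deriv (deriv (deriv f))) X) (X + 0) := by
      rw [add_zero]; exact hasDerivAt_of_oo hcd3
    have h1 := HasDerivAt.comp (h₂ := deriv (deriv (deriv f))) (h := fun x => X + x) 0 h0 (hsh 0)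
    have h2 := h1.const_mul ε
    simpa using h2
  have hT := taylor_four t1 t2 t3 t4
  simp only [add_zero, hfX, sub_self, mul_zero, zero_mul] at hT
  -- F on a neighbourhood
  obtain ⟨r, hr, hball⟩ := Metric.eventually_nhds_iff_ball.mp hIx
  have hr2 : 0 < r / 2 := by linarith
  have hcF : ContinuousOn F (Icc (-(r / 2)) (r / 2)) := by
    intro x hx
    have hxb : x ∈ Metric.ball (0 : ℝ) r := by
      rw [Metric.mem_ball, dist_zero_right, Real.norm_eq_abs, abs_lt]
      constructor <;> linarith [hx.1, hx.2]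
    have h1 : HasDerivAt (fun x => f (X + x)) (deriv f (X + x) * 1) x :=
      HasDerivAt.comp (h₂ := f) (h := fun x => X + x) x
        (hasDerivAt_of_oo (hf _ (hball x hxb)).1) (hsh x)
    have h2 := (h1.sub ((hsh x).const_mul m)).const_mul ε
    exact h2.continuousAt.continuousWithinAt
  -- FTC
  have hFTC : ∀ c' l : ℝ, 0 < l → l < r → |c'| ≤ l / 2 →
      (∫ x in (c' - l / 2)..(c' + l / 2), F x)
        = ε * (Φ (X + c' + l / 2) - Φ (X + c' - l / 2) - m * (X + c') * l) := by
    intro c' l hl hlr hc'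
    rw [abs_le] at hc'
    have hI : ∀ x ∈ uIcc (c' - l / 2) (c' + l / 2), x ∈ Metric.ball (0 : ℝ) r := by
      intro x hx
      rw [uIcc_of_le (by linarith)] at hx
      rw [Metric.mem_ball, dist_zero_right, Real.norm_eq_abs, abs_lt]
      constructor <;> linarith [hx.1, hx.2]
    have hd : ∀ x ∈ uIcc (c' - l / 2) (c' + l / 2),
        HasDerivAt (fun x => ε * (Φ (X + x) - m * (X + x) ^ 2 / 2)) (F x) x := by
      intro x hx
      have h1 : HasDerivAt (fun x => Φ (X + x)) (f (X + x) * 1) x :=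
        HasDerivAt.comp (h₂ := Φ) (h := fun x => X + x) x (hΦ _ (hball x (hI x hx))) (hsh x)
      have h2 : HasDerivAt (fun x : ℝ => m * (X + x) ^ 2 / 2) (m * (X + x)) x := by
        have := (((hsh x).pow 2).const_mul m).div_const 2
        convert! this using 1
        simp; ring
      have h3 := (h1.sub h2).const_mul ε
      simpa using h3
    have hci : ContinuousOn F (uIcc (c' - l / 2) (c' + l / 2)) := by
      intro x hx
      have h1 : HasDerivAt (fun x => f (X + x)) (deriv f (X + x) * 1) x :=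
        HasDerivAt.comp (h₂ := f) (h := fun x => X + x) x
          (hasDerivAt_of_oo (hf _ (hball x (hI x hx))).1) (hsh x)
      have h2 := (h1.sub ((hsh x).const_mul m)).const_mul ε
      exact h2.continuousAt.continuousWithinAt
    rw [intervalIntegral.integral_eq_sub_of_hasDerivAt hd hci.intervalIntegrable]
    have e1 : X + (c' + l / 2) = X + c' + l / 2 := by ring
    have e2 : X + (c' - l / 2) = X + c' - l / 2 := by ring
    rw [e1, e2]
    ring
  -- localisation of the maximiser
  have hloc : ∀ᶠ l in 𝓝[>] (0 : ℝ), 0 < l ∧ l < r ∧ l < δ / 4 ∧ |c l - X| ≤ l / 2 ∧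
      ∀ c' ∈ Icc (X₀ - δ / 2) (X₀ + δ / 2),
      ε * (Φ (c' + l / 2) - Φ (c' - l / 2) - m * c' * l) ≤
        ε * (Φ (c l + l / 2) - Φ (c l - l / 2) - m * c l * l) := by
    have h1 : ∀ᶠ l in 𝓝[>] (0 : ℝ), l < r :=
      (eventually_lt_nhds hr).filter_mono nhdsWithin_le_nhds
    have h2 : ∀ᶠ l in 𝓝[>] (0 : ℝ), l < δ / 4 :=
      (eventually_lt_nhds (by linarith : (0 : ℝ) < δ / 4)).filter_mono nhdsWithin_le_nhds
    filter_upwards [h1, h2, hc, self_mem_nhdsWithin] with l hl1 hl2 hcl hl0
    have hl0' : 0 < l := hl0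
    have h3 := window_max (h := l / 2) hf hΦ hX hfX (by linarith) (by linarith) hcl.1 (by
      intro c' hc'
      have := hcl.2 c' hc'
      have e : 2 * (l / 2) = l := by ring
      rw [e]
      exact this)
    exact ⟨hl0', hl1, hl2, h3.1.le, hcl.2⟩
  have hlim := window_expansion F (ε * ((P m).2 - m * (P m).1)) (alpha ε P m)
    (ε * deriv (deriv (deriv f)) X) (ε * deriv (deriv (deriv (deriv f))) X) (r / 2) hα hr2 hcF ?_
    (fun l => c l - X) (hloc.mono fun l h => h.2.2.2.1) ?_
  · -- conclusion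
    have hcoef : ε * deriv (deriv (deriv (deriv f))) X / 1920
        + (ε * deriv (deriv (deriv f)) X) ^ 2 / (1152 * alpha ε P m) = coef (alpha ε P) m := by
      rw [f4, f3X]
      unfold coef
      have h1 : (ε * (alpha ε P m * deriv (alpha ε P) m)) ^ 2
          = alpha ε P m ^ 2 * deriv (alpha ε P) m ^ 2 := by
        have : (ε * (alpha ε P m * deriv (alpha ε P) m)) ^ 2
          = (ε * ε) * (alpha ε P m ^ 2 * deriv (alpha ε P) m ^ 2) := by ring
        rw [this, hε2, one_mul]
      have h2 : ε * (-ε * alpha ε P m * (deriv (alpha ε P) m ^ 2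
          + alpha ε P m * deriv (deriv (alpha ε P)) m))
          = -(alpha ε P m * (deriv (alpha ε P) m ^ 2
          + alpha ε P m * deriv (deriv (alpha ε P)) m)) := by
        have : ε * (-ε * alpha ε P m * (deriv (alpha ε P) m ^ 2
          + alpha ε P m * deriv (deriv (alpha ε P)) m))
          = -((ε * ε) * (alpha ε P m * (deriv (alpha ε P) m ^ 2
          + alpha ε P m * deriv (deriv (alpha ε P)) m))) := by ring
        rw [this, hε2, one_mul]
      rw [h1, h2]
      have h3 := hα.ne'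
      field_simp
      ring
    rw [hcoef] at hlim
    refine hlim.congr' ?_
    filter_upwards [hloc] with l hl
    rw [hFTC (c l - X) l hl.1 hl.2.1 hl.2.2.2.1]
    have e1 : X + (c l - X) = c l := by ring
    rw [e1]
  · refine hT.congr (fun x => ?_) (fun x => rfl)
    rw [f2X]
    have e1 : ε * (f X - m * X) = ε * ((P m).2 - m * (P m).1) := by rw [hfX2]
    simp only [hF, add_zero]
    rw [e1]
    have e2 : ε * (-ε * alpha ε P m) / 2 = -(alpha ε P m) / 2 := by
      have : ε * (-ε * alpha ε P m) = -((ε * ε) * alpha ε P m) := by ring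
      rw [this, hε2, one_mul]
    rw [e2]
    ring
  · filter_upwards [hloc] with l hl c' hc'
    rw [hFTC (c l - X) l hl.1 hl.2.1 hl.2.2.2.1, hFTC c' l hl.1 hl.2.1 hc']
    have e1 : X + (c l - X) = c l := by ring
    rw [e1]
    apply hl.2.2.2.2
    rw [abs_le] at hc'
    rw [abs_lt] at hX
    have := hl.2.2.1
    constructor <;> linarith

end Pool.Agent.Helper438.Oval
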