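import Pool.Agent.Helper438.Oval.Graph

set_option autoImplicit false

open Set Filter Topology

namespace Pool.Agent.Helper438.Oval

/-- necessary second order condition at a local maximum -/
theorem second_deriv_nonpos {D D' : ℝ → ℝ} {D2 : ℝ} (hmax : IsLocalMax D 0)
    (h1 : ∀ᶠ s in 𝓝 (0 : ℝ), HasDerivAt D (D' s) s) (h2 : HasDerivAt D' D2 0) : D2 ≤ 0 := by
  by_contra hpos
  push Not at hpos
  have hD0 : D' 0 = 0 := hmax.hasDerivAt_eq_zero h1.self_of_nhds
  have h3 : ∀ᶠ s in 𝓝[≠] (0 : ℝ), 0 < slope D' 0 s := by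
    have := (hasDerivAt_iff_tendsto_slope.mp h2)
    exact this.eventually (eventually_gt_nhds hpos)
  have h4 : ∀ᶠ s in 𝓝[>] (0 : ℝ), 0 < D' s := by
    have h5 : ∀ᶠ s in 𝓝[>] (0 : ℝ), 0 < slope D' 0 s :=
      h3.filter_mono (nhdsWithin_mono _ (fun x hx => ne_of_gt hx))
    filter_upwards [h5, self_mem_nhdsWithin] with s hs hs0
    rw [slope_def_field, hD0, sub_zero, sub_zero] at hs
    have hs0' : 0 < s := hs0
    by_contra hneg
    push Not at hneg
    exact absurd (div_nonpos_of_nonpos_of_nonneg hneg hs0'.le) (not_le.mpr hs)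
  have h6 : ∀ᶠ s in 𝓝[>] (0 : ℝ), HasDerivAt D (D' s) s := h1.filter_mono nhdsWithin_le_nhds
  have h7 : ∀ᶠ s in 𝓝[>] (0 : ℝ), D s ≤ D 0 := hmax.filter_mono nhdsWithin_le_nhds
  obtain ⟨u, hu0, hu⟩ := mem_nhdsGT_iff_exists_Ioc_subset.mp (h4.and (h6.and h7))
  have hu0' : (0 : ℝ) < u := hu0
  have hcont : ContinuousOn D (Icc 0 u) := by
    intro s hs
    rcases hs.1.eq_or_lt with h | h
    · rw [← h]; exact h1.self_of_nhds.continuousAt.continuousWithinAt
    · exact (hu ⟨h, hs.2⟩).2.1.continuousAt.continuousWithinAt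
  obtain ⟨ξ, hξ, hξe⟩ := exists_hasDerivAt_eq_slope D D' hu0' hcont
    (fun s hs => (hu ⟨hs.1, hs.2.le⟩).2.1)
  have h8 : 0 < D' ξ := (hu ⟨hξ.1, hξ.2.le⟩).1
  rw [hξe, sub_zero] at h8
  have h9 : D u ≤ D 0 := (hu ⟨hu0', le_refl u⟩).2.2
  have h10 : (D u - D 0) / u ≤ 0 := div_nonpos_of_nonpos_of_nonneg (by linarith) hu0'.le
  linarith

section

variable {K : Set (ℝ × ℝ)} {p q : ℝ → ℝ × ℝ}

theorem det_le (hp : ∀ m, IsTop K 1 m (p m)) (hq : ∀ m, IsTop K (-1) m (q m))
    (R : ℝ → ℝ) (hRad : ∀ m, ∀ z ∈ K, ∀ z' ∈ K, det2 (z - z') (p m - q m) ≤ R m * width p q m)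
    (c : ℝ) (hc : ∀ m, R m * width p q m = c) {z₁ z₂ z₃ z₄ : ℝ × ℝ} (h₁ : z₁ ∈ K) (h₂ : z₂ ∈ K)
    (h₃ : z₃ ∈ K) (h₄ : z₄ ∈ K) (hpos : 0 < z₁.1 - z₂.1) : det2 (z₁ - z₂) (z₃ - z₄) ≤ c := by
  set m := (z₁.2 - z₂.2) / (z₁.1 - z₂.1) with hm
  have hy : z₁ - z₂ = (z₁.1 - z₂.1, (z₁.1 - z₂.1) * m) := by
    apply Prod.ext
    · simp
    · simp only [Prod.snd_sub, hm]; field_simp
  have h5 := le_width hp hq m h₃ h₄
  have h6 := hRad m _ h₁ _ h₂
  rw [hc m, hy, det_pq] at h6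
  simp only [sub_self, zero_mul, add_zero] at h6
  have h7 : det2 (z₁ - z₂) (z₃ - z₄)
      = (z₁.1 - z₂.1) * ((z₃.2 - m * z₃.1) - (z₄.2 - m * z₄.1)) := by
    rw [hy]
    simp only [det2, Prod.fst_sub, Prod.snd_sub]
    ring
  rw [h7]
  calc (z₁.1 - z₂.1) * ((z₃.2 - m * z₃.1) - (z₄.2 - m * z₄.1))
      ≤ (z₁.1 - z₂.1) * width p q m := mul_le_mul_of_nonneg_left h5 hpos.le
    _ ≤ c := h6

/-- the curvature is positive: `ε f'' < 0` at the extreme point. Here `P` is the extreme point for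
`ε = ± 1`, `Q` the opposite one, `ε (P - Q) = p - q`. -/
theorem curvature_pos (hK : IsCompact K)
    (hi : (interior K).Nonempty) (hp : ∀ m, IsTop K 1 m (p m)) (hq : ∀ m, IsTop K (-1) m (q m))
    {γ : ℝ → ℝ × ℝ} (hγs : ContDiff ℝ oo γ)
    (hγd : ∀ t, deriv γ t ≠ 0) (hγ : range γ = frontier K)
    (R : ℝ → ℝ) (x : ℝ → ℝ × ℝ) (hR : ∀ m, 0 < R m) (hx : ∀ m, x m ∈ K)
    (hx' : ∀ m, ((x m).1 + R m, (x m).2 + R m * m) ∈ K)
    (hRad : ∀ m, ∀ z ∈ K, ∀ z' ∈ K, det2 (z - z') (p m - q m) ≤ R m * width p q m)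
    (c : ℝ) (hc : ∀ m, R m * width p q m = c) (m₀ ε : ℝ) (P Q : ℝ × ℝ)
    (hPQ : p m₀ - q m₀ = (ε * (P.1 - Q.1), ε * (P.2 - Q.2))) (hQ : Q ∈ K)
    (hε : ε = 1 ∨ ε = -1)
    (f : ℝ → ℝ) (hfP : f P.1 = P.2) (hfd : deriv f P.1 = m₀)
    (hfs : ∀ᶠ x in 𝓝 P.1, ContDiffAt ℝ oo f x ∧ (x, f x) ∈ K) :
    ε * deriv (deriv f) P.1 < 0 := by
  set W := width p q m₀ with hW
  have hWpos : 0 < W := width_pos hi hp hq m₀
  set V := p m₀ - q m₀ with hV
  set y₀ : ℝ × ℝ := ((x m₀).1 + R m₀, (x m₀).2 + R m₀ * m₀) with hy₀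
  have hdet1 : ∀ a : ℝ, det2 (a, a * m₀) V = a * W := by
    intro a
    rw [hV, det_pq]; simp [hW]
  -- y₀ is on the frontier
  have hy₀f : y₀ ∈ frontier K := by
    rw [hK.isClosed.frontier_eq]
    refine ⟨hx' m₀, fun hint => ?_⟩
    have h1 : ContinuousAt (fun δ : ℝ => (y₀.1 + δ, y₀.2 + δ * m₀)) 0 := by fun_prop
    have h2 : ∀ᶠ δ in 𝓝 (0 : ℝ), (y₀.1 + δ, y₀.2 + δ * m₀) ∈ interior K := by
      apply h1.eventually_mem
      simp only [zero_mul, add_zero, Prod.mk.eta]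
      exact isOpen_interior.mem_nhds hint
    have h3 : ∀ᶠ δ in 𝓝[>] (0 : ℝ), (y₀.1 + δ, y₀.2 + δ * m₀) ∈ interior K :=
      h2.filter_mono nhdsWithin_le_nhds
    obtain ⟨δ, hδ, hδ0⟩ := (h3.and self_mem_nhdsWithin).exists
    have hδ0' : 0 < δ := hδ0
    have h4 := hRad m₀ _ (interior_subset hδ) _ (hx m₀)
    have h5 : ((y₀.1 + δ, y₀.2 + δ * m₀) : ℝ × ℝ) - x m₀ = (R m₀ + δ, (R m₀ + δ) * m₀) := by
      apply Prod.ext
      · simp [hy₀]; ring
      · simp [hy₀]; ring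
    rw [h5, ← hV, hdet1] at h4
    nlinarith [mul_pos hδ0' hWpos]
  rw [← hγ] at hy₀f
  obtain ⟨t, ht⟩ := hy₀f
  have hfr : ∀ s, γ s ∈ K := fun s => hK.isClosed.frontier_subset (by
    rw [← hγ]; exact mem_range_self s)
  have hdiff : Differentiable ℝ γ := hγs.differentiable (by simp)
  have hXd : ∀ t, HasDerivAt (fun t => (γ t).1) (deriv γ t).1 t := fun t =>
    (hdiff t).hasDerivAt.fst
  have hYd : ∀ t, HasDerivAt (fun t => (γ t).2) (deriv γ t).2 t := fun t =>
    (hdiff t).hasDerivAt.snd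
  have hγ2 : ContDiff ℝ oo (deriv γ) := by
    have : ContDiff ℝ (oo + 1) γ := hγs
    exact (contDiff_succ_iff_deriv.mp this).2.2
  have hdiff2 : Differentiable ℝ (deriv γ) := hγ2.differentiable (by simp)
  have hXd2 : ∀ t, HasDerivAt (fun t => (deriv γ t).1) (deriv (deriv γ) t).1 t := fun t =>
    (hdiff2 t).hasDerivAt.fst
  have hYd2 : ∀ t, HasDerivAt (fun t => (deriv γ t).2) (deriv (deriv γ) t).2 t := fun t =>
    (hdiff2 t).hasDerivAt.snd
  -- tangent at y₀ is parallel to V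
  have htan : det2 (deriv γ t) V = 0 := by
    have hmax : IsLocalMax (fun s => det2 (γ s - x m₀) V) t :=
      Eventually.of_forall fun s => by
        change det2 (γ s - x m₀) V ≤ det2 (γ t - x m₀) V
        have h1 := hRad m₀ _ (hfr s) _ (hx m₀)
        have h2 : γ t - x m₀ = (R m₀, R m₀ * m₀) := by
          rw [ht]; apply Prod.ext <;> simp [hy₀]
        rw [h2, hdet1]
        exact h1
    have hd : HasDerivAt (fun s => det2 (γ s - x m₀) V) (det2 (deriv γ t) V) t := by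
      have h1 := (((hXd t).sub_const (x m₀).1).mul_const V.2).sub
        (((hYd t).sub_const (x m₀).2).mul_const V.1)
      exact h1
    exact hmax.hasDerivAt_eq_zero hd
  -- transversality
  have hμ : det2 (deriv γ t) (1, m₀) ≠ 0 := by
    intro h
    apply hγd t
    simp only [det2, mul_one] at h htan
    have hV' : V.2 - m₀ * V.1 = W := by
      have := hdet1 1
      simp only [det2, one_mul] at this
      exact this
    have e1 : (deriv γ t).2 = (deriv γ t).1 * m₀ := by linarith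
    have e2 : (deriv γ t).1 * W = 0 := by
      rw [← hV']; rw [e1] at htan; linarith
    have e3 : (deriv γ t).1 = 0 := by
      rcases mul_eq_zero.mp e2 with h | h
      · exact h
      · exact absurd h hWpos.ne'
    rw [e3, zero_mul] at e1
    exact Prod.ext e3 e1
  -- the second order inequality for all a
  have hquad : ∀ a : ℝ, a ^ 2 * det2 (deriv (deriv γ) t) V
      + 2 * a * ε * det2 (deriv γ t) (1, m₀) + R m₀ * (ε * deriv (deriv f) P.1) ≤ 0 := by
    intro a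
    have hfcd : ∀ᶠ s in 𝓝 (0 : ℝ), ContDiffAt ℝ oo f (P.1 + s) ∧ (P.1 + s, f (P.1 + s)) ∈ K := by
      have hc0 : Tendsto (fun s : ℝ => P.1 + s) (𝓝 0) (𝓝 P.1) := by
        have : Tendsto (fun s : ℝ => P.1 + s) (𝓝 0) (𝓝 (P.1 + 0)) := tendsto_const_nhds.add tendsto_id
        simpa using this
      exact hc0.eventually hfs
    have hpos1 : ∀ᶠ s in 𝓝 (0 : ℝ), 0 < (γ (t + a * s)).1 - (x m₀).1 := by
      have hcγ := hγs.continuous
      have hc1 : ContinuousAt (fun s : ℝ => (γ (t + a * s)).1 - (x m₀).1) 0 := by fun_prop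
      apply hc1.eventually (lt_mem_nhds _)
      simp only [mul_zero, add_zero, ht, hy₀]
      have := hR m₀
      linarith
    let D : ℝ → ℝ := fun s => ((γ (t + a * s)).1 - (x m₀).1) * (ε * (f (P.1 + s) - Q.2))
      - ((γ (t + a * s)).2 - (x m₀).2) * (ε * (P.1 + s - Q.1))
    have hD0 : D 0 = c := by
      simp only [D, mul_zero, add_zero, ht, hfP, hy₀]
      rw [← hc m₀, ← hW]
      have h1 := hdet1 (R m₀)
      rw [hPQ] at h1
      simp only [det2] at h1
      linarith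
    have hDmax : IsLocalMax D 0 := by
      filter_upwards [hfcd, hpos1] with s hs1 hs2
      rw [hD0]
      rcases hε with h | h
      · have h2 := det_le hp hq R hRad c hc (hfr (t + a * s)) (hx m₀) hs1.2 hQ hs2
        simp only [det2, Prod.fst_sub, Prod.snd_sub] at h2
        simp only [D, h, one_mul]
        exact h2
      · have h2 := det_le hp hq R hRad c hc (hfr (t + a * s)) (hx m₀) hQ hs1.2 hs2
        simp only [det2, Prod.fst_sub, Prod.snd_sub] at h2
        simp only [D, h]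
        linarith
    have hshift : ∀ s : ℝ, HasDerivAt (fun s : ℝ => t + a * s) a s := by
      intro s
      simpa using ((hasDerivAt_id s).const_mul a).const_add t
    have hshift2 : ∀ s : ℝ, HasDerivAt (fun s : ℝ => P.1 + s) 1 s := by
      intro s
      simpa using (hasDerivAt_id s).const_add P.1
    have hA1 : ∀ s, HasDerivAt (fun s => (γ (t + a * s)).1 - (x m₀).1)
        ((deriv γ (t + a * s)).1 * a) s := fun s =>
      (((hXd (t + a * s)).comp s (hshift s))).sub_const _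
    have hA2 : ∀ s, HasDerivAt (fun s => (γ (t + a * s)).2 - (x m₀).2)
        ((deriv γ (t + a * s)).2 * a) s := fun s =>
      (((hYd (t + a * s)).comp s (hshift s))).sub_const _
    have hA1' : ∀ s, HasDerivAt (fun s => (deriv γ (t + a * s)).1 * a)
        ((deriv (deriv γ) (t + a * s)).1 * a * a) s := fun s =>
      (((hXd2 (t + a * s)).comp s (hshift s))).mul_const _
    have hA2' : ∀ s, HasDerivAt (fun s => (deriv γ (t + a * s)).2 * a)
        ((deriv (deriv γ) (t + a * s)).2 * a * a) s := fun s =>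
      (((hYd2 (t + a * s)).comp s (hshift s))).mul_const _
    have hB2 : ∀ᶠ s in 𝓝 (0 : ℝ), HasDerivAt (fun s => ε * (f (P.1 + s) - Q.2))
        (ε * deriv f (P.1 + s)) s := by
      filter_upwards [hfcd] with s hs1
      have h1 : HasDerivAt f (deriv f (P.1 + s)) (P.1 + s) :=
        (hs1.1.differentiableAt (by simp)).hasDerivAt
      have h2 := ((h1.comp s (hshift2 s)).sub_const Q.2).const_mul ε
      simpa using h2
    have hB1 : ∀ s : ℝ, HasDerivAt (fun s => ε * (P.1 + s - Q.1)) ε s := by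
      intro s
      simpa using ((hshift2 s).sub_const Q.1).const_mul ε
    have hB2' : HasDerivAt (fun s => ε * deriv f (P.1 + s)) (ε * deriv (deriv f) P.1) 0 := by
      have h0 := hfcd.self_of_nhds.1
      rw [add_zero] at h0
      have h1 : ContDiffAt ℝ oo (deriv f) P.1 := by
        have h2 : ContDiffAt ℝ oo (fderiv ℝ f) P.1 := h0.fderiv_right (m := oo) (by simp)
        exact (h2.clm_apply contDiffAt_const)
      have h2 : HasDerivAt (deriv f) (deriv (deriv f) P.1) (P.1 + 0) := by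
        rw [add_zero]; exact (h1.differentiableAt (by simp)).hasDerivAt
      have h3 := (h2.comp (0 : ℝ) (hshift2 0)).const_mul ε
      simpa using h3
    let D' : ℝ → ℝ := fun s => ((deriv γ (t + a * s)).1 * a * (ε * (f (P.1 + s) - Q.2))
        + ((γ (t + a * s)).1 - (x m₀).1) * (ε * deriv f (P.1 + s)))
      - ((deriv γ (t + a * s)).2 * a * (ε * (P.1 + s - Q.1))
        + ((γ (t + a * s)).2 - (x m₀).2) * ε)
    have hD' : ∀ᶠ s in 𝓝 (0 : ℝ), HasDerivAt D (D' s) s := by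
      filter_upwards [hB2] with s hs2
      exact ((hA1 s).mul hs2).sub ((hA2 s).mul (hB1 s))
    have hD2 := (((hA1' 0).mul hB2.self_of_nhds).add ((hA1 0).mul hB2')).sub
      (((hA2' 0).mul (hB1 0)).add ((hA2 0).mul_const ε))
    have h3 := second_deriv_nonpos hDmax hD' hD2
    refine le_trans (le_of_eq ?_) h3
    simp only [mul_zero, add_zero, ht, hfP, hfd, hy₀]
    rw [hPQ]
    simp only [det2]
    ring
  by_contra hneg
  push Not at hneg
  set C := det2 (deriv (deriv γ) t) V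
  set μ := det2 (deriv γ t) (1, m₀)
  have hR0 := hR m₀
  have hεμ : ε * μ ≠ 0 := by
    rcases hε with h | h <;> rw [h] <;> simpa using hμ
  have h1 : ∀ a : ℝ, a ^ 2 * C + 2 * a * (ε * μ) ≤ 0 := by
    intro a
    have := hquad a
    have h2 : 0 ≤ R m₀ * (ε * deriv (deriv f) P.1) := mul_nonneg hR0.le hneg
    nlinarith [this, h2]
  -- choose a = (ε μ) / (1 + |C|)
  have hden : 0 < 1 + |C| := by positivity
  have h2 := h1 ((ε * μ) / (1 + |C|))
  have h3 : ((ε * μ) / (1 + |C|)) ^ 2 * C + 2 * ((ε * μ) / (1 + |C|)) * (ε * μ)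
      = (ε * μ) ^ 2 * (C + 2 * (1 + |C|)) / (1 + |C|) ^ 2 := by
    field_simp
  rw [h3] at h2
  have h4 : 0 < (ε * μ) ^ 2 * (C + 2 * (1 + |C|)) / (1 + |C|) ^ 2 := by
    apply div_pos
    · apply mul_pos
      · positivity
      · have := neg_abs_le C
        have := abs_nonneg C
        linarith
    · positivity
  linarith

end

end Pool.Agent.Helper438.Oval
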