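import Pool.Agent.Helper438.Oval.Support

set_option autoImplicit false

open Set Filter Topology

namespace Pool.Agent.Helper438.Oval

/-- determinant of two plane vectors -/
def det2 (u v : ℝ × ℝ) : ℝ := u.1 * v.2 - u.2 * v.1

/-- vertical width in direction of slope `m` -/
def width (p q : ℝ → ℝ × ℝ) (m : ℝ) : ℝ := ((p m).2 - m * (p m).1) - ((q m).2 - m * (q m).1)

section

variable {K : Set (ℝ × ℝ)} {p q : ℝ → ℝ × ℝ}

theorem width_pos (hi : (interior K).Nonempty) (hp : ∀ m, IsTop K 1 m (p m))
    (hq : ∀ m, IsTop K (-1) m (q m)) (m : ℝ) : 0 < width p q m := by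
  obtain ⟨z, hz⟩ := hi
  have h1 := top_lt_of_interior one_ne_zero (hp m) hz
  have h2 := top_lt_of_interior (by norm_num : (-1 : ℝ) ≠ 0) (hq m) hz
  unfold width
  linarith

theorem le_width (hp : ∀ m, IsTop K 1 m (p m)) (hq : ∀ m, IsTop K (-1) m (q m)) (m : ℝ)
    {z z' : ℝ × ℝ} (hz : z ∈ K) (hz' : z' ∈ K) :
    (z.2 - m * z.1) - (z'.2 - m * z'.1) ≤ width p q m := by
  have h1 := (hp m).2 z hz
  have h2 := (hq m).2 z' hz'
  unfold width
  linarith

theorem width_hasDerivAt (hK : IsCompact K) (hs : StrictConvex ℝ K)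
    (hp : ∀ m, IsTop K 1 m (p m)) (hq : ∀ m, IsTop K (-1) m (q m)) (m : ℝ) :
    HasDerivAt (width p q) ((q m).1 - (p m).1) m := by
  have h1 := (top_hasDerivAt hK hs one_ne_zero hp m).sub
    (top_hasDerivAt hK hs (by norm_num : (-1 : ℝ) ≠ 0) hq m)
  have e : -(p m).1 - -(q m).1 = (q m).1 - (p m).1 := by ring
  rw [e] at h1
  exact h1

theorem det_pq (m : ℝ) (a s : ℝ) :
    det2 (a, a * s) (p m - q m) = a * (width p q m + (s - m) * ((q m).1 - (p m).1)) := by
  simp only [det2, width, Prod.fst_sub, Prod.snd_sub]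
  ring

variable (hK : IsCompact K) (hs : StrictConvex ℝ K) (hi : (interior K).Nonempty)
  (hp : ∀ m, IsTop K 1 m (p m)) (hq : ∀ m, IsTop K (-1) m (q m))
  (R : ℝ → ℝ) (x : ℝ → ℝ × ℝ) (hR : ∀ m, 0 < R m) (hx : ∀ m, x m ∈ K)
  (hx' : ∀ m, ((x m).1 + R m, (x m).2 + R m * m) ∈ K)
  (hRad : ∀ m, ∀ z ∈ K, ∀ z' ∈ K, det2 (z - z') (p m - q m) ≤ R m * width p q m)

include hx hx' hRad in
theorem radon_ineq (m m' : ℝ) :
    R m' * (width p q m + (m' - m) * ((q m).1 - (p m).1)) ≤ R m * width p q m := by
  have h := hRad m _ (hx' m') _ (hx m')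
  have e : (((x m').1 + R m', (x m').2 + R m' * m') : ℝ × ℝ) - x m' = (R m', R m' * m') := by
    ext <;> simp
  rw [e, det_pq] at h
  exact h

include hK hs hi hp hq hR hx hx' hRad in
theorem radon_const : ∃ c : ℝ, 0 < c ∧ ∀ m, R m * width p q m = c := by
  obtain ⟨B, hB⟩ := hK.isBounded.exists_norm_le
  have hRB : ∀ m, R m ≤ 2 * B := by
    intro m
    have h1 := (norm_fst_le _).trans (hB _ (hx' m))
    have h2 := (norm_fst_le _).trans (hB _ (hx m))
    simp only [Real.norm_eq_abs] at h1 h2
    have h3 := (abs_le.mp h1).2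
    have h4 := (abs_le.mp h2).1
    linarith
  have hB0 : 0 ≤ 2 * B := (hR 0).le.trans (hRB 0)
  have hW' : Continuous (fun m => (q m).1 - (p m).1) :=
    (top_continuous hK hs (by norm_num : (-1 : ℝ) ≠ 0) hq).fst.sub
      (top_continuous hK hs one_ne_zero hp).fst
  have key : ∀ m, HasDerivAt (fun m => R m * width p q m) 0 m := by
    intro m
    rw [hasDerivAt_iff_isLittleO, Asymptotics.isLittleO_iff]
    intro δ hδ
    set η : ℝ := δ / (2 * (2 * B + 1)) with hη
    have hη0 : 0 < η := by positivity
    have h1 := (hasDerivAt_iff_isLittleO.mp (width_hasDerivAt hK hs hp hq m))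
    have h2 := (Asymptotics.isLittleO_iff.mp h1) hη0
    have h3 : ∀ᶠ m' in 𝓝 m, |((q m').1 - (p m').1) - ((q m).1 - (p m).1)| < η := by
      have := hW'.continuousAt (x := m)
      have h4 := (Metric.tendsto_nhds.mp this) η hη0
      filter_upwards [h4] with m' hm'
      rwa [Real.dist_eq] at hm'
    filter_upwards [h2, h3] with m' e1 e2
    simp only [Real.norm_eq_abs, smul_eq_mul, mul_zero, sub_zero] at e1 ⊢
    set E := width p q m' - width p q m - (m' - m) * ((q m).1 - (p m).1) with hE
    set G := ((q m').1 - (p m').1) - ((q m).1 - (p m).1) with hG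
    have i1 := radon_ineq R x hx hx' hRad m m'
    have i2 := radon_ineq R x hx hx' hRad m' m
    have j1 : R m' * width p q m' - R m * width p q m ≤ R m' * E := by
      have : R m' * E = R m' * width p q m'
        - R m' * (width p q m + (m' - m) * ((q m).1 - (p m).1)) := by rw [hE]; ring
      linarith
    have j2 : R m * width p q m - R m' * width p q m' ≤ R m * (-E + (m' - m) * G) := by
      have : R m * (-E + (m' - m) * G) = R m * width p q m
        - R m * (width p q m' + (m - m') * ((q m').1 - (p m').1)) := by rw [hE, hG]; ring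
      linarith
    have k1 : R m' * E ≤ (2 * B) * (η * |m' - m|) := by
      calc R m' * E ≤ R m' * |E| := by
            apply mul_le_mul_of_nonneg_left (le_abs_self _) (hR m').le
        _ ≤ (2 * B) * (η * |m' - m|) := mul_le_mul (hRB m') e1 (abs_nonneg _) hB0
    have k2 : R m * (-E + (m' - m) * G) ≤ (2 * B) * (2 * η * |m' - m|) := by
      have : -E + (m' - m) * G ≤ 2 * η * |m' - m| := by
        have a1 : -E ≤ η * |m' - m| := (neg_le_abs E).trans e1
        have a2 : (m' - m) * G ≤ |m' - m| * η := by
          calc (m' - m) * G ≤ |(m' - m) * G| := le_abs_self _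
            _ = |m' - m| * |G| := abs_mul _ _
            _ ≤ |m' - m| * η := by gcongr
        linarith
      calc R m * (-E + (m' - m) * G) ≤ R m * (2 * η * |m' - m|) :=
            mul_le_mul_of_nonneg_left this (hR m).le
        _ ≤ (2 * B) * (2 * η * |m' - m|) :=
            mul_le_mul_of_nonneg_right (hRB m) (by positivity)
    have hfin : (2 * B) * (2 * η) ≤ δ := by
      have : δ = 2 * (2 * B + 1) * η := by rw [hη]; field_simp
      rw [this]
      nlinarith [hη0, hB0]
    have hfin' : (2 * B) * (2 * η * |m' - m|) ≤ δ * |m' - m| := by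
      calc (2 * B) * (2 * η * |m' - m|) = ((2 * B) * (2 * η)) * |m' - m| := by ring
        _ ≤ δ * |m' - m| := mul_le_mul_of_nonneg_right hfin (abs_nonneg _)
    have hfin'' : (2 * B) * (η * |m' - m|) ≤ (2 * B) * (2 * η * |m' - m|) := by
      have : η * |m' - m| ≤ 2 * η * |m' - m| := by nlinarith [abs_nonneg (m' - m), hη0]
      exact mul_le_mul_of_nonneg_left this hB0
    rw [abs_le]
    constructor <;> linarith
  have hconst := is_const_of_deriv_eq_zero (fun m => (key m).differentiableAt)
    (fun m => (key m).deriv)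
  refine ⟨R 0 * width p q 0, mul_pos (hR 0) (width_pos hi hp hq 0), fun m => hconst m 0⟩

include hx hx' hRad hp hq hi in
theorem radon_dual (c : ℝ) (hc : ∀ m, R m * width p q m = c) (m : ℝ)
    (hm : (q m).1 - (p m).1 ≠ 0) :
    width p q (m - width p q m / ((q m).1 - (p m).1)) * |(q m).1 - (p m).1| = c := by
  set d := (q m).1 - (p m).1 with hd
  set M := m - width p q m / d with hM
  have hWM := width_pos hi hp hq M
  have hWm := width_pos hi hp hq m
  have hdm : (M - m) * d = -width p q m := by rw [hM]; field_simp; ring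
  have hvec : p m - q m = (-d, -d * M) := by
    have h1 : (p m - q m).2 = -d * M := by
      have : -d * M = -d * m + width p q m := by
        have := hdm; nlinarith
      rw [this, hd]
      simp only [width, Prod.snd_sub]
      ring
    have h2 : (p m - q m).1 = -d := by simp [hd]
    exact Prod.ext h2 h1
  apply le_antisymm
  · -- |d| W(M) ≤ R(M) W(M)
    rw [← hc M]
    have h1 := hRad M _ (hp m).1 _ (hq m).1
    have h2 := hRad M _ (hq m).1 _ (hp m).1
    rw [hvec, det_pq] at h1
    have hvec' : q m - p m = (d, d * M) := by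
      have : q m - p m = -(p m - q m) := by ring
      rw [this, hvec]; ext <;> simp
    rw [hvec', det_pq] at h2
    simp only [sub_self, zero_mul, add_zero] at h1 h2
    rcases abs_cases d with ⟨ha, -⟩ | ⟨ha, -⟩ <;> rw [ha] <;> linarith
  · -- R(M) ≤ |d|
    have h1 : R M ≤ |d| := by
      have e1 := le_width hp hq m (hx' M) (hx M)
      have e2 := le_width hp hq m (hx M) (hx' M)
      simp only at e1 e2
      have f1 : R M * (M - m) ≤ width p q m := by linarith
      have f2 : -(R M * (M - m)) ≤ width p q m := by linarith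
      have f3 : R M * |M - m| ≤ width p q m := by
        rcases abs_cases (M - m) with ⟨ha, -⟩ | ⟨ha, -⟩ <;> rw [ha] <;> linarith
      have f4 : |M - m| * |d| = width p q m := by
        rw [← abs_mul, hdm, abs_neg, abs_of_pos hWm]
      rw [← f4, mul_comm] at f3
      have f5 : 0 < |M - m| := by
        rcases (abs_nonneg (M - m)).eq_or_lt with h | h
        · rw [← h, zero_mul] at f4; linarith
        · exact h
      exact le_of_mul_le_mul_left f3 f5
    rw [← hc M, mul_comm (width p q M)]
    exact mul_le_mul_of_nonneg_right h1 hWM.le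

end

end Pool.Agent.Helper438.Oval
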