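import Pool.Agent.Helper438.Oval.Positive

set_option autoImplicit false

open Set Filter Topology Asymptotics

namespace Pool.Agent.Helper438.Oval

theorem contDiffAt_deriv {f : ℝ → ℝ} {x : ℝ} (h : ContDiffAt ℝ oo f x) :
    ContDiffAt ℝ oo (deriv f) x := by
  have h2 : ContDiffAt ℝ oo (fderiv ℝ f) x := h.fderiv_right (m := oo) (by simp)
  exact h2.clm_apply contDiffAt_const

theorem hasDerivAt_of_oo {f : ℝ → ℝ} {x : ℝ} (h : ContDiffAt ℝ oo f x) :
    HasDerivAt f (deriv f x) x := (h.differentiableAt (by simp)).hasDerivAt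

theorem littleO_step {G G' : ℝ → ℝ} {n : ℕ} (hd : ∀ᶠ x in 𝓝 (0 : ℝ), HasDerivAt G (G' x) x)
    (h0 : G 0 = 0) (ho : G' =o[𝓝 0] fun x => x ^ n) : G =o[𝓝 0] fun x => x ^ (n + 1) := by
  obtain ⟨r, hr, hball⟩ := Metric.eventually_nhds_iff_ball.mp hd
  have hs : Convex ℝ (Metric.ball (0 : ℝ) r) := convex_ball 0 r
  have h0s : (0 : ℝ) ∈ Metric.ball (0 : ℝ) r := Metric.mem_ball_self hr
  have hnw : 𝓝[Metric.ball (0 : ℝ) r] (0 : ℝ) = 𝓝 0 :=
    Metric.isOpen_ball.nhdsWithin_eq h0s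
  have := hs.isLittleO_pow_succ_real (f := G) (f' := G') (n := n) h0s
    (fun x hx => (hball x hx).hasDerivWithinAt) (by rw [hnw]; simpa using ho)
  rw [hnw] at this
  simpa [h0] using this

theorem taylor_four {F F1 F2 F3 : ℝ → ℝ} {F4 : ℝ}
    (h1 : ∀ᶠ x in 𝓝 (0 : ℝ), HasDerivAt F (F1 x) x)
    (h2 : ∀ᶠ x in 𝓝 (0 : ℝ), HasDerivAt F1 (F2 x) x)
    (h3 : ∀ᶠ x in 𝓝 (0 : ℝ), HasDerivAt F2 (F3 x) x)
    (h4 : HasDerivAt F3 F4 0) :
    (fun x => F x - (F 0 + F1 0 * x + F2 0 / 2 * x ^ 2 + F3 0 / 6 * x ^ 3 + F4 / 24 * x ^ 4))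
      =o[𝓝 0] (fun x => x ^ 4) := by
  have e3 : (fun x => F3 x - (F3 0 + F4 * x)) =o[𝓝 0] fun x => x ^ 1 := by
    have := hasDerivAt_iff_isLittleO.mp h4
    simp only [sub_zero, smul_eq_mul] at this
    refine (this.congr (fun x => ?_) (fun x => ?_)) <;> ring
  have e2 : (fun x => F2 x - (F2 0 + F3 0 * x + F4 / 2 * x ^ 2)) =o[𝓝 0] fun x => x ^ 2 := by
    apply littleO_step (n := 1) ?_ (by simp) e3
    filter_upwards [h3] with x hx
    have hp : HasDerivAt (fun x : ℝ => F2 0 + F3 0 * x + F4 / 2 * x ^ 2)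
        (F3 0 + F4 * x) x := by
      have a1 := ((hasDerivAt_id x).const_mul (F3 0)).const_add (F2 0)
      have a2 := (hasDerivAt_pow 2 x).const_mul (F4 / 2)
      have a3 := a1.add a2
      convert! a3 using 1
      simp; ring
    exact hx.sub hp
  have e1 : (fun x => F1 x - (F1 0 + F2 0 * x + F3 0 / 2 * x ^ 2 + F4 / 6 * x ^ 3))
      =o[𝓝 0] fun x => x ^ 3 := by
    apply littleO_step (n := 2) ?_ (by simp) e2
    filter_upwards [h2] with x hx
    have hp : HasDerivAt (fun x : ℝ => F1 0 + F2 0 * x + F3 0 / 2 * x ^ 2 + F4 / 6 * x ^ 3)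
        (F2 0 + F3 0 * x + F4 / 2 * x ^ 2) x := by
      have a1 := ((hasDerivAt_id x).const_mul (F2 0)).const_add (F1 0)
      have a2 := (hasDerivAt_pow 2 x).const_mul (F3 0 / 2)
      have a3 := (hasDerivAt_pow 3 x).const_mul (F4 / 6)
      have a4 := (a1.add a2).add a3
      convert! a4 using 1
      simp; ring
    exact hx.sub hp
  apply littleO_step (n := 3) ?_ (by simp) e1
  filter_upwards [h1] with x hx
  have hp : HasDerivAt (fun x : ℝ => F 0 + F1 0 * x + F2 0 / 2 * x ^ 2 + F3 0 / 6 * x ^ 3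
      + F4 / 24 * x ^ 4) (F1 0 + F2 0 * x + F3 0 / 2 * x ^ 2 + F4 / 6 * x ^ 3) x := by
    have a1 := ((hasDerivAt_id x).const_mul (F1 0)).const_add (F 0)
    have a2 := (hasDerivAt_pow 2 x).const_mul (F2 0 / 2)
    have a3 := (hasDerivAt_pow 3 x).const_mul (F3 0 / 6)
    have a4 := (hasDerivAt_pow 4 x).const_mul (F4 / 24)
    have a5 := ((a1.add a2).add a3).add a4
    convert! a5 using 1
    simp; ring
  exact hx.sub hp

/-- data of a side: extreme points `P m` for the sign `ε`, and local positivity of curvature -/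
structure Side (K : Set (ℝ × ℝ)) (ε : ℝ) (P : ℝ → ℝ × ℝ) : Prop where
  hε : ε = 1 ∨ ε = -1
  top : ∀ m, IsTop K ε m (P m)
  cont : Continuous P
  uniq : ∀ m z, IsTop K ε m z → z = P m
  graph : ∀ m₀, ∃ δ > 0, ∃ f : ℝ → ℝ, f (P m₀).1 = (P m₀).2 ∧ deriv f (P m₀).1 = m₀ ∧
      ∀ x ∈ Ioo ((P m₀).1 - δ) ((P m₀).1 + δ), ContDiffAt ℝ oo f x ∧
        P (deriv f x) = (x, f x) ∧ ε * deriv (deriv f) x < 0

section

variable {K : Set (ℝ × ℝ)} {ε : ℝ} {P : ℝ → ℝ × ℝ}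

theorem Side.ne_zero (S : Side K ε P) : ε ≠ 0 := by
  rcases S.hε with h | h <;> rw [h] <;> norm_num

theorem Side.sq (S : Side K ε P) : ε * ε = 1 := by
  rcases S.hε with h | h <;> rw [h] <;> norm_num

/-- local graph together with the inversion of the slope map -/
theorem Side.local (S : Side K ε P) (m₀ : ℝ) : ∃ δ > 0, ∃ f : ℝ → ℝ,
    (∀ x ∈ Ioo ((P m₀).1 - δ) ((P m₀).1 + δ), ContDiffAt ℝ oo f x ∧
        P (deriv f x) = (x, f x) ∧ ε * deriv (deriv f) x < 0) ∧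
    ContDiffAt ℝ oo (fun m => (P m).1) m₀ ∧
    ∀ᶠ m in 𝓝 m₀, (P m).1 ∈ Ioo ((P m₀).1 - δ) ((P m₀).1 + δ) ∧ deriv f (P m).1 = m ∧
      f (P m).1 = (P m).2 := by
  obtain ⟨δ, hδ, f, hf0, hf1, hf⟩ := S.graph m₀
  refine ⟨δ, hδ, f, hf, ?_⟩
  have hmem : (P m₀).1 ∈ Ioo ((P m₀).1 - δ) ((P m₀).1 + δ) := ⟨by linarith, by linarith⟩
  have hcd := (hf _ hmem).1
  have hne : deriv (deriv f) (P m₀).1 ≠ 0 := by
    intro h
    have := (hf _ hmem).2.2
    rw [h, mul_zero] at this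
    exact lt_irrefl _ this
  have hcd' := contDiffAt_deriv hcd
  have hstrict : HasStrictDerivAt (deriv f) (deriv (deriv f) (P m₀).1) (P m₀).1 :=
    hcd'.hasStrictDerivAt' (hasDerivAt_of_oo hcd') (by simp)
  let H := (hstrict.hasStrictFDerivAt_equiv hne).toOpenPartialHomeomorph (deriv f)
  have hHcoe : (H : ℝ → ℝ) = deriv f := rfl
  have hHs : (P m₀).1 ∈ H.source := HasStrictFDerivAt.mem_toOpenPartialHomeomorph_source _
  have hHm : H (P m₀).1 = m₀ := by rw [hHcoe]; exact hf1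
  have hHt : m₀ ∈ H.target := by rw [← hHm]; exact H.map_source hHs
  have hsym0 : H.symm m₀ = (P m₀).1 := by
    conv_lhs => rw [← hHm]
    exact H.left_inv hHs
  have hsc : ContinuousAt H.symm m₀ := H.continuousAt_symm hHt
  have ev1 : ∀ᶠ m in 𝓝 m₀, m ∈ H.target := H.open_target.mem_nhds hHt
  have ev2 : ∀ᶠ m in 𝓝 m₀, H.symm m ∈ Ioo ((P m₀).1 - δ) ((P m₀).1 + δ) := by
    apply hsc.eventually_mem
    rw [hsym0]
    exact Ioo_mem_nhds hmem.1 hmem.2
  have ev3 : ∀ᶠ m in 𝓝 m₀, (P m).1 = H.symm m ∧ (P m).1 ∈ Ioo ((P m₀).1 - δ) ((P m₀).1 + δ) ∧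
      deriv f (P m).1 = m ∧ f (P m).1 = (P m).2 := by
    filter_upwards [ev1, ev2] with m h1 h2
    have h3 : deriv f (H.symm m) = m := H.right_inv h1
    have h4 := (hf _ h2).2.1
    rw [h3] at h4
    have h5 : (P m).1 = H.symm m := by rw [h4]
    have h6 : (P m).2 = f (H.symm m) := by rw [h4]
    refine ⟨h5, ?_, ?_, ?_⟩
    · rw [h5]; exact h2
    · rw [h5]; exact h3
    · rw [h5, h6]
  constructor
  · have h1 : HasDerivAt H (deriv (deriv f) (P m₀).1) (H.symm m₀) := by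
      rw [hHcoe, hsym0]; exact hasDerivAt_of_oo hcd'
    have h2 : ContDiffAt ℝ oo H (H.symm m₀) := by rw [hHcoe, hsym0]; exact hcd'
    have h3 : ContDiffAt ℝ oo H.symm m₀ := H.contDiffAt_symm_deriv hne hHt h1 h2
    exact h3.congr_of_eventuallyEq (ev3.mono fun m hm => hm.1)
  · exact ev3.mono fun m hm => hm.2

theorem Side.smooth (S : Side K ε P) : ContDiff ℝ oo (fun m => (P m).1) := by
  rw [contDiff_iff_contDiffAt]
  intro m₀
  obtain ⟨δ, hδ, f, hf, h1, h2⟩ := S.local m₀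
  exact h1

/-- the reciprocal second derivative of the support function -/
noncomputable def alpha (ε : ℝ) (P : ℝ → ℝ × ℝ) (m : ℝ) : ℝ :=
  -ε / deriv (fun m => (P m).1) m

theorem Side.deriv_props (S : Side K ε P) (m₀ : ℝ) : ∃ δ > 0, ∃ f : ℝ → ℝ,
    (∀ x ∈ Ioo ((P m₀).1 - δ) ((P m₀).1 + δ), ContDiffAt ℝ oo f x ∧
        P (deriv f x) = (x, f x) ∧ ε * deriv (deriv f) x < 0) ∧
    ∀ᶠ m in 𝓝 m₀, (P m).1 ∈ Ioo ((P m₀).1 - δ) ((P m₀).1 + δ) ∧ deriv f (P m).1 = m ∧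
      f (P m).1 = (P m).2 ∧
      deriv (deriv f) (P m).1 * deriv (fun m => (P m).1) m = 1 := by
  obtain ⟨δ, hδ, f, hf, h1, h2⟩ := S.local m₀
  refine ⟨δ, hδ, f, hf, ?_⟩
  filter_upwards [h2.eventually_nhds] with m hm
  obtain ⟨a1, a2, a3⟩ := hm.self_of_nhds
  refine ⟨a1, a2, a3, ?_⟩
  have hX : HasDerivAt (fun m => (P m).1) (deriv (fun m => (P m).1) m) m :=
    hasDerivAt_of_oo (S.smooth.contDiffAt)
  have hf' := hasDerivAt_of_oo (contDiffAt_deriv (hf _ a1).1)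
  have h3 : HasDerivAt (fun m => deriv f (P m).1)
      (deriv (deriv f) (P m).1 * deriv (fun m => (P m).1) m) m :=
    HasDerivAt.comp (h₂ := deriv f) (h := fun m => (P m).1) m hf' hX
  have h4 : (fun m => deriv f (P m).1) =ᶠ[𝓝 m] fun m => m := hm.mono fun m' h => h.2.1
  have h5 : HasDerivAt (fun m : ℝ => m) (deriv (deriv f) (P m).1 * deriv (fun m => (P m).1) m) m :=
    h3.congr_of_eventuallyEq h4.symm
  exact h5.unique (hasDerivAt_id m)

theorem Side.deriv_ne (S : Side K ε P) (m : ℝ) : deriv (fun m => (P m).1) m ≠ 0 := by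
  obtain ⟨δ, hδ, f, hf, h⟩ := S.deriv_props m
  have := h.self_of_nhds.2.2.2
  intro h0
  rw [h0, mul_zero] at this
  exact zero_ne_one this

theorem Side.alpha_pos (S : Side K ε P) (m : ℝ) : 0 < alpha ε P m := by
  obtain ⟨δ, hδ, f, hf, h⟩ := S.deriv_props m
  obtain ⟨h1, h2, h3, h4⟩ := h.self_of_nhds
  have h5 := (hf _ h1).2.2
  have hne := S.deriv_ne m
  have h6 : deriv (deriv f) (P m).1 = 1 / deriv (fun m => (P m).1) m := by
    field_simp; exact h4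
  unfold alpha
  rw [h6] at h5
  have : -ε / deriv (fun m => (P m).1) m = -(ε * (1 / deriv (fun m => (P m).1) m)) := by ring
  rw [this]
  linarith

theorem Side.alpha_smooth (S : Side K ε P) : ContDiff ℝ oo (alpha ε P) := by
  have h1 : ContDiff ℝ oo (deriv (fun m => (P m).1)) := by
    have : ContDiff ℝ (oo + 1) (fun m => (P m).1) := S.smooth
    exact (contDiff_succ_iff_deriv.mp this).2.2
  unfold alpha
  exact contDiff_const.div h1 S.deriv_ne

end

end Pool.Agent.Helper438.Oval
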