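import Mathlib

set_option autoImplicit false

open Set Filter Topology

namespace Pool.Agent.Helper438.Oval

/-- `P` is the extreme point of `K` for the functional `ε (y - m x)` -/
def IsTop (K : Set (ℝ × ℝ)) (ε m : ℝ) (P : ℝ × ℝ) : Prop :=
  P ∈ K ∧ ∀ z ∈ K, ε * (z.2 - m * z.1) ≤ ε * (P.2 - m * P.1)

theorem exists_top (K : Set (ℝ × ℝ)) (hK : IsCompact K) (hne : K.Nonempty) (ε m : ℝ) :
    ∃ P, IsTop K ε m P := by
  obtain ⟨P, hP, hmax⟩ := hK.exists_isMaxOn hne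
    (f := fun z : ℝ × ℝ => ε * (z.2 - m * z.1)) (by fun_prop)
  exact ⟨P, hP, fun z hz => hmax hz⟩

theorem top_lt_of_interior {K : Set (ℝ × ℝ)} {ε m : ℝ} {P z : ℝ × ℝ} (hε : ε ≠ 0)
    (hP : IsTop K ε m P) (hz : z ∈ interior K) :
    ε * (z.2 - m * z.1) < ε * (P.2 - m * P.1) := by
  have h1 : ContinuousAt (fun δ : ℝ => (z.1, z.2 + δ * ε)) 0 := by fun_prop
  have h2 : ∀ᶠ δ in 𝓝 (0 : ℝ), (z.1, z.2 + δ * ε) ∈ interior K := by
    apply h1.eventually_mem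
    simp only [zero_mul, add_zero, Prod.mk.eta]
    exact isOpen_interior.mem_nhds hz
  have h3 : ∀ᶠ δ in 𝓝[>] (0 : ℝ), (z.1, z.2 + δ * ε) ∈ interior K :=
    h2.filter_mono nhdsWithin_le_nhds
  obtain ⟨δ, hδ, hδ0⟩ := (h3.and self_mem_nhdsWithin).exists
  have h4 := hP.2 _ (interior_subset hδ)
  simp only at h4
  have h5 : 0 < δ * (ε * ε) := mul_pos hδ0 (mul_self_pos.mpr hε)
  nlinarith [h4, h5]

theorem top_unique {K : Set (ℝ × ℝ)} (hs : StrictConvex ℝ K) {ε m : ℝ} {P P' : ℝ × ℝ}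
    (hε : ε ≠ 0) (hP : IsTop K ε m P) (hP' : IsTop K ε m P') : P = P' := by
  by_contra hne
  have h1 : (1 / 2 : ℝ) • P + (1 / 2 : ℝ) • P' ∈ interior K :=
    hs hP.1 hP'.1 hne (by norm_num) (by norm_num) (by norm_num)
  have h2 := top_lt_of_interior hε hP h1
  have h3 := hP.2 _ hP'.1
  have h4 := hP'.2 _ hP.1
  simp only [Prod.snd_add, Prod.smul_snd, smul_eq_mul, Prod.fst_add, Prod.smul_fst] at h2
  have h5 : ε * (P'.2 - m * P'.1) = ε * (P.2 - m * P.1) := le_antisymm h3 h4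
  have h6 : ε * (1 / 2 * P.2 + 1 / 2 * P'.2 - m * (1 / 2 * P.1 + 1 / 2 * P'.1))
      = 1 / 2 * (ε * (P.2 - m * P.1)) + 1 / 2 * (ε * (P'.2 - m * P'.1)) := by ring
  rw [h6, h5] at h2
  linarith

theorem top_mem_frontier {K : Set (ℝ × ℝ)} (hK : IsCompact K) {ε m : ℝ} {P : ℝ × ℝ} (hε : ε ≠ 0)
    (hP : IsTop K ε m P) : P ∈ frontier K := by
  rw [hK.isClosed.frontier_eq]
  exact ⟨hP.1, fun h => lt_irrefl _ (top_lt_of_interior hε hP h)⟩

theorem top_continuous {K : Set (ℝ × ℝ)} (hK : IsCompact K) (hs : StrictConvex ℝ K) {ε : ℝ}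
    (hε : ε ≠ 0) {p : ℝ → ℝ × ℝ} (hp : ∀ m, IsTop K ε m (p m)) : Continuous p := by
  rw [continuous_iff_continuousAt]
  intro m
  apply hK.tendsto_nhds_of_unique_mapClusterPt (Eventually.of_forall fun m' => (hp m').1)
  intro x hx hcl
  apply top_unique hs hε (m := m) ?_ (hp m)
  refine ⟨hx, fun z hz => ?_⟩
  -- the function `(m', y) ↦ ε (y.2 - m' y.1) - ε (z.2 - m' z.1)` is nonneg along the filter
  by_contra hlt
  push Not at hlt
  have hcont : Continuous (fun v : ℝ × (ℝ × ℝ) =>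
      ε * (z.2 - v.1 * z.1) - ε * (v.2.2 - v.1 * v.2.1)) := by fun_prop
  have hopen : IsOpen {v : ℝ × (ℝ × ℝ) | 0 < ε * (z.2 - v.1 * z.1) - ε * (v.2.2 - v.1 * v.2.1)} :=
    isOpen_lt continuous_const hcont
  have hmem : (m, x) ∈ {v : ℝ × (ℝ × ℝ) |
      0 < ε * (z.2 - v.1 * z.1) - ε * (v.2.2 - v.1 * v.2.1)} := by
    change 0 < ε * (z.2 - m * z.1) - ε * (x.2 - m * x.1)
    linarith
  obtain ⟨U, V, hU, hV, hmU, hxV, hsub⟩ := isOpen_prod_iff.mp hopen m x hmem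
  have h1 : ∃ᶠ m' in 𝓝 m, p m' ∈ V := hcl.frequently (hV.mem_nhds hxV)
  have h2 : ∀ᶠ m' in 𝓝 m, m' ∈ U := hU.mem_nhds hmU
  obtain ⟨m', hm'V, hm'U⟩ := (h1.and_eventually h2).exists
  have h3 : (m', p m') ∈ {v : ℝ × (ℝ × ℝ) |
      0 < ε * (z.2 - v.1 * z.1) - ε * (v.2.2 - v.1 * v.2.1)} := hsub ⟨hm'U, hm'V⟩
  have h4 : 0 < ε * (z.2 - m' * z.1) - ε * ((p m').2 - m' * (p m').1) := h3
  have h5 := (hp m').2 z hz
  linarith

theorem top_hasDerivAt {K : Set (ℝ × ℝ)} (hK : IsCompact K) (hs : StrictConvex ℝ K) {ε : ℝ}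
    (hε : ε ≠ 0) {p : ℝ → ℝ × ℝ} (hp : ∀ m, IsTop K ε m (p m)) (m : ℝ) :
    HasDerivAt (fun m => (p m).2 - m * (p m).1) (-(p m).1) m := by
  have hc := (top_continuous hK hs hε hp).continuousAt (x := m)
  have hc1 : Tendsto (fun m' => (p m').1 - (p m).1) (𝓝 m) (𝓝 0) := by
    have : Tendsto (fun m' => (p m').1 - (p m).1) (𝓝 m) (𝓝 ((p m).1 - (p m).1)) :=
      (hc.fst).sub tendsto_const_nhds
    simpa using this
  rw [hasDerivAt_iff_isLittleO]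
  rw [Asymptotics.isLittleO_iff]
  intro δ hδ
  have h1 : ∀ᶠ m' in 𝓝 m, |(p m').1 - (p m).1| < δ := by
    have := hc1.eventually (Metric.ball_mem_nhds (0 : ℝ) hδ)
    filter_upwards [this] with m' hm'
    simpa [Real.dist_eq] using hm'
  filter_upwards [h1] with m' hm'
  have e1 := (hp m').2 _ (hp m).1
  have e2 := (hp m).2 _ (hp m').1
  simp only [Real.norm_eq_abs, smul_eq_mul]
  -- E := difference
  set E := (p m').2 - m' * (p m').1 - ((p m).2 - m * (p m).1) - (m' - m) * -(p m).1 with hE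
  have e3 : 0 ≤ ε * E := by
    have : ε * E = ε * ((p m').2 - m' * (p m').1) - ε * ((p m).2 - m' * (p m).1) := by
      rw [hE]; ring
    linarith
  have e4 : ε * E ≤ ε * (-(m' - m) * ((p m').1 - (p m).1)) := by
    have : ε * E = ε * ((p m').2 - m * (p m').1) - ε * ((p m).2 - m * (p m).1)
        + ε * (-(m' - m) * ((p m').1 - (p m).1)) := by
      rw [hE]; ring
    linarith
  have e5 : |ε * E| ≤ |ε * (-(m' - m) * ((p m').1 - (p m).1))| := by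
    rw [abs_of_nonneg e3, abs_of_nonneg (e3.trans e4)]
    exact e4
  rw [abs_mul, abs_mul ε] at e5
  have e6 : |E| ≤ |-(m' - m) * ((p m').1 - (p m).1)| :=
    le_of_mul_le_mul_left e5 (abs_pos.mpr hε)
  calc |E| ≤ |-(m' - m) * ((p m').1 - (p m).1)| := e6
    _ = |m' - m| * |(p m').1 - (p m).1| := by rw [abs_mul, abs_neg]
    _ ≤ |m' - m| * δ := by gcongr
    _ = δ * |m' - m| := mul_comm _ _

end Pool.Agent.Helper438.Oval
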